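import Pool.Agent.H29.BT.Avg

/-!
# [H90 BX Bal] the average over balanced signs (idea of helper75)

`n = |V|`, `N = n - 1`, `k` the odd number among `N`, `N - 1`: `k = 2 * (n / 2) - 1`. For different `a, b, c, d ≠ v` the mean of
`s a * s b` is `-1/k` and the mean of `s a * s b * s c * s d` is `3 / (k (k - 2))`.

Proof. Let `W` be the set of all vertices (`n` even) or of all vertices different from `v` (`n` odd), `m = |W| = k + 1`, an even
number. Average over the set `S = BS W` of all sign vectors `s` with `∑ u ∈ W, s u = 0`. `S` is invariant under transpositions of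
`W`, so `∑ s ∈ S, s a * s b` does not depend on `b ∈ W \ {a}`; as `∑ b ∈ W \ {a}, s a * s b = -1` on `S`, it is `-|S| / (m - 1)`.
In the same way `∑ d ∈ W \ {a,b,c}, s a * s b * s c * s d = -(s b * s c + s a * s c + s a * s b)` gives `3 |S| / ((m - 1) (m - 3))`.
-/

set_option autoImplicit false

open Set
open scoped Classical

noncomputable section

namespace H90.BX

open H29.BP H29.BT

/-- the sign vectors which are balanced on `W` -/
def BS {V : Type} [Fintype V] (W : Finset V) : Finset (V → ℤˣ) :=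
  Finset.univ.filter fun s => ∑ u ∈ W, sg s u = 0

theorem mem_BS {V : Type} [Fintype V] (W : Finset V) (s : V → ℤˣ) :
    s ∈ BS W ↔ ∑ u ∈ W, sg s u = 0 := by
  unfold BS
  rw [Finset.mem_filter]
  exact ⟨fun h => h.2, fun h => ⟨Finset.mem_univ _, h⟩⟩

theorem BS_nonempty {V : Type} [Fintype V] (W : Finset V) (j : ℕ) (hW : W.card = 2 * j) :
    (BS W).Nonempty := by
  obtain ⟨W', hW', hc⟩ := Finset.exists_subset_card_eq (s := W) (n := j) (by omega)
  refine ⟨fun u => if u ∈ W' then 1 else -1, ?_⟩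
  rw [mem_BS]
  have h1 : ∀ u, sg (fun u => if u ∈ W' then (1 : ℤˣ) else -1) u = if u ∈ W' then (1 : ℝ) else -1 := by
    intro u
    unfold sg
    by_cases hu : u ∈ W' <;> simp [hu]
  rw [Finset.sum_congr rfl fun u _ => h1 u, Finset.sum_ite]
  have h2 : (W.filter fun u => u ∈ W').card = j := by
    rw [Finset.filter_mem_eq_inter, Finset.inter_eq_right.2 hW', hc]
  have h3 : (W.filter fun u => u ∉ W').card = j := by
    have := Finset.card_filter_add_card_filter_not (s := W) (fun u => u ∈ W')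
    omega
  rw [Finset.sum_const, Finset.sum_const, h2, h3]
  simp

theorem sum_swap {V : Type} [Fintype V] (W : Finset V) (F : (V → ℤˣ) → ℝ) {x y : V} (hx : x ∈ W)
    (hy : y ∈ W) : ∑ s ∈ BS W, F (fun u => s (Equiv.swap x y u)) = ∑ s ∈ BS W, F s := by
  have hm : ∀ s ∈ BS W, (fun u => s (Equiv.swap x y u)) ∈ BS W := by
    intro s hs
    rw [mem_BS] at hs ⊢
    rw [← hs]
    refine Finset.sum_equiv (Equiv.swap x y) (fun u => ?_) (fun u _ => rfl)
    rw [Equiv.swap_apply_def]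
    split_ifs with h1 h2
    · rw [h1]
      exact iff_of_true hx hy
    · rw [h2]
      exact iff_of_true hy hx
    · rfl
  refine Finset.sum_nbij' (fun s => fun u => s (Equiv.swap x y u)) (fun s => fun u => s (Equiv.swap x y u))
    hm hm (fun s _ => ?_) (fun s _ => ?_) (fun s _ => rfl)
  · funext u
    simp
  · funext u
    simp

theorem T2 {V : Type} [Fintype V] (W : Finset V) {a b : V} (ha : a ∈ W) (hb : b ∈ W) (hab : a ≠ b) :
    ((W.card : ℝ) - 1) * ∑ s ∈ BS W, sg s a * sg s b = -((BS W).card : ℝ) := by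
  have h1 : ∀ b' ∈ W.erase a, ∑ s ∈ BS W, sg s a * sg s b' = ∑ s ∈ BS W, sg s a * sg s b := by
    intro b' hb'
    rw [Finset.mem_erase] at hb'
    rw [← sum_swap W (fun s => sg s a * sg s b) hb hb'.2]
    refine Finset.sum_congr rfl fun s _ => ?_
    show sg s a * sg s b' = sg s (Equiv.swap b b' a) * sg s (Equiv.swap b b' b)
    rw [Equiv.swap_apply_left, Equiv.swap_apply_of_ne_of_ne hab hb'.1.symm]
  have h2 : ∑ b' ∈ W.erase a, ∑ s ∈ BS W, sg s a * sg s b' = -((BS W).card : ℝ) := by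
    rw [Finset.sum_comm]
    have h3 : ∀ s ∈ BS W, ∑ b' ∈ W.erase a, sg s a * sg s b' = -1 := by
      intro s hs
      rw [mem_BS] at hs
      rw [← Finset.mul_sum]
      have h4 := Finset.add_sum_erase W (fun u => sg s u) ha
      have h5 : ∑ b' ∈ W.erase a, sg s b' = -sg s a := by
        rw [hs] at h4
        linarith
      rw [h5]
      have := sg_mul_self s a
      linarith
    rw [Finset.sum_congr rfl h3, Finset.sum_const, nsmul_eq_mul]
    ring
  rw [Finset.sum_congr rfl h1, Finset.sum_const, Finset.card_erase_of_mem ha, nsmul_eq_mul,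
    Nat.cast_sub (Finset.card_pos.2 ⟨a, ha⟩), Nat.cast_one] at h2
  exact h2

theorem T4 {V : Type} [Fintype V] (W : Finset V) {a b c d : V} (ha : a ∈ W) (hb : b ∈ W) (hc : c ∈ W)
    (hd : d ∈ W) (hab : a ≠ b) (hac : a ≠ c) (had : a ≠ d) (hbc : b ≠ c) (hbd : b ≠ d) (hcd : c ≠ d) :
    ((W.card : ℝ) - 1) * (((W.card : ℝ) - 3) * ∑ s ∈ BS W, sg s a * sg s b * sg s c * sg s d) =
      3 * ((BS W).card : ℝ) := by
  obtain ⟨R, hR⟩ : ∃ R : Finset V, R = ((W.erase a).erase b).erase c := ⟨_, rfl⟩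
  have hbW : b ∈ W.erase a := Finset.mem_erase.2 ⟨hab.symm, hb⟩
  have hcW : c ∈ (W.erase a).erase b := Finset.mem_erase.2 ⟨hbc.symm, Finset.mem_erase.2 ⟨hac.symm, hc⟩⟩
  have hRc : R.card = W.card - 1 - 1 - 1 := by
    rw [hR, Finset.card_erase_of_mem hcW, Finset.card_erase_of_mem hbW, Finset.card_erase_of_mem ha]
  have hcard : 3 ≤ W.card := by
    have e1 := Finset.card_pos.2 ⟨c, hcW⟩
    rw [Finset.card_erase_of_mem hbW, Finset.card_erase_of_mem ha] at e1
    omega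
  have hRm : ∀ {u}, u ∈ R → u ∈ W ∧ a ≠ u ∧ b ≠ u ∧ c ≠ u := by
    intro u hu
    rw [hR, Finset.mem_erase, Finset.mem_erase, Finset.mem_erase] at hu
    exact ⟨hu.2.2.2, hu.2.2.1.symm, hu.2.1.symm, hu.1.symm⟩
  have h1 : ∀ d' ∈ R, ∑ s ∈ BS W, sg s a * sg s b * sg s c * sg s d' =
      ∑ s ∈ BS W, sg s a * sg s b * sg s c * sg s d := by
    intro d' hd'
    obtain ⟨e1, e2, e3, e4⟩ := hRm hd'
    rw [← sum_swap W (fun s => sg s a * sg s b * sg s c * sg s d) hd e1]
    refine Finset.sum_congr rfl fun s _ => ?_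
    show sg s a * sg s b * sg s c * sg s d' = sg s (Equiv.swap d d' a) * sg s (Equiv.swap d d' b) *
      sg s (Equiv.swap d d' c) * sg s (Equiv.swap d d' d)
    rw [Equiv.swap_apply_left, Equiv.swap_apply_of_ne_of_ne had e2,
      Equiv.swap_apply_of_ne_of_ne hbd e3, Equiv.swap_apply_of_ne_of_ne hcd e4]
  have h2 : ∑ d' ∈ R, ∑ s ∈ BS W, sg s a * sg s b * sg s c * sg s d' =
      -(∑ s ∈ BS W, sg s b * sg s c + ∑ s ∈ BS W, sg s a * sg s c + ∑ s ∈ BS W, sg s a * sg s b) := by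
    rw [Finset.sum_comm, ← Finset.sum_add_distrib, ← Finset.sum_add_distrib, ← Finset.sum_neg_distrib]
    refine Finset.sum_congr rfl fun s hs => ?_
    rw [mem_BS] at hs
    rw [← Finset.mul_sum]
    have h4 := Finset.add_sum_erase W (fun u => sg s u) ha
    have h5 := Finset.add_sum_erase (W.erase a) (fun u => sg s u) hbW
    have h6 := Finset.add_sum_erase ((W.erase a).erase b) (fun u => sg s u) hcW
    rw [← hR] at h6
    have h7 : ∑ d' ∈ R, sg s d' = -(sg s a + sg s b + sg s c) := by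
      rw [hs] at h4
      linarith
    rw [h7]
    have ea := sg_mul_self s a
    have eb := sg_mul_self s b
    have ec := sg_mul_self s c
    have e1 : sg s a * sg s b * sg s c * -(sg s a + sg s b + sg s c) =
        -((sg s a * sg s a) * (sg s b * sg s c) + (sg s b * sg s b) * (sg s a * sg s c) +
          (sg s c * sg s c) * (sg s a * sg s b)) := by ring
    rw [e1, ea, eb, ec]
    ring
  rw [Finset.sum_congr rfl h1, Finset.sum_const, hRc, nsmul_eq_mul] at h2
  have h8 : ((W.card - 1 - 1 - 1 : ℕ) : ℝ) = (W.card : ℝ) - 3 := by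
    have : W.card - 1 - 1 - 1 = W.card - 3 := by omega
    rw [this, Nat.cast_sub hcard]
    norm_num
  rw [h8] at h2
  rw [h2]
  have t1 := T2 W hb hc hbc
  have t2 := T2 W ha hc hac
  have t3 := T2 W ha hb hab
  linarith

/-- the sum over some sign vectors of a weighted double sum -/
theorem sum_weight {V : Type} [Fintype V] (S : Finset (V → ℤˣ)) (A B : Finset (Sym2 V))
    (x : Sym2 V → Sym2 V → ℝ) (hx0 : ∀ e f, 0 ≤ x e f)
    (F : (V → ℤˣ) → Sym2 V → Sym2 V → ℝ) (c : ℝ)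
    (h : ∀ g ∈ A, ∀ k ∈ B, x g k ≠ 0 → ∑ s ∈ S, F s g k ≤ c * (S.card : ℝ)) :
    ∑ s ∈ S, ∑ g ∈ A, ∑ k ∈ B, x g k * F s g k ≤ (S.card : ℝ) * (c * ∑ g ∈ A, ∑ k ∈ B, x g k) := by
  rw [Finset.sum_comm, Finset.mul_sum, Finset.mul_sum]
  refine Finset.sum_le_sum fun g hg => ?_
  rw [Finset.sum_comm, Finset.mul_sum, Finset.mul_sum]
  refine Finset.sum_le_sum fun k hk => ?_
  rw [← Finset.mul_sum]
  by_cases hx : x g k = 0
  · simp [hx]
  · have h1 := mul_le_mul_of_nonneg_left (h g hg k hk hx) (hx0 g k)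
    refine h1.trans (le_of_eq ?_)
    ring

theorem bal_avg {V : Type} [Fintype V] (v : V) (O E' : Finset (Sym2 V))
    (x : Sym2 V → Sym2 V → ℝ) (hx0 : ∀ e f, 0 ≤ x e f) (hO : ∀ g ∈ O, ¬ g.IsDiag)
    (hOv : ∀ g ∈ O, v ∉ g)
    (hO' : ∀ g ∈ O, ∀ h ∈ O, Meets g h → x g h = 0)
    (hE : ∀ e ∈ E', ∀ g ∈ O, Meets e g → x e g = 0) (hEv : ∀ e ∈ E', v ∈ e)
    (hn : 5 ≤ Fintype.card V) (k : ℕ) (hk : k = 2 * (Fintype.card V / 2) - 1) :
    ∃ s : V → ℤˣ,
      (∑ g ∈ O, ∑ h ∈ O, x g h * cost s g h) +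
      2 * (∑ e ∈ E', ∑ g ∈ O, x e g *
        (if ∃ y ∈ e, y ∉ ({v} : Set V) ∧ ∀ u ∈ g, s u = s y then 1 else 0)) ≤
      (3 / 8 - 1 / (4 * (k : ℝ)) + 9 / (8 * (k : ℝ) * (k - 2))) * (∑ g ∈ O, ∑ h ∈ O, x g h) +
      2 * (1 / 4 - 3 / (4 * (k : ℝ))) * (∑ e ∈ E', ∑ g ∈ O, x e g) := by
  -- the set of the vertices on which the signs are balanced
  obtain ⟨W, hWc, hW⟩ : ∃ W : Finset V, W.card = k + 1 ∧ ∀ u, u ≠ v → u ∈ W := by
    rcases Nat.even_or_odd (Fintype.card V) with he | ho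
    · refine ⟨Finset.univ, ?_, fun u _ => Finset.mem_univ u⟩
      rw [Finset.card_univ, hk]
      obtain ⟨r, hr⟩ := he
      omega
    · refine ⟨Finset.univ.erase v, ?_, fun u hu => Finset.mem_erase.2 ⟨hu, Finset.mem_univ u⟩⟩
      rw [Finset.card_erase_of_mem (Finset.mem_univ v), Finset.card_univ, hk]
      obtain ⟨r, hr⟩ := ho
      omega
  have hk3 : 3 ≤ k := by omega
  have hk3' : (3 : ℝ) ≤ k := by exact_mod_cast hk3
  have hk0 : (0 : ℝ) < k := by linarith
  have hk2 : (0 : ℝ) < (k : ℝ) - 2 := by linarith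
  have hSn : (BS W).Nonempty := BS_nonempty W (Fintype.card V / 2) (by rw [hWc]; omega)
  obtain ⟨M, hM⟩ : ∃ M : ℝ, M = ((BS W).card : ℝ) := ⟨_, rfl⟩
  have hM0 : 0 < M := by
    rw [hM]
    exact_mod_cast Finset.card_pos.2 hSn
  have h2 : ∀ {a b : V}, a ≠ v → b ≠ v → a ≠ b → ∑ s ∈ BS W, sg s a * sg s b = -(M / k) := by
    intro a b ha hb hab
    have e1 := T2 W (hW a ha) (hW b hb) hab
    rw [hWc] at e1
    push_cast at e1
    rw [add_sub_cancel_right, ← hM] at e1
    field_simp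
    linarith
  have h4 : ∀ {a b c d : V}, a ≠ v → b ≠ v → c ≠ v → d ≠ v → a ≠ b → a ≠ c → a ≠ d → b ≠ c → b ≠ d →
      c ≠ d → ∑ s ∈ BS W, sg s a * sg s b * sg s c * sg s d = 3 * M / (k * (k - 2)) := by
    intro a b c d ha hb hc hd hab hac had hbc hbd hcd
    have e1 := T4 W (hW a ha) (hW b hb) (hW c hc) (hW d hd) hab hac had hbc hbd hcd
    rw [hWc] at e1
    push_cast at e1
    rw [add_sub_cancel_right, ← hM] at e1
    rw [eq_div_iff (by positivity)]
    have e2 : (k : ℝ) + 1 - 3 = k - 2 := by ring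
    rw [e2] at e1
    linarith
  have hA : ∑ s ∈ BS W, ∑ g ∈ O, ∑ h ∈ O, x g h * cost s g h ≤
      M * ((3 / 8 - 1 / (4 * (k : ℝ)) + 9 / (8 * (k : ℝ) * (k - 2))) * ∑ g ∈ O, ∑ h ∈ O, x g h) := by
    rw [hM]
    refine sum_weight (BS W) O O x hx0 (fun s g h => cost s g h) _ ?_
    intro g hg h hh hx
    have h1 : ¬ Meets g h := fun hm => hx (hO' g hg h hh hm)
    have e2 := hO g hg
    have e3 := hO h hh
    have e4 := hOv g hg
    have e5 := hOv h hh
    induction g using Sym2.ind with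
    | _ a b =>
      induction h using Sym2.ind with
      | _ c d =>
        rw [Sym2.mk_isDiag_iff] at e2 e3
        rw [Sym2.mem_iff, not_or] at e4 e5
        obtain ⟨h5, h6, h7, h8⟩ := not_meets_mk h1
        have h0 : ∀ s : V → ℤˣ, cost s s(a, b) s(c, d) =
            3 / 8 - 1 / 8 * (sg s a * sg s b) - 1 / 8 * (sg s c * sg s d) +
              1 / 8 * (sg s a * sg s c) + 1 / 8 * (sg s a * sg s d) + 1 / 8 * (sg s b * sg s c) +
              1 / 8 * (sg s b * sg s d) + 3 / 8 * (sg s a * sg s b * sg s c * sg s d) := by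
          intro s
          rw [cost_mk]
          ring
        rw [Finset.sum_congr rfl fun s _ => h0 s]
        simp only [Finset.sum_add_distrib, Finset.sum_sub_distrib, ← Finset.mul_sum]
        rw [h2 (Ne.symm e4.1) (Ne.symm e4.2) e2, h2 (Ne.symm e5.1) (Ne.symm e5.2) e3, h2 (Ne.symm e4.1) (Ne.symm e5.1) h5,
          h2 (Ne.symm e4.1) (Ne.symm e5.2) h6, h2 (Ne.symm e4.2) (Ne.symm e5.1) h7, h2 (Ne.symm e4.2) (Ne.symm e5.2) h8,
          h4 (Ne.symm e4.1) (Ne.symm e4.2) (Ne.symm e5.1) (Ne.symm e5.2) e2 h5 h6 h7 h8 e3, Finset.sum_const, nsmul_eq_mul,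
          ← hM]
        refine le_of_eq ?_
        field_simp
        ring
  have hB : ∑ s ∈ BS W, ∑ e ∈ E', ∑ g ∈ O, x e g *
        (if ∃ y ∈ e, y ∉ ({v} : Set V) ∧ ∀ u ∈ g, s u = s y then 1 else 0) ≤
      M * ((1 / 4 - 3 / (4 * (k : ℝ))) * ∑ e ∈ E', ∑ g ∈ O, x e g) := by
    rw [hM]
    refine sum_weight (BS W) E' O x hx0
      (fun s e g => if ∃ y ∈ e, y ∉ ({v} : Set V) ∧ ∀ u ∈ g, s u = s y then 1 else 0) _ ?_
    intro e he g hg hx
    have h1 : ¬ Meets e g := fun hm => hx (hE e he g hg hm)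
    have e2 := hO g hg
    have e4 := hOv g hg
    have hv := hEv e he
    obtain ⟨y, rfl⟩ := Sym2.mem_iff_exists.1 hv
    by_cases hy : y ∈ ({v} : Set V)
    · have h3 : ∀ s : V → ℤˣ,
          (if ∃ y' ∈ s(v, y), y' ∉ ({v} : Set V) ∧ ∀ w ∈ g, s w = s y' then (1 : ℝ) else 0) = 0 := by
        intro s
        rw [if_neg]
        rintro ⟨y', hy', hyN, _⟩
        rw [Sym2.mem_iff] at hy'
        rcases hy' with rfl | rfl
        · exact hyN rfl
        · exact hyN hy
      simp only [h3, Finset.sum_const_zero]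
      refine mul_nonneg ?_ (Nat.cast_nonneg _)
      rw [sub_nonneg, div_le_div_iff₀ (by positivity) (by positivity)]
      linarith
    · induction g using Sym2.ind with
      | _ a b =>
        rw [Sym2.mk_isDiag_iff] at e2
        rw [Sym2.mem_iff, not_or] at e4
        obtain ⟨h5, h6, h7, h8⟩ := not_meets_mk h1
        have hyv : y ≠ v := hy
        simp only [ind_eq ({v} : Set V) _ rfl hy]
        simp only [Finset.sum_add_distrib, ← Finset.mul_sum]
        rw [h2 (Ne.symm e4.1) hyv h7.symm, h2 (Ne.symm e4.2) hyv h8.symm, h2 (Ne.symm e4.1) (Ne.symm e4.2) e2,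
          Finset.sum_const, nsmul_eq_mul, ← hM]
        refine le_of_eq ?_
        field_simp
        ring
  obtain ⟨s, _, hs⟩ := Finset.exists_le_of_sum_le (s := BS W)
    (f := fun s => (∑ g ∈ O, ∑ h ∈ O, x g h * cost s g h) +
      2 * (∑ e ∈ E', ∑ g ∈ O, x e g *
        (if ∃ y ∈ e, y ∉ ({v} : Set V) ∧ ∀ u ∈ g, s u = s y then 1 else 0)))
    (g := fun _ => (3 / 8 - 1 / (4 * (k : ℝ)) + 9 / (8 * (k : ℝ) * (k - 2))) *
      (∑ g ∈ O, ∑ h ∈ O, x g h) +
      2 * (1 / 4 - 3 / (4 * (k : ℝ))) * (∑ e ∈ E', ∑ g ∈ O, x e g)) hSn (by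
      rw [Finset.sum_add_distrib, ← Finset.mul_sum, Finset.sum_const, nsmul_eq_mul, ← hM]
      nlinarith [hA, hB])
  exact ⟨s, hs⟩

end H90.BX
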