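import Pool.Agent.H29.BT.Core

/-!
# [H90 BX] every graph: the gain from one vertex, averaged

`baby` (helper29): `CR2 G ≤ 3/8 CR G - 1/8 ∑ cre D e` over the edges at `v`, for an optimal drawing `D`.
-/

set_option autoImplicit false

open Set
open scoped Classical

noncomputable section

namespace H90.BX

open H29.BP H29.BT

variable {V : Type} [Finite V] {G : SimpleGraph V}

/-- the crossings on the edges at `v` -/
def at' (D : Drawing G) (v : V) : Set ℂ := {p ∈ D.crossings | ∃ e ∈ G.edgeSet, v ∈ e ∧ p ∈ D.arc e}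

theorem at_le (D : Drawing G) (v : V) :
    {p ∈ D.crossings | ∃ e ∈ G.edgeSet, v ∈ e ∧ p ∈ D.arc e}.ncard ≤
      ∑ e ∈ (ES G).filter (fun e => v ∈ e), cre D e := by
  have h1 : {p ∈ D.crossings | ∃ e ∈ G.edgeSet, v ∈ e ∧ p ∈ D.arc e} ⊆
      ⋃ q ∈ ((ES G).filter (fun e => v ∈ e) ×ˢ ES G).filter (fun q => q.1 ≠ q.2),
        D.X q.1 q.2 := by
    rintro p ⟨⟨e₀, he₀, f₀, hf₀, hef, hp⟩, e, he, hve, hpe⟩
    have h2 : e = e₀ ∨ e = f₀ := by
      by_contra hne
      push Not at hne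
      exact hp.2 (D.no_triple e₀ he₀ f₀ hf₀ e he hef hne.1.symm hne.2.symm p hp.1 hpe)
    rw [Set.mem_iUnion₂]
    rcases h2 with rfl | rfl
    · refine ⟨(e, f₀), ?_, hp⟩
      rw [Finset.mem_filter, Finset.mem_product, Finset.mem_filter, mem_ES, mem_ES]
      exact ⟨⟨⟨he, hve⟩, hf₀⟩, hef⟩
    · refine ⟨(e, e₀), ?_, ?_⟩
      · rw [Finset.mem_filter, Finset.mem_product, Finset.mem_filter, mem_ES, mem_ES]
        exact ⟨⟨⟨he, hve⟩, he₀⟩, fun h => hef h.symm⟩
      · rw [D.X_comm]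
        exact hp
  have hfin : ∀ q ∈ ((ES G).filter (fun e => v ∈ e) ×ˢ ES G).filter (fun q => q.1 ≠ q.2),
      (D.X q.1 q.2).Finite := by
    intro q hq
    rw [Finset.mem_filter, Finset.mem_product, Finset.mem_filter, mem_ES, mem_ES] at hq
    exact D.X_finite hq.1.1.1 hq.1.2 hq.2
  have h3 := Set.ncard_le_ncard h1 (Set.Finite.biUnion (Finset.finite_toSet _) hfin)
  refine h3.trans ?_
  have h4 : (⋃ q ∈ ((ES G).filter (fun e => v ∈ e) ×ˢ ES G).filter (fun q => q.1 ≠ q.2),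
      D.X q.1 q.2).ncard ≤
      ∑ q ∈ ((ES G).filter (fun e => v ∈ e) ×ˢ ES G).filter (fun q => q.1 ≠ q.2),
        (D.X q.1 q.2).ncard := Finset.set_ncard_biUnion_le _ _
  refine h4.trans ?_
  unfold cre
  rw [← Finset.sum_product']
  refine (Finset.sum_le_sum fun q hq => ?_).trans
    (Finset.sum_le_sum_of_subset (Finset.filter_subset _ _))
  rw [Finset.mem_filter] at hq
  unfold Drawing.x
  rw [if_neg hq.2]

theorem master (D : Drawing G) (hD : D.cr = CR G) (v : V) :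
    8 * CR2 G + {p ∈ D.crossings | ∃ e ∈ G.edgeSet, v ∈ e ∧ p ∈ D.arc e}.ncard ≤ 3 * CR G := by
  have h1 := baby D hD v
  have h2 := at_le D v
  have h3 : (({p ∈ D.crossings | ∃ e ∈ G.edgeSet, v ∈ e ∧ p ∈ D.arc e}.ncard : ℕ) : ℝ) ≤
      ∑ e ∈ (ES G).filter (fun e => v ∈ e), (cre D e : ℝ) := by
    exact_mod_cast h2
  have h4 : (8 : ℝ) * CR2 G +
      ({p ∈ D.crossings | ∃ e ∈ G.edgeSet, v ∈ e ∧ p ∈ D.arc e}.ncard : ℕ) ≤ 3 * CR G := by
    linarith
  exact_mod_cast h4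

theorem sum_cre (D : Drawing G) : ∑ e ∈ ES G, (cre D e : ℝ) = 2 * D.cr := by
  have h := D.two_mul_cr
  have h2 : ((2 * D.cr : ℕ) : ℝ) = ((∑ e ∈ ES G, ∑ f ∈ ES G, D.x e f : ℕ) : ℝ) := by rw [h]
  push_cast at h2
  rw [h2]
  unfold cre
  push_cast
  rfl

theorem cover (G : SimpleGraph V) (C : Finset V) (hC : C.Nonempty) (j : ℕ)
    (hj : ∀ e ∈ G.edgeSet, j ≤ (C.filter fun v => v ∈ e).card) :
    (CR2 G : ℝ) ≤ (3 / 8 - j / (4 * C.card)) * CR G := by
  obtain ⟨D, hD⟩ := exists_opt G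
  have h1 : ∑ _v ∈ C, (CR2 G : ℝ) ≤ ∑ v ∈ C, (3 / 8 * (CR G : ℝ) -
      1 / 8 * ∑ e ∈ (ES G).filter (fun e => v ∈ e), (cre D e : ℝ)) :=
    Finset.sum_le_sum fun v _ => baby D hD v
  rw [Finset.sum_const, nsmul_eq_mul, Finset.sum_sub_distrib, Finset.sum_const, nsmul_eq_mul,
    ← Finset.mul_sum] at h1
  have h2 : ∑ v ∈ C, ∑ e ∈ (ES G).filter (fun e => v ∈ e), (cre D e : ℝ) =
      ∑ e ∈ ES G, ((C.filter fun v => v ∈ e).card : ℝ) * cre D e := by
    have h3 : ∀ v ∈ C, ∑ e ∈ (ES G).filter (fun e => v ∈ e), (cre D e : ℝ) =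
        ∑ e ∈ ES G, if v ∈ e then (cre D e : ℝ) else 0 := by
      intro v _
      rw [Finset.sum_filter]
    rw [Finset.sum_congr rfl h3, Finset.sum_comm]
    refine Finset.sum_congr rfl fun e _ => ?_
    rw [← Finset.sum_filter, Finset.sum_const, nsmul_eq_mul]
  have h4 : (j : ℝ) * (2 * CR G) ≤ ∑ e ∈ ES G, ((C.filter fun v => v ∈ e).card : ℝ) * cre D e := by
    rw [← hD, ← sum_cre, Finset.mul_sum]
    refine Finset.sum_le_sum fun e he => ?_
    refine mul_le_mul_of_nonneg_right ?_ (Nat.cast_nonneg _)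
    exact_mod_cast hj e (mem_ES.1 he)
  rw [h2] at h1
  have hc : (0 : ℝ) < C.card := by exact_mod_cast hC.card_pos
  have h5 : (C.card : ℝ) * CR2 G ≤ C.card * ((3 / 8 - j / (4 * C.card)) * CR G) := by
    have h6 : (C.card : ℝ) * ((3 / 8 - j / (4 * C.card)) * CR G) =
        C.card * (3 / 8 * CR G) - 1 / 8 * (j * (2 * CR G)) := by
      field_simp
      ring
    rw [h6]
    linarith
  exact le_of_mul_le_mul_left h5 hc

theorem every [Nonempty V] (G : SimpleGraph V) :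
    (CR2 G : ℝ) ≤ (3 / 8 - 1 / (2 * Nat.card V)) * CR G := by
  have := Fintype.ofFinite V
  have h := cover G (Finset.univ : Finset V) Finset.univ_nonempty 2 (by
    intro e he
    induction e using Sym2.ind with
    | _ x y =>
      rw [SimpleGraph.mem_edgeSet] at he
      have h1 : ({x, y} : Finset V) ⊆ (Finset.univ.filter fun v => v ∈ s(x, y)) := by
        intro z hz
        rw [Finset.mem_insert, Finset.mem_singleton] at hz
        rw [Finset.mem_filter]
        exact ⟨Finset.mem_univ _, by rcases hz with rfl | rfl <;> simp⟩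
      have h2 := Finset.card_le_card h1
      rwa [Finset.card_pair he.ne] at h2)
  refine h.trans (le_of_eq ?_)
  have hc : (0 : ℝ) < Nat.card V := by exact_mod_cast Nat.card_pos
  rw [Finset.card_univ, ← Nat.card_eq_fintype_card]
  field_simp
  push_cast
  ring

end H90.BX
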