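import Pool.Agent.H90.BX.Bal
import Pool.Agent.H90.BX.Every

/-!
# [H90 BX Bal2] every graph: `CR2 G ≤ (3/8 - 3/(4n)) CR G`
-/

set_option autoImplicit false

open Set
open scoped Classical

noncomputable section

namespace H90.BX

open H29.BP H29.BT

variable {V : Type} {G : SimpleGraph V}

theorem avoidV [Finite V] (D : Drawing G) (v : V) : ∀ g ∈ G.edgeSet, (∀ w ∈ g, w ∉ ({v} : Set V)) →
    D.pos v ∉ D.arc g := by
  intro g hg hgv hp
  induction g using Sym2.ind with
  | _ a b =>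
    rcases D.avoid a b v hg hp with h | h
    · exact hgv a (by simp) (by simp [h])
    · exact hgv b (by simp) (by simp [h])

private theorem mOA' [Finite V] {A : Set V} {R : Set (Sym2 V)} {e : Sym2 V} :
    e ∈ OA G A R ↔ e ∈ ES G ∧ (∀ v ∈ e, v ∈ A) ∧ e ∉ R := by
  unfold OA
  exact Finset.mem_filter

private theorem mOR' [Finite V] {N : Set V} {R : Set (Sym2 V)} {e : Sym2 V} :
    e ∈ OR G N R ↔ e ∈ ES G ∧ (∀ v ∈ e, v ∉ N) ∧ e ∈ R := by
  unfold OR
  exact Finset.mem_filter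

/-- `top_bound` for one vertex -/
theorem top1 [Finite V] (D : Drawing G) (v : V) (s : V → ℤˣ) :
    2 * (CR2 G : ℝ) ≤
      (∑ g ∈ (ES G).filter (fun e => v ∉ e), ∑ h ∈ (ES G).filter (fun e => v ∉ e),
        (D.x g h : ℝ) * cost s g h) +
      2 * (∑ e ∈ (ES G).filter (fun e => v ∈ e), ∑ g ∈ (ES G).filter (fun e => v ∉ e),
        (D.x e g : ℝ) * (if ∃ y ∈ e, y ∉ ({v} : Set V) ∧ ∀ u ∈ g, s u = s y then 1 else 0)) := by
  have hR : Roads D ({v} : Set V) (∅ : Set (Sym2 V)) (D.pos v) (fun _ => {D.pos v}) := by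
    refine ⟨?_, ?_, ?_⟩
    · intro x hx
      rw [Set.mem_singleton_iff] at hx
      subst hx
      exact Or.inl ⟨rfl, rfl⟩
    · intro x hx w hw
      rw [Set.mem_singleton_iff] at hx hw
      rw [hx]
      exact D.pos_inj hw
    · intro x _ g _ _ _
      exact (Set.finite_singleton _).subset Set.inter_subset_left
  have hOA : OA G ({v} : Set V)ᶜ ∅ = (ES G).filter (fun e => v ∉ e) := by
    ext e
    rw [mOA', Finset.mem_filter]
    constructor
    · rintro ⟨h0, h1, _⟩
      exact ⟨h0, fun h2 => h1 v h2 rfl⟩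
    · rintro ⟨h0, h1⟩
      refine ⟨h0, fun u hu hu' => h1 ?_, Set.notMem_empty e⟩
      rw [Set.mem_singleton_iff] at hu'
      rw [← hu']
      exact hu
  have h := top_bound D hR (R := ∅) ?_ ?_ 0 ?_ s
  · have hEN : EN G {v} = (ES G).filter (fun e => v ∈ e) := by
      unfold EN
      refine Finset.filter_congr fun e _ => ?_
      simp
    have hSP : SP G {v} = ∅ := by
      unfold SP
      rw [Finset.filter_eq_empty_iff]
      rintro ⟨e, f⟩ hef ⟨_, h2⟩
      rw [hEN, Finset.mem_product, Finset.mem_filter, Finset.mem_filter] at hef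
      exact h2 ⟨v, rfl, hef.1.2, hef.2.2⟩
    have hOR : OR G {v} ∅ = ∅ := by
      rw [Finset.eq_empty_iff_forall_notMem]
      intro e he
      rw [mOR'] at he
      exact he.2.2
    rw [hSP, hEN, hOA, hOR] at h
    simpa using h
  · intro w hw hh
    exact hw (by rw [Set.mem_singleton_iff]; exact (D.pos_inj hh).symm)
  · intro g hg h1 _
    exact avoidV D v g hg h1
  · intro x _
    rw [Nat.le_zero, Finset.sum_eq_zero_iff]
    intro g hg
    rw [hOA, Finset.mem_filter] at hg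
    have h1 : ({D.pos v} ∩ D.arc g : Set ℂ) = ∅ := by
      rw [Set.eq_empty_iff_forall_notMem]
      rintro z ⟨hz, hz2⟩
      rw [Set.mem_singleton_iff] at hz
      rw [hz] at hz2
      refine avoidV D v g (mem_ES.1 hg.1) (fun w hw hw' => hg.2 ?_) hz2
      rw [Set.mem_singleton_iff] at hw'
      rw [← hw']
      exact hw
    rw [h1, Set.ncard_empty]

/-- the form for one vertex with balanced signs -/
theorem vertexB [Fintype V] (D : Drawing G) (hD : D.cr = CR G) (v : V) (hn : 5 ≤ Fintype.card V)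
    (k : ℕ) (hk : k = 2 * (Fintype.card V / 2) - 1) :
    (CR2 G : ℝ) ≤ (3 / 8 - 1 / (4 * (k : ℝ)) + 9 / (8 * (k : ℝ) * (k - 2))) *
        (CR G - ∑ e ∈ (ES G).filter (fun e => v ∈ e), (cre D e : ℝ)) +
      (1 / 4 - 3 / (4 * (k : ℝ))) * ∑ e ∈ (ES G).filter (fun e => v ∈ e), (cre D e : ℝ) := by
  obtain ⟨x, hx⟩ : ∃ x : Sym2 V → Sym2 V → ℝ, x = fun e f => (D.x e f : ℝ) := ⟨_, rfl⟩
  obtain ⟨O, hO⟩ : ∃ O, O = (ES G).filter (fun e => v ∉ e) := ⟨_, rfl⟩
  obtain ⟨E, hE⟩ : ∃ E, E = (ES G).filter (fun e => v ∈ e) := ⟨_, rfl⟩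
  have hmeet : ∀ e ∈ ES G, ∀ f ∈ ES G, Meets e f → x e f = 0 := by
    rintro e he f hf ⟨u, hu, hu'⟩
    rw [hx]
    simp only
    rw [opt_x D hD he hf hu hu', Nat.cast_zero]
  have hOE : ∀ g ∈ O, g ∈ ES G ∧ v ∉ g := fun g hg => by rwa [hO, Finset.mem_filter] at hg
  have hEE : ∀ g ∈ E, g ∈ ES G ∧ v ∈ g := fun g hg => by rwa [hE, Finset.mem_filter] at hg
  obtain ⟨s, hs⟩ := bal_avg v O E x (fun e f => by rw [hx]; exact Nat.cast_nonneg _)
    (fun g hg => G.not_isDiag_of_mem_edgeSet (mem_ES.1 (hOE g hg).1))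
    (fun g hg => (hOE g hg).2)
    (fun g hg h hh hm => hmeet g (hOE g hg).1 h (hOE h hh).1 hm)
    (fun e he g hg hm => hmeet e (hEE e he).1 g (hOE g hg).1 hm)
    (fun e he => (hEE e he).2) hn k hk
  have h1 := top1 D v s
  rw [← hO, ← hE] at h1
  rw [hx] at hs
  have h2 : 2 * (CR2 G : ℝ) ≤
      (3 / 8 - 1 / (4 * (k : ℝ)) + 9 / (8 * (k : ℝ) * (k - 2))) *
        (∑ g ∈ O, ∑ h ∈ O, (D.x g h : ℝ)) +
      2 * (1 / 4 - 3 / (4 * (k : ℝ))) * (∑ e ∈ E, ∑ g ∈ O, (D.x e g : ℝ)) := by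
    refine le_trans h1 (le_trans (le_of_eq ?_) hs)
    congr 2
    refine Finset.sum_congr rfl fun e _ => Finset.sum_congr rfl fun g _ => ?_
    split_ifs <;> rfl
  -- the sums over all pairs
  have hsplit : ∀ F : Sym2 V → ℝ, ∑ f ∈ ES G, F f = ∑ f ∈ E, F f + ∑ f ∈ O, F f := by
    intro F
    rw [hE, hO]
    exact (Finset.sum_filter_add_sum_filter_not (ES G) (fun e => v ∈ e) F).symm
  have hEE0 : ∑ e ∈ E, ∑ f ∈ E, (D.x e f : ℝ) = 0 := by
    refine Finset.sum_eq_zero fun e he => Finset.sum_eq_zero fun f hf => ?_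
    rw [opt_x D hD (hEE e he).1 (hEE f hf).1 (hEE e he).2 (hEE f hf).2, Nat.cast_zero]
  have hcre : ∑ e ∈ E, (cre D e : ℝ) = ∑ e ∈ E, ∑ f ∈ O, (D.x e f : ℝ) := by
    have h3 : ∀ e ∈ E, (cre D e : ℝ) = ∑ f ∈ E, (D.x e f : ℝ) + ∑ f ∈ O, (D.x e f : ℝ) := by
      intro e _
      unfold cre
      push_cast
      exact hsplit fun f => (D.x e f : ℝ)
    rw [Finset.sum_congr rfl h3, Finset.sum_add_distrib, hEE0, zero_add]
  have hOE' : ∑ e ∈ O, ∑ f ∈ E, (D.x e f : ℝ) = ∑ e ∈ E, ∑ f ∈ O, (D.x e f : ℝ) := by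
    rw [Finset.sum_comm]
    refine Finset.sum_congr rfl fun e _ => Finset.sum_congr rfl fun f _ => ?_
    rw [D.x_comm]
  have htot : 2 * (CR G : ℝ) = 2 * (∑ e ∈ E, ∑ f ∈ O, (D.x e f : ℝ)) +
      ∑ g ∈ O, ∑ h ∈ O, (D.x g h : ℝ) := by
    have h4 := D.two_mul_cr
    rw [hD] at h4
    have h5 : (2 * (CR G : ℝ)) = ∑ e ∈ ES G, ∑ f ∈ ES G, (D.x e f : ℝ) := by exact_mod_cast h4
    rw [h5, hsplit]
    have h6 : ∀ e, ∑ f ∈ ES G, (D.x e f : ℝ) = ∑ f ∈ E, (D.x e f : ℝ) + ∑ f ∈ O, (D.x e f : ℝ) :=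
      fun e => hsplit fun f => (D.x e f : ℝ)
    simp only [h6]
    rw [Finset.sum_add_distrib, Finset.sum_add_distrib, hEE0, hOE']
    ring
  rw [← hE, hcre]
  have h7 : ∑ g ∈ O, ∑ h ∈ O, (D.x g h : ℝ) =
      2 * (CR G : ℝ) - 2 * (∑ e ∈ E, ∑ f ∈ O, (D.x e f : ℝ)) := by linarith
  rw [h7] at h2
  linarith

/-- the sum over all vertices -/
theorem sum_vertices [Fintype V] (D : Drawing G) :
    ∑ v : V, ∑ e ∈ (ES G).filter (fun e => v ∈ e), (cre D e : ℝ) = 4 * D.cr := by
  have h3 : ∀ v : V, ∑ e ∈ (ES G).filter (fun e => v ∈ e), (cre D e : ℝ) =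
      ∑ e ∈ ES G, if v ∈ e then (cre D e : ℝ) else 0 := by
    intro v
    rw [Finset.sum_filter]
  rw [Finset.sum_congr rfl fun v _ => h3 v, Finset.sum_comm]
  have h4 : ∀ e ∈ ES G, ∑ v : V, (if v ∈ e then (cre D e : ℝ) else 0) = 2 * cre D e := by
    intro e he
    rw [← Finset.sum_filter, Finset.sum_const, nsmul_eq_mul]
    congr 1
    induction e using Sym2.ind with
    | _ x y =>
      rw [mem_ES, SimpleGraph.mem_edgeSet] at he
      have h5 : (Finset.univ.filter fun v => v ∈ s(x, y)) = {x, y} := by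
        ext z
        simp
      rw [h5, Finset.card_pair he.ne]
      norm_num
  rw [Finset.sum_congr rfl h4, ← Finset.mul_sum, sum_cre]
  ring

theorem arith (n k : ℕ) (hn : 5 ≤ n) (hk : k = 2 * (n / 2) - 1) :
    (3 / 8 - 1 / (4 * (k : ℝ)) + 9 / (8 * (k : ℝ) * (k - 2))) * (n - 4) +
      (1 / 4 - 3 / (4 * (k : ℝ))) * 4 ≤ (3 / 8 - 3 / (4 * (n : ℝ))) * n := by
  have hn0 : (0 : ℝ) < n := by
    have : 0 < n := by omega
    exact_mod_cast this
  have h0 : (3 / 8 - 3 / (4 * (n : ℝ))) * n = 3 / 8 * n - 3 / 4 := by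
    field_simp
  rw [h0]
  have hk3 : 3 ≤ k := by omega
  have hk3' : (3 : ℝ) ≤ k := by exact_mod_cast hk3
  have hk0 : (0 : ℝ) < k := by linarith
  have hk2 : (0 : ℝ) < (k : ℝ) - 2 := by linarith
  rcases Nat.even_or_odd n with he | ho
  · have h1 : n = k + 1 := by
      obtain ⟨j, hj⟩ := he
      omega
    have h2 : (n : ℝ) = k + 1 := by
      rw [h1]
      push_cast
      ring
    rw [h2]
    have h3 : (3 / 8 - 1 / (4 * (k : ℝ)) + 9 / (8 * (k : ℝ) * (k - 2))) * (k + 1 - 4) +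
      (1 / 4 - 3 / (4 * (k : ℝ))) * 4 = 3 / 8 * (k + 1) - 3 / 4 -
        (9 / (8 * (k : ℝ) * (k - 2))) * (k - 1) := by
      field_simp
      ring
    rw [h3]
    have h4 : 0 ≤ (9 / (8 * (k : ℝ) * (k - 2))) * (k - 1) := by
      have : (0 : ℝ) ≤ (k : ℝ) - 1 := by linarith
      positivity
    linarith
  · have h1 : n = k + 2 := by
      obtain ⟨j, hj⟩ := ho
      omega
    have h2 : (n : ℝ) = k + 2 := by
      rw [h1]
      push_cast
      ring
    rw [h2]
    have h3 : (3 / 8 - 1 / (4 * (k : ℝ)) + 9 / (8 * (k : ℝ) * (k - 2))) * (k + 2 - 4) +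
      (1 / 4 - 3 / (4 * (k : ℝ))) * 4 = 3 / 8 * (k + 2) - 3 / 4 - 11 / (8 * (k : ℝ)) := by
      field_simp
      ring
    rw [h3]
    have h4 : 0 ≤ 11 / (8 * (k : ℝ)) := by positivity
    linarith

theorem everyB5 [Fintype V] (G : SimpleGraph V) (hn : 5 ≤ Fintype.card V) :
    (CR2 G : ℝ) ≤ (3 / 8 - 3 / (4 * (Fintype.card V : ℝ))) * CR G := by
  obtain ⟨D, hD⟩ := exists_opt G
  obtain ⟨k, hk⟩ : ∃ k, k = 2 * (Fintype.card V / 2) - 1 := ⟨_, rfl⟩
  have h1 : ∑ _v : V, (CR2 G : ℝ) ≤ ∑ v : V,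
      ((3 / 8 - 1 / (4 * (k : ℝ)) + 9 / (8 * (k : ℝ) * (k - 2))) *
        (CR G - ∑ e ∈ (ES G).filter (fun e => v ∈ e), (cre D e : ℝ)) +
      (1 / 4 - 3 / (4 * (k : ℝ))) * ∑ e ∈ (ES G).filter (fun e => v ∈ e), (cre D e : ℝ)) :=
    Finset.sum_le_sum fun v _ => vertexB D hD v hn k hk
  rw [Finset.sum_const, nsmul_eq_mul, Finset.sum_add_distrib, ← Finset.mul_sum, ← Finset.mul_sum,
    Finset.sum_sub_distrib, Finset.sum_const, nsmul_eq_mul, sum_vertices, hD, Finset.card_univ] at h1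
  have hn0 : (0 : ℝ) < Fintype.card V := by
    have : 0 < Fintype.card V := by omega
    exact_mod_cast this
  have h2 := arith (Fintype.card V) k hn hk
  have h3 := mul_le_mul_of_nonneg_right h2 (Nat.cast_nonneg (α := ℝ) (CR G))
  refine le_of_mul_le_mul_left ?_ hn0
  refine h1.trans ?_
  have h4 : (Fintype.card V : ℝ) * ((3 / 8 - 3 / (4 * (Fintype.card V : ℝ))) * CR G) =
      (3 / 8 - 3 / (4 * (Fintype.card V : ℝ))) * Fintype.card V * CR G := by ring
  rw [h4]
  refine le_trans (le_of_eq ?_) h3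
  ring

/-- graphs without two disjoint edges -/
theorem CR_zero [Finite V] (G : SimpleGraph V) (h : ∀ e ∈ G.edgeSet, ∀ f ∈ G.edgeSet, ∃ u ∈ e, u ∈ f) :
    CR G = 0 := by
  obtain ⟨D, hD⟩ := exists_opt G
  have h1 := D.two_mul_cr
  have h2 : ∑ e ∈ ES G, ∑ f ∈ ES G, D.x e f = 0 := by
    refine Finset.sum_eq_zero fun e he => Finset.sum_eq_zero fun f hf => ?_
    obtain ⟨u, hu, hu'⟩ := h e (mem_ES.1 he) f (mem_ES.1 hf)
    exact opt_x D hD he hf hu hu'
  rw [h2, hD] at h1
  omega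

theorem small [Fintype V] (G : SimpleGraph V) (hn : Fintype.card V ≤ 4) : CR2 G = 0 := by
  by_cases hV : Nonempty V
  · obtain ⟨v⟩ := hV
    -- star and rest
    let G₁ : SimpleGraph V :=
      { Adj := fun x y => G.Adj x y ∧ (x = v ∨ y = v)
        symm := ⟨fun x y ⟨h1, h2⟩ => ⟨h1.symm, h2.symm⟩⟩
        loopless := ⟨fun u hu => G.loopless.irrefl u hu.1⟩ }
    let G₂ : SimpleGraph V :=
      { Adj := fun x y => G.Adj x y ∧ x ≠ v ∧ y ≠ v
        symm := ⟨fun x y ⟨h1, h2, h3⟩ => ⟨h1.symm, h3, h2⟩⟩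
        loopless := ⟨fun u hu => G.loopless.irrefl u hu.1⟩ }
    have hd : Disjoint G₁ G₂ := by
      rw [disjoint_iff]
      ext x y
      simp only [SimpleGraph.inf_adj, SimpleGraph.bot_adj, iff_false]
      rintro ⟨⟨_, h1⟩, ⟨_, h2, h3⟩⟩
      rcases h1 with h1 | h1
      · exact h2 h1
      · exact h3 h1
    have hs : G₁ ⊔ G₂ = G := by
      ext x y
      simp only [SimpleGraph.sup_adj]
      constructor
      · rintro (h1 | h1)
        · exact h1.1
        · exact h1.1
      · intro h1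
        by_cases h2 : x = v ∨ y = v
        · exact Or.inl ⟨h1, h2⟩
        · push Not at h2
          exact Or.inr ⟨h1, h2⟩
    have h5 : CR2 G ≤ CR G₁ + CR G₂ := Nat.sInf_le ⟨G₁, G₂, hd, hs, rfl⟩
    have h6 : CR G₁ = 0 := by
      refine CR_zero G₁ fun e he f hf => ?_
      have h7 : ∀ g ∈ G₁.edgeSet, v ∈ g := by
        intro g hg
        induction g using Sym2.ind with
        | _ x y =>
          rcases hg.2 with h8 | h8
          · have h9 : x = v := h8
            rw [h9]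
            simp
          · have h9 : y = v := h8
            rw [h9]
            simp
      exact ⟨v, h7 e he, h7 f hf⟩
    have h7 : CR G₂ = 0 := by
      refine CR_zero G₂ fun e he f hf => ?_
      by_contra hcon
      push Not at hcon
      induction e using Sym2.ind with
      | _ a b =>
        induction f using Sym2.ind with
        | _ c d =>
          obtain ⟨k1, k2, k3⟩ := he
          obtain ⟨k4, k5, k6⟩ := hf
          have e1 : a ≠ v := k2
          have e2 : b ≠ v := k3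
          have e3 : c ≠ v := k5
          have e4 : d ≠ v := k6
          have e5 : G.Adj a b := k1
          have e6 : G.Adj c d := k4
          have e7 : a ≠ c := by
            rintro rfl
            exact hcon a (by simp) (by simp)
          have e8 : a ≠ d := by
            rintro rfl
            exact hcon a (by simp) (by simp)
          have e9 : b ≠ c := by
            rintro rfl
            exact hcon b (by simp) (by simp)
          have e10 : b ≠ d := by
            rintro rfl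
            exact hcon b (by simp) (by simp)
          have h8 : ({v, a, b, c, d} : Finset V).card = 5 := by
            rw [Finset.card_insert_of_notMem, Finset.card_insert_of_notMem,
              Finset.card_insert_of_notMem, Finset.card_insert_of_notMem, Finset.card_singleton]
            · simpa using e6.ne
            · simp [e9, e10]
            · simp [e5.ne, e7, e8]
            · simp [e1.symm, e2.symm, e3.symm, e4.symm]
          have h9 : ({v, a, b, c, d} : Finset V).card ≤ Fintype.card V := Finset.card_le_univ _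
          omega
    omega
  · rw [not_nonempty_iff] at hV
    have h1 : CR2 G ≤ CR G + CR (⊥ : SimpleGraph V) :=
      Nat.sInf_le ⟨G, ⊥, disjoint_bot_right, sup_bot_eq G, rfl⟩
    have h2 : CR G = 0 := CR_zero G fun e he => by
      induction e using Sym2.ind with
      | _ a b => exact (hV.false a).elim
    have h3 : CR (⊥ : SimpleGraph V) = 0 := CR_zero ⊥ fun e he => by
      induction e using Sym2.ind with
      | _ a b => exact (hV.false a).elim
    omega

/-- the form for all graphs -/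
theorem everyB [Finite V] [Nonempty V] (G : SimpleGraph V) :
    (CR2 G : ℝ) ≤ (3 / 8 - 3 / (4 * (Nat.card V : ℝ))) * CR G := by
  have := Fintype.ofFinite V
  rw [Nat.card_eq_fintype_card]
  by_cases hn : 5 ≤ Fintype.card V
  · exact everyB5 G hn
  · rw [small G (by omega), Nat.cast_zero]
    have hpos : 0 < Fintype.card V := Fintype.card_pos
    by_cases h2 : 2 ≤ Fintype.card V
    · refine mul_nonneg ?_ (Nat.cast_nonneg _)
      have h3 : (2 : ℝ) ≤ Fintype.card V := by exact_mod_cast h2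
      rw [sub_nonneg, div_le_div_iff₀ (by linarith) (by norm_num)]
      linarith
    · have h3 : Fintype.card V = 1 := by omega
      have h4 : CR G = 0 := CR_zero G fun e he => by
        induction e using Sym2.ind with
        | _ a b =>
          rw [SimpleGraph.mem_edgeSet] at he
          have h5 := Fintype.card_le_one_iff.1 h3.le a b
          exact absurd h5 he.ne
      rw [h4]
      simp

end H90.BX
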