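import Pool.Agent.H29.BP.OcF

/-!
# [H90 BX Cnt3] homomorphism to an odd cycle: pairs of edges one of which has a deleted end

`first`, `c1`, `c2`, `sp` as in `H29/BP/OcG.lean` (`h : V → ZMod m`, rotation `i`, bits `a`). `y z` is an edge between
vertices which are not deleted, `x` is the other end of an edge at a deleted vertex: `x ∉ {y, z}`. In the
first plane the class of the edge at `v` is `c1 x`, in the second plane the class of the edge at `w` is `c2 x`; the edge `v w`
is in the first plane with class `0`.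

Paper proofs. As in `oca` (`H29/BP/OcA.lean`): the event depends only on `a x`, `a y`, `a z`; `sum_update` three times and a
count over 8 values (`decide`), with `CB_edge` for the parities. Number of good values of the three bits: 2 if neither
`y` nor `z` is special, at most 4 otherwise. In `cnt0` the bits are `a y`, `a z`: 1 of 4, at most 2 of 4 if `y` or `z` is
special.
-/

set_option autoImplicit false

open Set
open scoped Classical

noncomputable section

namespace H90.BX

open H29.BP

variable {V : Type} [Fintype V] {m : ℕ}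

/-- the label `c1` as a function of Booleans -/
def C1B (s b : Bool) : ℕ := if s then 0 else if b then 1 else 0

/-- the label `c2` as a function of Booleans -/
def C2B (s e b : Bool) : ℕ :=
  if s then 0 else if e then (if b then 1 else 0) else (if b then 0 else 1)

/-- the predicate `first` as a function of Booleans -/
def FB (sy sz b c : Bool) : Bool := if sy && sz then b == c else C1B sy b == C1B sz c

/-- the event of `cnt1` as a function of Booleans -/
def E1 (sx sy sz a b c : Bool) : Bool :=
  FB sy sz b c && (C1B sx a == C1B sy b || C1B sx a == C1B sz c)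

/-- the event of `cnt2` as a function of Booleans -/
def E2 (sx sy sz ex ey ez a b c : Bool) : Bool :=
  !FB sy sz b c && (C2B sx ex a == C2B sy ey b || C2B sx ex a == C2B sz ez c)

/-- the event of `cnt0` as a function of Booleans -/
def E0 (sy sz b c : Bool) : Bool := FB sy sz b c && (C1B sy b == 0 || C1B sz c == 0)

theorem E1_le : ∀ sx sy sz : Bool,
    (∑ a : Bool, ∑ b : Bool, ∑ c : Bool, if E1 sx sy sz a b c = true then 1 else 0) ≤
      2 + if sy || sz then 2 else 0 := by
  decide +kernel

theorem E2_le : ∀ sx sy sz ex ey ez : Bool, CB sy sz ey ez = true →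
    (∑ a : Bool, ∑ b : Bool, ∑ c : Bool, if E2 sx sy sz ex ey ez a b c = true then 1 else 0) ≤
      2 + if sy || sz then 2 else 0 := by
  decide +kernel

theorem E0_le : ∀ sy sz : Bool,
    (∑ b : Bool, ∑ c : Bool, if E0 sy sz b c = true then 1 else 0) ≤
      1 + if sy || sz then 1 else 0 := by
  decide +kernel

theorem c1_eq_C1B {V : Type} (h : V → ZMod m) (i : ZMod m) (a : V → Bool) (v : V) :
    c1 h i a v = C1B (decide (sp h i v)) (a v) := by
  unfold c1 C1B
  by_cases hx : sp h i v <;> simp [hx]

theorem c2_eq_C2B {V : Type} (h : V → ZMod m) (i : ZMod m) (a : V → Bool) (v : V) :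
    c2 h i a v = C2B (decide (sp h i v)) (decide (Even (ps h i v))) (a v) := by
  unfold c2 C2B
  by_cases hx : sp h i v <;> by_cases he : Even (ps h i v) <;> simp [hx, he]

theorem first_iff_FB {V : Type} (h : V → ZMod m) (i : ZMod m) (a : V → Bool) (y z : V) :
    first h i a y z ↔ FB (decide (sp h i y)) (decide (sp h i z)) (a y) (a z) = true := by
  unfold first FB
  rw [c1_eq_C1B, c1_eq_C1B]
  by_cases hy : sp h i y <;> by_cases hz : sp h i z <;> simp [hy, hz]

/-- three bits -/
theorem avg3 {V : Type} [Fintype V] (x y z : V) (hxy : x ≠ y) (hxz : x ≠ z) (hyz : y ≠ z)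
    (F : Bool → Bool → Bool → Bool) :
    8 * ∑ a : V → Bool, (if F (a x) (a y) (a z) = true then (1 : ℝ) else 0) =
      (Fintype.card (V → Bool) : ℝ) *
        ((∑ b : Bool, ∑ c : Bool, ∑ d : Bool, if F b c d = true then 1 else 0 : ℕ) : ℝ) := by
  set g : (V → Bool) → ℝ := fun a => if F (a x) (a y) (a z) = true then (1 : ℝ) else 0 with hg
  set g3 : (V → Bool) → ℝ := fun a => ∑ b : Bool, g (Function.update a z b) with hg3
  set g2 : (V → Bool) → ℝ := fun a => ∑ b : Bool, g3 (Function.update a y b) with hg2
  have e3 : ∑ a : V → Bool, g3 a = 2 * ∑ a : V → Bool, g a := sum_update z g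
  have e2 : ∑ a : V → Bool, g2 a = 2 * ∑ a : V → Bool, g3 a := sum_update y g3
  have e1 : ∑ a : V → Bool, ∑ b : Bool, g2 (Function.update a x b) =
      2 * ∑ a : V → Bool, g2 a := sum_update x g2
  have hval : ∀ a : V → Bool, ∑ b : Bool, g2 (Function.update a x b) =
      ((∑ b : Bool, ∑ c : Bool, ∑ d : Bool, if F b c d = true then 1 else 0 : ℕ) : ℝ) := by
    intro a
    push_cast
    refine Finset.sum_congr rfl fun b1 _ => ?_
    rw [hg2]
    refine Finset.sum_congr rfl fun b2 _ => ?_
    rw [hg3]
    refine Finset.sum_congr rfl fun b3 _ => ?_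
    rw [hg]
    simp only
    have v1 : Function.update (Function.update (Function.update a x b1) y b2) z b3 x = b1 := by
      rw [Function.update_of_ne hxz, Function.update_of_ne hxy, Function.update_self]
    have v2 : Function.update (Function.update (Function.update a x b1) y b2) z b3 y = b2 := by
      rw [Function.update_of_ne hyz, Function.update_self]
    have v3 : Function.update (Function.update (Function.update a x b1) y b2) z b3 z = b3 := by
      rw [Function.update_self]
    rw [v1, v2, v3]
  rw [Finset.sum_congr rfl fun a _ => hval a, Finset.sum_const, nsmul_eq_mul,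
    Finset.card_univ] at e1
  linarith

/-- two bits -/
theorem avg2 {V : Type} [Fintype V] (y z : V) (hyz : y ≠ z) (F : Bool → Bool → Bool) :
    4 * ∑ a : V → Bool, (if F (a y) (a z) = true then (1 : ℝ) else 0) =
      (Fintype.card (V → Bool) : ℝ) *
        ((∑ c : Bool, ∑ d : Bool, if F c d = true then 1 else 0 : ℕ) : ℝ) := by
  set g : (V → Bool) → ℝ := fun a => if F (a y) (a z) = true then (1 : ℝ) else 0 with hg
  set g3 : (V → Bool) → ℝ := fun a => ∑ b : Bool, g (Function.update a z b) with hg3
  have e2 : ∑ a : V → Bool, g3 a = 2 * ∑ a : V → Bool, g a := sum_update z g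
  have e1 : ∑ a : V → Bool, ∑ b : Bool, g3 (Function.update a y b) =
      2 * ∑ a : V → Bool, g3 a := sum_update y g3
  have hval : ∀ a : V → Bool, ∑ b : Bool, g3 (Function.update a y b) =
      ((∑ c : Bool, ∑ d : Bool, if F c d = true then 1 else 0 : ℕ) : ℝ) := by
    intro a
    push_cast
    refine Finset.sum_congr rfl fun b2 _ => ?_
    rw [hg3]
    refine Finset.sum_congr rfl fun b3 _ => ?_
    rw [hg]
    simp only
    have v2 : Function.update (Function.update a y b2) z b3 y = b2 := by
      rw [Function.update_of_ne hyz, Function.update_self]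
    have v3 : Function.update (Function.update a y b2) z b3 z = b3 := by
      rw [Function.update_self]
    rw [v2, v3]
  rw [Finset.sum_congr rfl fun a _ => hval a, Finset.sum_const, nsmul_eq_mul,
    Finset.card_univ] at e1
  linarith

/-- from the count to the bound (three bits) -/
theorem fin3 (h : V → ZMod m) (i : ZMod m) (x y z : V) (hne : y ≠ z) (hxy : x ≠ y) (hxz : x ≠ z)
    (F : Bool → Bool → Bool → Bool)
    (hF : (∑ b : Bool, ∑ c : Bool, ∑ d : Bool, if F b c d = true then 1 else 0) ≤
      2 + if (decide (sp h i y)) || (decide (sp h i z)) then 2 else 0) :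
    ∑ a : V → Bool, (if F (a x) (a y) (a z) = true then (1 : ℝ) else 0) ≤
      (1 / 4 + if sp h i y ∨ sp h i z then 1 / 4 else 0) * Fintype.card (V → Bool) := by
  have h1 := avg3 x y z hxy hxz hne F
  have hN : (0 : ℝ) ≤ (Fintype.card (V → Bool) : ℝ) := Nat.cast_nonneg _
  by_cases hc : sp h i y ∨ sp h i z
  · have hc' : ((decide (sp h i y)) || (decide (sp h i z))) = true := by simpa using hc
    rw [if_pos hc]
    rw [if_pos hc'] at hF
    have h8 : ((∑ b : Bool, ∑ c : Bool, ∑ d : Bool, if F b c d = true then 1 else 0 : ℕ) : ℝ) ≤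
        4 := by exact_mod_cast hF
    nlinarith [mul_le_mul_of_nonneg_left h8 hN]
  · have hc' : ¬ ((decide (sp h i y)) || (decide (sp h i z))) = true := by simpa using hc
    rw [if_neg hc]
    rw [if_neg hc'] at hF
    have h8 : ((∑ b : Bool, ∑ c : Bool, ∑ d : Bool, if F b c d = true then 1 else 0 : ℕ) : ℝ) ≤
        2 := by exact_mod_cast hF
    nlinarith [mul_le_mul_of_nonneg_left h8 hN]

theorem cnt1 (hm : Odd m) (hm3 : 3 ≤ m) (h : V → ZMod m) (i : ZMod m) (x y z : V)
    (hyz : h z = h y + 1 ∨ h y = h z + 1) (hne : y ≠ z) (hxy : x ≠ y) (hxz : x ≠ z) :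
    ∑ a : V → Bool, (if first h i a y z ∧ (c1 h i a x = c1 h i a y ∨ c1 h i a x = c1 h i a z)
      then (1 : ℝ) else 0) ≤
      (1 / 4 + if sp h i y ∨ sp h i z then 1 / 4 else 0) * Fintype.card (V → Bool) := by
  refine le_of_eq_of_le (Finset.sum_congr rfl fun a _ => ?_)
    (fin3 h i x y z hne hxy hxz
      (E1 (decide (sp h i x)) (decide (sp h i y)) (decide (sp h i z))) (E1_le _ _ _))
  refine if_congr ?_ rfl rfl
  rw [first_iff_FB, c1_eq_C1B, c1_eq_C1B, c1_eq_C1B, E1]
  simp only [Bool.and_eq_true, Bool.or_eq_true, beq_iff_eq]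

theorem cnt2 (hm : Odd m) (hm3 : 3 ≤ m) (h : V → ZMod m) (i : ZMod m) (x y z : V)
    (hyz : h z = h y + 1 ∨ h y = h z + 1) (hne : y ≠ z) (hxy : x ≠ y) (hxz : x ≠ z) :
    ∑ a : V → Bool, (if ¬ first h i a y z ∧ (c2 h i a x = c2 h i a y ∨ c2 h i a x = c2 h i a z)
      then (1 : ℝ) else 0) ≤
      (1 / 4 + if sp h i y ∨ sp h i z then 1 / 4 else 0) * Fintype.card (V → Bool) := by
  refine le_of_eq_of_le (Finset.sum_congr rfl fun a _ => ?_)
    (fin3 h i x y z hne hxy hxz
      (E2 (decide (sp h i x)) (decide (sp h i y)) (decide (sp h i z))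
        (decide (Even (ps h i x))) (decide (Even (ps h i y))) (decide (Even (ps h i z))))
      (E2_le _ _ _ _ _ _ (CB_edge hm hm3 h i hyz)))
  refine if_congr ?_ rfl rfl
  rw [first_iff_FB, c2_eq_C2B, c2_eq_C2B, c2_eq_C2B, E2]
  simp only [Bool.and_eq_true, Bool.or_eq_true, beq_iff_eq, Bool.not_eq_true,
    Bool.not_eq_eq_eq_not, Bool.not_true]

theorem cnt0 (hm : Odd m) (hm3 : 3 ≤ m) (h : V → ZMod m) (i : ZMod m) (y z : V)
    (hyz : h z = h y + 1 ∨ h y = h z + 1) (hne : y ≠ z) :
    ∑ a : V → Bool, (if first h i a y z ∧ (c1 h i a y = 0 ∨ c1 h i a z = 0)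
      then (1 : ℝ) else 0) ≤
      (1 / 4 + if sp h i y ∨ sp h i z then 1 / 4 else 0) * Fintype.card (V → Bool) := by
  have h0 : ∑ a : V → Bool, (if first h i a y z ∧ (c1 h i a y = 0 ∨ c1 h i a z = 0)
      then (1 : ℝ) else 0) = ∑ a : V → Bool, (if E0 (decide (sp h i y)) (decide (sp h i z))
        (a y) (a z) = true then (1 : ℝ) else 0) := by
    refine Finset.sum_congr rfl fun a _ => if_congr ?_ rfl rfl
    rw [first_iff_FB, c1_eq_C1B, c1_eq_C1B, E0]
    simp only [Bool.and_eq_true, Bool.or_eq_true, beq_iff_eq]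
  rw [h0]
  have h1 := avg2 y z hne (E0 (decide (sp h i y)) (decide (sp h i z)))
  have hF := E0_le (decide (sp h i y)) (decide (sp h i z))
  have hN : (0 : ℝ) ≤ (Fintype.card (V → Bool) : ℝ) := Nat.cast_nonneg _
  by_cases hc : sp h i y ∨ sp h i z
  · have hc' : ((decide (sp h i y)) || (decide (sp h i z))) = true := by simpa using hc
    rw [if_pos hc]
    rw [if_pos hc'] at hF
    have h8 : ((∑ c : Bool, ∑ d : Bool, if E0 (decide (sp h i y)) (decide (sp h i z)) c d = true
        then 1 else 0 : ℕ) : ℝ) ≤ 2 := by exact_mod_cast hF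
    nlinarith [mul_le_mul_of_nonneg_left h8 hN]
  · have hc' : ¬ ((decide (sp h i y)) || (decide (sp h i z))) = true := by simpa using hc
    rw [if_neg hc]
    rw [if_neg hc'] at hF
    have h8 : ((∑ c : Bool, ∑ d : Bool, if E0 (decide (sp h i y)) (decide (sp h i z)) c d = true
        then 1 else 0 : ℕ) : ℝ) ≤ 1 := by exact_mod_cast hF
    nlinarith [mul_le_mul_of_nonneg_left h8 hN]

end H90.BX
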