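import Pool.Agent.H90.BX.LinSel

/-!
# [H90 BX CROSSED] the gain from the vertices on crossed edges, final forms
-/

set_option autoImplicit false

open Set
open scoped Classical

noncomputable section

namespace H90.BX

open H29.BP H29.BT

/-- the vertices on crossed edges -/
def crossedVertices {V : Type} {G : SimpleGraph V} (D : Drawing G) : Set V :=
  {v | ∃ e ∈ G.edgeSet, v ∈ e ∧ ∃ p ∈ D.crossings, p ∈ D.arc e}

theorem crossed_le {V : Type} [Fintype V] {G : SimpleGraph V} (D : Drawing G) :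
    (crossedVertices D).ncard ≤ (WW D).card := by
  rw [← Set.ncard_coe_finset]
  refine Set.ncard_le_ncard ?_ (Set.toFinite _)
  rintro v ⟨e, he, hve, p, ⟨e₀, he₀, f₀, hf₀, hef, hp⟩, hpe⟩
  have h2 : e = e₀ ∨ e = f₀ := by
    by_contra hne
    push Not at hne
    exact hp.2 (D.no_triple e₀ he₀ f₀ hf₀ e he hef hne.1.symm hne.2.symm p hp.1 hpe)
  have hx : ∀ g ∈ G.edgeSet, ∀ h ∈ G.edgeSet, g ≠ h → p ∈ D.X g h → D.x g h ≠ 0 := by
    intro g hg h hh hgh hpX
    unfold Drawing.x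
    rw [if_neg hgh]
    exact (Set.ncard_pos (D.X_finite hg hh hgh)).2 ⟨p, hpX⟩ |>.ne'
  rw [Finset.mem_coe]
  refine Finset.mem_filter.2 ⟨Finset.mem_univ _, ?_⟩
  rcases h2 with rfl | rfl
  · exact ⟨(e, f₀), (mem_pairsAt D v).2 ⟨⟨mem_ES.2 he, mem_ES.2 hf₀⟩, hve,
      hx e he f₀ hf₀ hef hp⟩⟩
  · refine ⟨(e, e₀), (mem_pairsAt D v).2 ⟨⟨mem_ES.2 he, mem_ES.2 he₀⟩, hve,
      hx e he e₀ he₀ (Ne.symm hef) ?_⟩⟩
    rw [D.X_comm]
    exact hp

theorem crossed_linear {V : Type} [Finite V] {G : SimpleGraph V} (D : Drawing G)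
    (hD : D.cr = CR G) :
    8 * (CR2 G : ℝ) + (crossedVertices D).ncard / 28 ≤ 3 * CR G := by
  cases nonempty_fintype V
  have h1 := linear D hD
  have h2 : ((crossedVertices D).ncard : ℝ) ≤ (WW D).card := by exact_mod_cast crossed_le D
  linarith

theorem crossed_square {V : Type} [Finite V] {G : SimpleGraph V} (D : Drawing G)
    (hD : D.cr = CR G) :
    8 * (CR2 G : ℝ) + 3 * ((crossedVertices D).ncard : ℝ) ^ 2 / (16 * CR G) ≤ 3 * CR G := by
  cases nonempty_fintype V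
  have h1 := vertices D hD
  have h2 : ((crossedVertices D).ncard : ℝ) ≤ (WW D).card := by exact_mod_cast crossed_le D
  have h3 : ((crossedVertices D).ncard : ℝ) ^ 2 ≤ ((WW D).card : ℝ) ^ 2 :=
    pow_le_pow_left₀ (Nat.cast_nonneg _) h2 2
  rcases Nat.eq_zero_or_pos (CR G) with h0 | h0
  · rw [h0] at h1 ⊢
    push_cast at h1 ⊢
    simp only [mul_zero, div_zero, add_zero] at h1 ⊢
    linarith
  have hCR : (0 : ℝ) < CR G := by exact_mod_cast h0
  have h4 : 3 * ((crossedVertices D).ncard : ℝ) ^ 2 / (16 * CR G) ≤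
      3 * ((WW D).card : ℝ) ^ 2 / (16 * CR G) := by
    gcongr
  have h5 : (3 / 8 - 3 * ((WW D).card : ℝ) ^ 2 / (128 * (CR G : ℝ) ^ 2)) * CR G =
      3 / 8 * CR G - 1 / 8 * (3 * ((WW D).card : ℝ) ^ 2 / (16 * CR G)) := by
    field_simp
    ring
  rw [h5] at h1
  linarith

end H90.BX
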