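import Pool.Agent.H90.BX.Every
import Pool.Agent.H29.BP.Comb

/-!
# [H90 BX ROOT] every graph: a gain of the order of the square root of the crossing number

`c` = the largest number of crossings on the edges at one vertex of an optimal drawing. `baby`: `8 CR_2 + c ≤ 3 CR`.
`greedy`: there are crossing pairs `P` without common vertices with `CR ≤ 4 c ∑_P x` (a pair has at most `4 c` pairs with a common
vertex); `caseA` (the product of the signs over the four vertices of every pair of `P` is odd, all pairs oriented and counted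
twice): `8 CR_2 ≤ 3 CR - 3 CR / (4 c)`. Together `3 CR - 8 CR_2 ≥ max (c, 3 CR / (4 c)) ≥ (3 CR)^(1/2) / 2`.
-/

set_option autoImplicit false

open Set
open scoped Classical

noncomputable section

namespace H90.BX

open H29.BP H29.BT

variable {V : Type}

/-- oriented pairs, counted twice -/
private theorem orient {ι : Type} (E : Finset ι) (o : ι → ℕ) (ho : Function.Injective o)
    (F : ι → ι → ℝ) (hs : ∀ e f, F e f = F f e) (hd : ∀ e, F e e = 0) :
    ∑ e ∈ E, ∑ f ∈ E, (if o e < o f then 2 * F e f else 0) = ∑ e ∈ E, ∑ f ∈ E, F e f := by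
  have h1 : ∑ e ∈ E, ∑ f ∈ E, (if o e < o f then 2 * F e f else 0) =
      ∑ e ∈ E, ∑ f ∈ E, (if o f < o e then 2 * F e f else 0) := by
    rw [Finset.sum_comm]
    refine Finset.sum_congr rfl fun e _ => Finset.sum_congr rfl fun f _ => ?_
    rw [hs]
  have h2 : ∑ e ∈ E, ∑ f ∈ E, (if o e < o f then 2 * F e f else 0) +
      ∑ e ∈ E, ∑ f ∈ E, (if o f < o e then 2 * F e f else 0) =
      2 * ∑ e ∈ E, ∑ f ∈ E, F e f := by
    rw [← Finset.sum_add_distrib, Finset.mul_sum]
    refine Finset.sum_congr rfl fun e _ => ?_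
    rw [← Finset.sum_add_distrib, Finset.mul_sum]
    refine Finset.sum_congr rfl fun f _ => ?_
    rcases lt_trichotomy (o e) (o f) with h | h | h
    · rw [if_pos h, if_neg (by omega)]
      ring
    · have hef : e = f := ho h
      rw [hef, hd]
      simp
    · rw [if_neg (by omega), if_pos h]
      ring
  linarith

private theorem cost_comm (s : V → ℤˣ) (e f : Sym2 V) : cost s e f = cost s f e := by
  unfold cost
  ring

/-- the ordered crossing pairs whose first edge contains `v` -/
private theorem cnt_v [Finite V] {G : SimpleGraph V} (D : Drawing G) (v : V) :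
    ((ES G ×ˢ ES G).filter fun p => v ∈ p.1 ∧ D.x p.1 p.2 ≠ 0).card ≤
      ∑ e ∈ (ES G).filter (fun e => v ∈ e), cre D e := by
  rw [Finset.card_filter, Finset.sum_product, Finset.sum_filter]
  refine Finset.sum_le_sum fun e _ => ?_
  by_cases hv : v ∈ e
  · rw [if_pos hv]
    unfold cre
    refine Finset.sum_le_sum fun f _ => ?_
    by_cases hx : D.x e f ≠ 0
    · rw [if_pos ⟨hv, hx⟩]
      omega
    · rw [if_neg (fun h => hx h.2)]
      exact Nat.zero_le _
  · rw [if_neg hv]
    refine le_of_eq (Finset.sum_eq_zero fun f _ => ?_)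
    rw [if_neg (fun h => hv h.1)]

/-- the oriented crossing pairs which contain `v` -/
private theorem cnt_T [Finite V] {G : SimpleGraph V} (D : Drawing G) (o : Sym2 V → ℕ) (v : V) :
    ((ES G ×ˢ ES G).filter fun p => (o p.1 < o p.2 ∧ D.x p.1 p.2 ≠ 0) ∧ (v ∈ p.1 ∨ v ∈ p.2)).card ≤
      ∑ e ∈ (ES G).filter (fun e => v ∈ e), cre D e := by
  refine le_trans ?_ (cnt_v D v)
  refine Finset.card_le_card_of_injOn (fun p => if v ∈ p.1 then p else p.swap) ?_ ?_
  · rintro ⟨e, f⟩ hp
    rw [Finset.mem_coe, Finset.mem_filter, Finset.mem_product] at hp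
    rw [Finset.mem_coe, Finset.mem_filter, Finset.mem_product]
    obtain ⟨⟨he, hf⟩, ⟨-, hx⟩, hv⟩ := hp
    by_cases hve : v ∈ e
    · simp only [hve, if_true]
      exact ⟨⟨he, hf⟩, trivial, hx⟩
    · have hvf : v ∈ f := hv.resolve_left hve
      simp only [hve, if_false, Prod.swap]
      refine ⟨⟨hf, he⟩, hvf, ?_⟩
      rw [D.x_comm]
      exact hx
  · rintro ⟨e, f⟩ hp ⟨e', f'⟩ hp' h
    rw [Finset.mem_coe, Finset.mem_filter, Finset.mem_product] at hp hp'
    obtain ⟨-, ⟨ho, -⟩, -⟩ := hp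
    obtain ⟨-, ⟨ho', -⟩, -⟩ := hp'
    simp only at ho ho' h
    by_cases h1 : v ∈ e
    · by_cases h2 : v ∈ e'
      · simpa [h1, h2] using h
      · simp only [h1, h2, if_true, if_false, Prod.swap, Prod.mk.injEq] at h
        rw [h.1, h.2] at ho
        omega
    · by_cases h2 : v ∈ e'
      · simp only [h1, h2, if_true, if_false, Prod.swap, Prod.mk.injEq] at h
        rw [← h.1, ← h.2] at ho'
        omega
      · simp only [h1, h2, if_false, Prod.swap, Prod.mk.injEq] at h
        rw [h.1, h.2]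

/-- many vertex-disjoint crossing pairs -/
private theorem second [Finite V] {G : SimpleGraph V} (D : Drawing G) (hD : D.cr = CR G) (c : ℕ)
    (hc : ∀ v, ∑ e ∈ (ES G).filter (fun e => v ∈ e), cre D e ≤ c) :
    3 * (CR G : ℝ) ≤ 4 * c * (3 * CR G - 8 * CR2 G) := by
  cases nonempty_fintype V
  set o : Sym2 V → ℕ := fun e => (Fintype.equivFin (Sym2 V) e : ℕ) with ho
  have hoi : Function.Injective o := fun e f h =>
    (Fintype.equivFin (Sym2 V)).injective (Fin.ext h)
  set x' : Sym2 V → Sym2 V → ℝ := fun e f => if o e < o f then 2 * (D.x e f : ℝ) else 0 with hx'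
  have hxx : ∀ e : Sym2 V, D.x e e = 0 := fun e => if_pos rfl
  have e1 : ∑ e ∈ ES G, ∑ f ∈ ES G, x' e f = 2 * CR G := by
    rw [hx', orient (ES G) o hoi (fun e f => (D.x e f : ℝ)) (fun e f => by rw [D.x_comm])
      (fun e => by rw [hxx, Nat.cast_zero]), ← hD]
    exact_mod_cast D.two_mul_cr.symm
  have e2 : ∀ s : V → ℤˣ, ∑ e ∈ ES G, ∑ f ∈ ES G, x' e f * cost s e f =
      ∑ e ∈ ES G, ∑ f ∈ ES G, (D.x e f : ℝ) * cost s e f := by
    intro s
    rw [← orient (ES G) o hoi (fun e f => (D.x e f : ℝ) * cost s e f)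
      (fun e f => by rw [D.x_comm, cost_comm]) (fun e => by rw [hxx, Nat.cast_zero, zero_mul])]
    refine Finset.sum_congr rfl fun e _ => Finset.sum_congr rfl fun f _ => ?_
    simp only [hx']
    split_ifs
    · ring
    · ring
  have hx0 : ∀ e f, 0 ≤ x' e f := by
    intro e f
    simp only [hx']
    split_ifs
    · positivity
    · exact le_rfl
  have hxd : ∀ e ∈ ES G, ∀ f ∈ ES G, Meets e f → x' e f = 0 := by
    rintro e he f hf ⟨u, hue, huf⟩
    simp only [hx']
    rw [opt_x D hD he hf hue huf, Nat.cast_zero, mul_zero, ite_self]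
  set I : Finset (Sym2 V × Sym2 V) :=
    (ES G ×ˢ ES G).filter fun p => o p.1 < o p.2 ∧ D.x p.1 p.2 ≠ 0 with hI
  obtain ⟨P, hPI, hPP, hPw⟩ := greedy I (fun p => x' p.1 p.2) (fun p _ => hx0 _ _)
    (fun p p' => ¬ Disjoint (vs p.1 ∪ vs p.2) (vs p'.1 ∪ vs p'.2))
    (fun p p' h h' => h h'.symm) (4 * c) (by
      intro p hp
      have hbu : ((vs p.1 ∪ vs p.2).biUnion fun v => (ES G ×ˢ ES G).filter fun p =>
          (o p.1 < o p.2 ∧ D.x p.1 p.2 ≠ 0) ∧ (v ∈ p.1 ∨ v ∈ p.2)).card ≤ 4 * c := by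
        refine ((Finset.card_biUnion_le_card_mul _ _ c
          fun v _ => (cnt_T D o v).trans (hc v)).trans ?_)
        refine Nat.mul_le_mul_right _ ?_
        have h3 := Finset.card_union_le (vs p.1) (vs p.2)
        have h4 : (vs p.1).card ≤ 2 := card_filter_mem_le p.1
        have h5 : (vs p.2).card ≤ 2 := card_filter_mem_le p.2
        omega
      refine (Finset.card_le_card ?_).trans hbu
      · intro p' hp'
        simp only [Finset.mem_filter] at hp'
        obtain ⟨hp'I, hor⟩ := hp'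
        have hp'I' := hp'I
        rw [hI, Finset.mem_filter] at hp'I'
        rw [Finset.mem_biUnion]
        have h2 : ∃ v ∈ vs p.1 ∪ vs p.2, v ∈ vs p'.1 ∪ vs p'.2 := by
          rcases hor with h | h
          · have h3 : (vs p.1).Nonempty := by
              obtain ⟨e, f⟩ := p
              induction e using Sym2.ind with
              | _ a b => exact ⟨a, Finset.mem_filter.2 ⟨Finset.mem_univ _, by simp⟩⟩
            obtain ⟨v, hv⟩ := h3
            rw [h]
            exact ⟨v, Finset.mem_union_left _ hv, Finset.mem_union_left _ hv⟩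
          · rw [Finset.not_disjoint_iff] at h
            exact h
        obtain ⟨v, hv, hv'⟩ := h2
        refine ⟨v, hv, Finset.mem_filter.2 ⟨hp'I'.1, hp'I'.2, ?_⟩⟩
        rcases Finset.mem_union.1 hv' with h | h
        · exact Or.inl (Finset.mem_filter.1 h).2
        · exact Or.inr (Finset.mem_filter.1 h).2)
  have e3 : ∑ p ∈ I, x' p.1 p.2 = 2 * CR G := by
    rw [← e1, ← Finset.sum_product' (ES G) (ES G) x']
    refine Finset.sum_subset (Finset.filter_subset _ _) fun p hp hpI => ?_
    by_contra hne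
    apply hpI
    rw [hI, Finset.mem_filter]
    refine ⟨hp, ?_, ?_⟩
    · by_contra h
      apply hne
      simp only [hx']
      rw [if_neg h]
    · intro h
      apply hne
      simp only [hx']
      rw [h, Nat.cast_zero, mul_zero, ite_self]
  rw [e3] at hPw
  obtain ⟨s, hs⟩ := caseA (ES G) x' (fun e he => G.not_isDiag_of_mem_edgeSet (mem_ES.1 he)) hx0 hxd P
    (fun p hp => (Finset.mem_filter.1 (hPI hp)).1)
    (by
      rintro p hp ⟨u, hu1, hu2⟩
      have h1 := Finset.mem_filter.1 (hPI hp)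
      have h2 := Finset.mem_product.1 h1.1
      exact h1.2.2 (opt_x D hD h2.1 h2.2 hu1 hu2))
    (fun p hp p' hp' hne => not_not.1 (hPP p hp p' hp' hne))
  have h1 := CR2_le_cost D s
  rw [← e2 s] at h1
  rw [e1] at hs
  have h2 : 3 / 8 * ∑ p ∈ P, x' p.1 p.2 ≤ 3 / 4 * (CR G : ℝ) - 2 * CR2 G := by linarith
  have hc0 : (0 : ℝ) ≤ c := Nat.cast_nonneg _
  push_cast at hPw
  have h3 := mul_le_mul_of_nonneg_left h2 (by positivity : (0 : ℝ) ≤ 16 * c)
  have h4 : 16 * (c : ℝ) * (3 / 8 * ∑ p ∈ P, x' p.1 p.2) =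
      3 / 2 * (4 * c * ∑ p ∈ P, x' p.1 p.2) := by ring
  have h5 : 16 * (c : ℝ) * (3 / 4 * (CR G : ℝ) - 2 * CR2 G) =
      4 * c * (3 * CR G - 8 * CR2 G) := by ring
  rw [h4, h5] at h3
  linarith

/-- every graph gains at least the square root of `3 CR / 4` over the bound `3/8` -/
theorem root_gain [Finite V] (G : SimpleGraph V) :
    8 * (CR2 G : ℝ) + √(3 * CR G) / 2 ≤ 3 * CR G := by
  cases nonempty_fintype V
  obtain ⟨D, hD⟩ := exists_opt G
  obtain ⟨c, hc, hcb⟩ : ∃ c : ℕ, (∀ v, ∑ e ∈ (ES G).filter (fun e => v ∈ e), cre D e ≤ c) ∧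
      8 * (CR2 G : ℝ) + c ≤ 3 * CR G := by
    rcases isEmpty_or_nonempty V with hV | hV
    · refine ⟨0, fun v => (IsEmpty.false v).elim, ?_⟩
      have h1 := CR2_le_cost D (fun _ => 1)
      have h2 : ES G = ∅ := by
        rw [Finset.eq_empty_iff_forall_notMem]
        intro e
        induction e using Sym2.ind with
        | _ a b => exact (IsEmpty.false a).elim
      rw [h2, Finset.sum_empty] at h1
      have h3 : (0 : ℝ) ≤ CR G := Nat.cast_nonneg _
      push_cast
      linarith
    · obtain ⟨v, -, hv⟩ := Finset.exists_max_image (Finset.univ : Finset V)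
        (fun v => ∑ e ∈ (ES G).filter (fun e => v ∈ e), cre D e) Finset.univ_nonempty
      refine ⟨_, fun w => hv w (Finset.mem_univ w), ?_⟩
      have h1 := baby D hD v
      push_cast
      linarith
  have h1 := second D hD c hc
  have hCR : (0 : ℝ) ≤ CR G := Nat.cast_nonneg _
  have hc0 : (0 : ℝ) ≤ c := Nat.cast_nonneg _
  obtain ⟨g, hg⟩ : ∃ g : ℝ, g = 3 * CR G - 8 * CR2 G := ⟨_, rfl⟩
  rw [← hg] at h1
  have hgc : (c : ℝ) ≤ g := by rw [hg]; linarith
  have hg0 : 0 ≤ g := hc0.trans hgc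
  have h2 : 3 * (CR G : ℝ) ≤ (2 * g) ^ 2 := by nlinarith
  have h3 : √(3 * CR G) ≤ 2 * g := by
    rw [Real.sqrt_le_left (by linarith)]
    exact h2
  linarith

end H90.BX
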