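import Pool.Agent.H90.BX.PrivFin

/-!
# [H90 BX LINB] the choice of the triples

`Qs` is a set of `4`-sets. For the vertices `z` of `W` a set `q` of `Qs` with `z ∈ q`, `T z = q - z`, is chosen one after the other,
with at most `7` conflicts with earlier vertices: every possible conflict excludes one set only, and there are at most
`(3 + 3 + 1) D` of them for a vertex in `D` sets. With the three conflicts of `z` with the elements of `T z` the graph of the
conflicts has at most `10 |W|` edges, so there is a set `Z` of at least `|W| / 21` vertices without conflicts.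
-/

set_option autoImplicit false

open Set
open scoped Classical

noncomputable section

namespace H90.BX

variable {V : Type}

/-- indicator function modulo two -/
def io (S : Finset V) : V → ZMod 2 := fun x => if x ∈ S then 1 else 0

theorem io_inj {S S' : Finset V} (h : io S = io S') : S = S' := by
  ext x
  have h1 := congrFun h x
  unfold io at h1
  by_cases h2 : x ∈ S <;> by_cases h3 : x ∈ S' <;> simp_all

theorem io_symmDiff (S S' : Finset V) : io (symmDiff S S') = io S + io S' := by
  funext x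
  show (if x ∈ symmDiff S S' then (1 : ZMod 2) else 0) =
    (if x ∈ S then 1 else 0) + if x ∈ S' then 1 else 0
  have h1 : x ∈ symmDiff S S' ↔ (x ∈ S ∧ x ∉ S' ∨ x ∈ S' ∧ x ∉ S) := Finset.mem_symmDiff
  have h11 : (1 : ZMod 2) + 1 = 0 := by decide
  by_cases h2 : x ∈ S <;> by_cases h3 : x ∈ S'
  · rw [if_neg (fun h => by rcases h1.1 h with h | h <;> exact h.2 (by assumption)), if_pos h2,
      if_pos h3, h11]
  · rw [if_pos (h1.2 (Or.inl ⟨h2, h3⟩)), if_pos h2, if_neg h3, add_zero]
  · rw [if_pos (h1.2 (Or.inr ⟨h3, h2⟩)), if_neg h2, if_pos h3, zero_add]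
  · rw [if_neg (fun h => by
      rcases h1.1 h with h | h
      · exact h2 h.1
      · exact h3 h.1), if_neg h2, if_neg h3, add_zero]

private theorem add_self (f : V → ZMod 2) : f + f = 0 := by
  funext x
  exact CharTwo.add_self_eq_zero (f x)

private theorem eq_of_add {f g h : V → ZMod 2} (e : f + g = h) : g + h = f := by
  rw [← e]
  calc g + (f + g) = f + (g + g) := by ring
    _ = f := by rw [add_self, add_zero]

private theorem pigeon (Q : Finset (Finset V)) (hQ : Q.Nonempty) (v : V) (hv : ∀ q ∈ Q, v ∈ q)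
    (I : Finset ((V → ZMod 2) × V)) (hI : I.card ≤ 7 * Q.card) :
    ∃ r ∈ Q, (I.filter fun i => i.1 = io (r.erase v)).card ≤ 7 := by
  have h1 : ∑ r ∈ Q, (I.filter fun i => i.1 = io (r.erase v)).card ≤ ∑ _r ∈ Q, 7 := by
    have h2 : ∑ r ∈ Q, (I.filter fun i => i.1 = io (r.erase v)).card =
        ∑ i ∈ I, (Q.filter fun r => i.1 = io (r.erase v)).card := by
      simp only [Finset.card_filter]
      exact Finset.sum_comm
    have h3 : ∑ i ∈ I, (Q.filter fun r => i.1 = io (r.erase v)).card ≤ ∑ _i ∈ I, 1 := by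
      refine Finset.sum_le_sum fun i _ => ?_
      rw [Finset.card_le_one]
      intro r hr r' hr'
      rw [Finset.mem_filter] at hr hr'
      have h4 := io_inj (hr.2.symm.trans hr'.2)
      rw [← Finset.insert_erase (hv r hr.1), h4, Finset.insert_erase (hv r' hr'.1)]
    rw [h2]
    refine h3.trans ?_
    rw [Finset.sum_const, Finset.sum_const, smul_eq_mul, smul_eq_mul]
    omega
  exact Finset.exists_le_of_sum_le hQ h1

private theorem build (Qs : Finset (Finset V)) (h4 : ∀ q ∈ Qs, q.card = 4) (W : Finset V) :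
    (∀ z ∈ W, ∃ q ∈ Qs, z ∈ q) →
    ∃ (T : V → Finset V) (E : Finset (V × V)), E.card ≤ 10 * W.card ∧
      (∀ z ∈ W, ∃ q ∈ Qs, z ∈ q ∧ T z = q.erase z) ∧
      (∀ z ∈ W, ∀ x ∈ T z, (z, x) ∈ E) ∧
      (∀ q ∈ Qs, ∀ z ∈ q, ∀ z' ∈ q, z ∈ W → z' ∈ W → z ≠ z' →
        (T z = T z' ∨ io (T z) + io (T z') = io ((q.erase z).erase z')) →
          (z, z') ∈ E ∨ (z', z) ∈ E) ∧
      (∀ q ∈ Qs, q ⊆ W → ∑ y ∈ q, io (T y) = 0 → ∃ x ∈ q, ∃ y ∈ q, x ≠ y ∧ (x, y) ∈ E) := by
  induction W using Finset.induction_on with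
  | empty =>
    intro _
    refine ⟨fun _ => ∅, ∅, by simp, by simp, by simp, by simp, ?_⟩
    intro q hq h
    have h1 := h4 q hq
    rw [Finset.subset_empty] at h
    rw [h, Finset.card_empty] at h1
    omega
  | insert v W hv ih =>
    intro hW
    obtain ⟨T, E, hE, ha, hb, hc, hd⟩ := ih fun z hz => hW z (Finset.mem_insert_of_mem hz)
    have : Nonempty V := ⟨v⟩
    obtain ⟨Q, hQ⟩ : ∃ Q : Finset (Finset V), Q = Qs.filter fun q => v ∈ q := ⟨_, rfl⟩
    have hQm : ∀ q, q ∈ Q ↔ q ∈ Qs ∧ v ∈ q := fun q => by rw [hQ, Finset.mem_filter]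
    have hQne : Q.Nonempty := by
      obtain ⟨q, hq, hvq⟩ := hW v (Finset.mem_insert_self _ _)
      exact ⟨q, (hQm q).2 ⟨hq, hvq⟩⟩
    have hc3 : ∀ q ∈ Q, (q.erase v).card = 3 := by
      intro q hq
      rw [Finset.card_erase_of_mem ((hQm q).1 hq).2, h4 q ((hQm q).1 hq).1]
    have hrep : ∀ q ∈ Q, ∃ y, y ∈ q.erase v := by
      intro q hq
      have h := hc3 q hq
      exact Finset.card_pos.1 (by omega)
    choose! rep hrep using hrep
    obtain ⟨I1, hI1⟩ : ∃ I1 : Finset ((V → ZMod 2) × V), I1 =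
      Q.biUnion fun q => (q.erase v).image fun y => (io (T y), y) := ⟨_, rfl⟩
    obtain ⟨I2, hI2⟩ : ∃ I2 : Finset ((V → ZMod 2) × V), I2 =
      Q.biUnion fun q => (q.erase v).image fun y => (io (T y) + io ((q.erase v).erase y), y) :=
        ⟨_, rfl⟩
    obtain ⟨I3, hI3⟩ : ∃ I3 : Finset ((V → ZMod 2) × V), I3 =
      Q.image fun q => (∑ y ∈ q.erase v, io (T y), rep q) := ⟨_, rfl⟩
    have c1 : I1.card ≤ Q.card * 3 := by
      rw [hI1]
      refine Finset.card_biUnion_le_card_mul _ _ 3 fun q hq => ?_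
      exact Finset.card_image_le.trans (hc3 q hq).le
    have c2 : I2.card ≤ Q.card * 3 := by
      rw [hI2]
      refine Finset.card_biUnion_le_card_mul _ _ 3 fun q hq => ?_
      exact Finset.card_image_le.trans (hc3 q hq).le
    have c3 : I3.card ≤ Q.card := by
      rw [hI3]
      exact Finset.card_image_le
    have c4 : (I1 ∪ (I2 ∪ I3)).card ≤ 7 * Q.card := by
      have e1 := Finset.card_union_le I1 (I2 ∪ I3)
      have e2 := Finset.card_union_le I2 I3
      omega
    obtain ⟨r, hr, hr7⟩ := pigeon Q hQne v (fun q hq => ((hQm q).1 hq).2) _ c4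
    obtain ⟨F, hF⟩ : ∃ F : Finset (V × V), F = ((r.erase v).image fun x => (v, x)) ∪
      (((I1 ∪ (I2 ∪ I3)).filter fun i => i.1 = io (r.erase v)).image fun i => (v, i.2)) := ⟨_, rfl⟩
    have hF1 : ∀ x ∈ r.erase v, (v, x) ∈ F := fun x hx => by
      rw [hF, Finset.mem_union]
      exact Or.inl (Finset.mem_image_of_mem _ hx)
    have hF2 : ∀ i ∈ I1 ∪ (I2 ∪ I3), i.1 = io (r.erase v) → (v, i.2) ∈ F := fun i hi h => by
      rw [hF, Finset.mem_union]
      exact Or.inr (Finset.mem_image.2 ⟨i, Finset.mem_filter.2 ⟨hi, h⟩, rfl⟩)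
    have hFc : F.card ≤ 10 := by
      rw [hF]
      refine (Finset.card_union_le _ _).trans ?_
      have e1 : ((r.erase v).image fun x => (v, x)).card ≤ 3 :=
        Finset.card_image_le.trans (hc3 r hr).le
      have e2 := (Finset.card_image_le (s := (I1 ∪ (I2 ∪ I3)).filter fun i =>
        i.1 = io (r.erase v)) (f := fun i => (v, i.2))).trans hr7
      omega
    have hTv : Function.update T v (r.erase v) v = r.erase v := Function.update_self _ _ _
    have hTw : ∀ z ∈ W, Function.update T v (r.erase v) z = T z := fun z hz =>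
      Function.update_of_ne (fun h : z = v => hv (h ▸ hz)) _ _
    refine ⟨Function.update T v (r.erase v), E ∪ F, ?_, ?_, ?_, ?_, ?_⟩
    · rw [Finset.card_insert_of_notMem hv]
      have := Finset.card_union_le E F
      omega
    · intro z hz
      rcases Finset.mem_insert.1 hz with rfl | hz
      · exact ⟨r, ((hQm r).1 hr).1, ((hQm r).1 hr).2, hTv⟩
      · rw [hTw z hz]
        exact ha z hz
    · intro z hz x hx
      rcases Finset.mem_insert.1 hz with rfl | hz
      · rw [hTv] at hx
        exact Finset.mem_union_right _ (hF1 x hx)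
      · rw [hTw z hz] at hx
        exact Finset.mem_union_left _ (hb z hz x hx)
    · have key : ∀ q ∈ Qs, v ∈ q → ∀ z' ∈ q, z' ∈ W →
          (r.erase v = T z' ∨ io (r.erase v) + io (T z') = io ((q.erase v).erase z')) →
            (v, z') ∈ F := by
        intro q hq hvq z' hz' hz'W h
        have hz'' : z' ∈ q.erase v := Finset.mem_erase.2 ⟨fun h => hv (h ▸ hz'W), hz'⟩
        have hqQ : q ∈ Q := (hQm q).2 ⟨hq, hvq⟩
        rcases h with h | h
        · refine hF2 (io (T z'), z') ?_ (by rw [h])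
          refine Finset.mem_union_left _ ?_
          rw [hI1, Finset.mem_biUnion]
          exact ⟨q, hqQ, Finset.mem_image.2 ⟨z', hz'', rfl⟩⟩
        · refine hF2 (io (T z') + io ((q.erase v).erase z'), z') ?_ (eq_of_add h)
          refine Finset.mem_union_right _ (Finset.mem_union_left _ ?_)
          rw [hI2, Finset.mem_biUnion]
          exact ⟨q, hqQ, Finset.mem_image.2 ⟨z', hz'', rfl⟩⟩
      intro q hq z hz z' hz' hzW hz'W hne h
      rcases Finset.mem_insert.1 hzW with h1 | hzW1
      · rcases Finset.mem_insert.1 hz'W with h2 | hz'W1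
        · exact absurd (h1.trans h2.symm) hne
        · rw [h1] at h hz ⊢
          rw [hTv, hTw z' hz'W1] at h
          exact Or.inl (Finset.mem_union_right _ (key q hq hz z' hz' hz'W1 h))
      · rcases Finset.mem_insert.1 hz'W with h2 | hz'W1
        · rw [h2] at h hz' ⊢
          rw [hTv, hTw z hzW1] at h
          refine Or.inr (Finset.mem_union_right _ (key q hq hz' z hz hzW1 ?_))
          rcases h with h | h
          · exact Or.inl h.symm
          · right
            rw [add_comm, h, Finset.erase_right_comm]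
        · rw [hTw z hzW1, hTw z' hz'W1] at h
          rcases hc q hq z hz z' hz' hzW1 hz'W1 hne h with h | h
          · exact Or.inl (Finset.mem_union_left _ h)
          · exact Or.inr (Finset.mem_union_left _ h)
    · intro q hq hqW hsum
      by_cases hvq : v ∈ q
      · have hqQ : q ∈ Q := (hQm q).2 ⟨hq, hvq⟩
        rw [← Finset.add_sum_erase q _ hvq, hTv] at hsum
        have h1 : ∑ y ∈ q.erase v, io (Function.update T v (r.erase v) y) =
            ∑ y ∈ q.erase v, io (T y) :=
          Finset.sum_congr rfl fun y hy => by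
            rw [Function.update_of_ne (Finset.ne_of_mem_erase hy)]
        rw [h1] at hsum
        have h2 := hrep q hqQ
        refine ⟨v, hvq, rep q, Finset.mem_of_mem_erase h2, (Finset.ne_of_mem_erase h2).symm, ?_⟩
        refine Finset.mem_union_right _ (hF2 (∑ y ∈ q.erase v, io (T y), rep q) ?_ ?_)
        · refine Finset.mem_union_right _ (Finset.mem_union_right _ ?_)
          rw [hI3]
          exact Finset.mem_image.2 ⟨q, hqQ, rfl⟩
        · have h3 := eq_of_add hsum
          rw [add_zero] at h3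
          exact h3
      · have hqW' : q ⊆ W := fun y hy =>
          (Finset.mem_insert.1 (hqW hy)).resolve_left fun h => hvq (h ▸ hy)
        have h1 : ∑ y ∈ q, io (Function.update T v (r.erase v) y) = ∑ y ∈ q, io (T y) :=
          Finset.sum_congr rfl fun y hy => by rw [hTw y (hqW' hy)]
        rw [h1] at hsum
        obtain ⟨x, hx, y, hy, hxy, h2⟩ := hd q hq hqW' hsum
        exact ⟨x, hx, y, hy, hxy, Finset.mem_union_left _ h2⟩

/-- the choice of the triples -/
theorem linB (Qs : Finset (Finset V)) (h4 : ∀ q ∈ Qs, q.card = 4) (W : Finset V)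
    (hW : ∀ z ∈ W, ∃ q ∈ Qs, z ∈ q) :
    ∃ (Z : Finset V) (T : V → Finset V), Z ⊆ W ∧ W.card ≤ 21 * Z.card ∧
      (∀ z ∈ Z, z ∉ T z ∧ insert z (T z) ∈ Qs ∧ Disjoint (T z) Z) ∧
      (∀ q ∈ Qs, ∀ z ∈ q, ∀ z' ∈ q, z ∈ Z → z' ∈ Z → z ≠ z' →
        T z ≠ T z' ∧ symmDiff (T z) (T z') ≠ (q.erase z).erase z') ∧
      (∀ q ∈ Qs, q ⊆ Z → ∀ a b c d, q = {a, b, c, d} →
        symmDiff (symmDiff (T a) (T b)) (symmDiff (T c) (T d)) ≠ ∅) := by
  obtain ⟨T, E, hE, ha, hb, hc, hd⟩ := build Qs h4 W hW
  obtain ⟨k, hk⟩ : ∃ k : V → ℝ, ∀ i, k i = 1 + ((E.filter fun p => p.1 = i).card : ℝ) +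
    ((E.filter fun p => p.2 = i).card : ℝ) := ⟨_, fun _ => rfl⟩
  have hk0 : ∀ i, 0 < k i := fun i => by
    rw [hk]
    positivity
  have hdeg : ∀ (i : V) (inst : DecidablePred fun j => j = i ∨ ((i, j) ∈ E ∨ (j, i) ∈ E)),
      ((@Finset.filter V (fun j => j = i ∨ ((i, j) ∈ E ∨ (j, i) ∈ E)) inst W).card : ℝ) ≤ k i := by
    intro i inst
    have hsub : (@Finset.filter V (fun j => j = i ∨ ((i, j) ∈ E ∨ (j, i) ∈ E)) inst W) ⊆
        {i} ∪ (((E.filter fun p => p.1 = i).image Prod.snd) ∪
          ((E.filter fun p => p.2 = i).image Prod.fst)) := by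
      intro j hj
      rw [Finset.mem_filter] at hj
      rw [Finset.mem_union, Finset.mem_union]
      rcases hj.2 with h | h | h
      · exact Or.inl (Finset.mem_singleton.2 h)
      · exact Or.inr (Or.inl (Finset.mem_image.2 ⟨(i, j), Finset.mem_filter.2 ⟨h, rfl⟩, rfl⟩))
      · exact Or.inr (Or.inr (Finset.mem_image.2 ⟨(j, i), Finset.mem_filter.2 ⟨h, rfl⟩, rfl⟩))
    have h1 := Finset.card_le_card hsub
    have h2 := Finset.card_union_le {i} (((E.filter fun p => p.1 = i).image Prod.snd) ∪
          ((E.filter fun p => p.2 = i).image Prod.fst))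
    have h3 := Finset.card_union_le ((E.filter fun p => p.1 = i).image Prod.snd)
          ((E.filter fun p => p.2 = i).image Prod.fst)
    have h5 := Finset.card_image_le (s := E.filter fun p => p.1 = i) (f := Prod.snd)
    have h6 := Finset.card_image_le (s := E.filter fun p => p.2 = i) (f := Prod.fst)
    rw [Finset.card_singleton] at h2
    rw [hk]
    have h7 := (h1.trans h2).trans (Nat.add_le_add_left (h3.trans (Nat.add_le_add h5 h6)) 1)
    have h8 : ((@Finset.filter V (fun j => j = i ∨ ((i, j) ∈ E ∨ (j, i) ∈ E)) inst W).card : ℝ) ≤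
        ((1 + ((E.filter fun p => p.1 = i).card + (E.filter fun p => p.2 = i).card) : ℕ) : ℝ) :=
      Nat.cast_le.2 h7
    push_cast at h8
    linarith
  obtain ⟨J, hJ, hind, hJc⟩ := greedyCW W (fun i => 1 / k i)
    (fun i _ => (one_div_pos.2 (hk0 i)).le) (fun i j => (i, j) ∈ E ∨ (j, i) ∈ E)
    (fun i j h => h.symm) (fun i _ => by
      rw [mul_one_div, div_le_one (hk0 i)]
      exact hdeg i _)
  refine ⟨J, T, hJ, ?_, ?_, ?_, ?_⟩
  · rcases W.eq_empty_or_nonempty with hW0 | hW0
    · rw [hW0]
      simp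
    have hsum : ∀ g : V × V → V, ∑ i ∈ W, ((E.filter fun p => g p = i).card : ℝ) ≤ E.card := by
      intro g
      have h1 : ∑ i ∈ W, (E.filter fun p => g p = i).card ≤ E.card := by
        simp only [Finset.card_filter]
        rw [Finset.sum_comm, Finset.card_eq_sum_ones]
        refine Finset.sum_le_sum fun p _ => ?_
        rw [Finset.sum_ite_eq]
        split_ifs <;> omega
      exact_mod_cast h1
    have h1 : ∑ i ∈ W, k i ≤ 21 * (W.card : ℝ) := by
      simp only [hk, Finset.sum_add_distrib]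
      have e1 := hsum Prod.fst
      have e2 := hsum Prod.snd
      have e3 : (E.card : ℝ) ≤ 10 * W.card := by exact_mod_cast hE
      rw [Finset.sum_const, nsmul_eq_mul, mul_one]
      linarith
    have h2 : (W.card : ℝ) ^ 2 / ∑ i ∈ W, k i ≤ ∑ i ∈ W, 1 / k i := by
      have h := Finset.sq_sum_div_le_sum_sq_div W (fun _ => (1 : ℝ)) (g := k) (fun i _ => hk0 i)
      simpa using h
    have hWc : (0 : ℝ) < W.card := by exact_mod_cast Finset.card_pos.2 hW0
    have h3 : (W.card : ℝ) / 21 ≤ (W.card : ℝ) ^ 2 / ∑ i ∈ W, k i := by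
      rw [div_le_div_iff₀ (by norm_num) (Finset.sum_pos (fun i _ => hk0 i) hW0)]
      nlinarith
    have h5 : (W.card : ℝ) ≤ 21 * J.card := by
      have := (h3.trans h2).trans hJc
      linarith
    exact_mod_cast h5
  · intro z hz
    obtain ⟨q, hq, hzq, hT⟩ := ha z (hJ hz)
    refine ⟨?_, ?_, ?_⟩
    · rw [hT]
      exact Finset.notMem_erase z q
    · rw [hT, Finset.insert_erase hzq]
      exact hq
    · rw [Finset.disjoint_left]
      intro x hx hxJ
      have h1 := hb z (hJ hz) x hx
      rw [hT] at hx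
      exact hind z hz x hxJ (Finset.ne_of_mem_erase hx).symm (Or.inl h1)
  · intro q hq z hz z' hz' hzJ hz'J hne
    constructor
    · intro h
      exact hind z hzJ z' hz'J hne (hc q hq z hz z' hz' (hJ hzJ) (hJ hz'J) hne (Or.inl h))
    · intro h
      refine hind z hzJ z' hz'J hne (hc q hq z hz z' hz' (hJ hzJ) (hJ hz'J) hne (Or.inr ?_))
      rw [← io_symmDiff, h]
  · intro q hq hqJ a b c d hq4 h
    have hcard := h4 q hq
    have g1 : a ∉ ({b, c, d} : Finset V) := by
      intro h1
      rw [hq4, Finset.insert_eq_of_mem h1] at hcard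
      have := Finset.card_le_three (a := b) (b := c) (c := d)
      omega
    have g2 : b ∉ ({c, d} : Finset V) := by
      intro h1
      rw [hq4, Finset.insert_eq_of_mem h1] at hcard
      have := Finset.card_le_three (a := a) (b := c) (c := d)
      omega
    have g3 : c ∉ ({d} : Finset V) := by
      intro h1
      rw [hq4, Finset.insert_eq_of_mem h1] at hcard
      have := Finset.card_le_three (a := a) (b := b) (c := d)
      omega
    have hsum : ∑ y ∈ q, io (T y) = 0 := by
      rw [hq4, Finset.sum_insert g1, Finset.sum_insert g2, Finset.sum_insert g3,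
        Finset.sum_singleton]
      have h1 : io (symmDiff (symmDiff (T a) (T b)) (symmDiff (T c) (T d))) = 0 := by
        rw [h]
        funext x
        exact if_neg (Finset.notMem_empty x)
      rw [io_symmDiff, io_symmDiff, io_symmDiff] at h1
      rw [← h1]
      ring
    obtain ⟨x, hx, y, hy, hxy, h2⟩ := hd q hq (hqJ.trans hJ) hsum
    exact hind x (hqJ hx) y (hqJ hy) hxy (Or.inl h2)

end H90.BX
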