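import Pool.Agent.H90.BX.LinSel
import Pool.Agent.H90.BX.LinB

/-!
# [H90 BX LINFIN] a linear gain in the number of the vertices on crossed edges

`linB` for the set `QQ D` of the `4`-sets of the vertices of the crossing pairs, and `Priv2`: `8 CR_2 + w / 7 ≤ 3 CR`.
-/

set_option autoImplicit false

open Set
open scoped Classical symmDiff

noncomputable section

namespace H90.BX

open H29.BP H29.BT

section

variable {V : Type}

private theorem add_self (f : V → ZMod 2) : f + f = 0 := by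
  funext x
  exact CharTwo.add_self_eq_zero (f x)

private theorem swap4 {f g h k : V → ZMod 2} (e : f + g = h + k) : f + h = g + k := by
  have h1 : f + h = (f + g) + (g + h) := by
    calc f + h = f + h + 0 := (add_zero _).symm
      _ = f + h + (g + g) := by rw [add_self]
      _ = (f + g) + (g + h) := by ring
  rw [h1, e]
  calc h + k + (g + h) = g + k + (h + h) := by ring
    _ = g + k := by rw [add_self, add_zero]

private theorem dist4 {a b c d : V} (h : ({a, b, c, d} : Finset V).card = 4) :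
    a ≠ b ∧ a ≠ c ∧ a ≠ d ∧ b ≠ c ∧ b ≠ d ∧ c ≠ d := by
  have g1 : a ∉ ({b, c, d} : Finset V) := by
    intro h1
    rw [Finset.insert_eq_of_mem h1] at h
    have := Finset.card_le_three (a := b) (b := c) (c := d)
    omega
  have g2 : b ∉ ({c, d} : Finset V) := by
    intro h1
    rw [Finset.insert_eq_of_mem h1] at h
    have := Finset.card_le_three (a := a) (b := c) (c := d)
    omega
  have g3 : c ∉ ({d} : Finset V) := by
    intro h1
    rw [Finset.insert_eq_of_mem h1] at h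
    have := Finset.card_le_three (a := a) (b := b) (c := d)
    omega
  simp only [Finset.mem_insert, Finset.mem_singleton, not_or] at g1 g2 g3
  exact ⟨g1.1, g1.2.1, g1.2.2, g2.1, g2.2, g3⟩

private theorem two_ne {Qs : Finset (Finset V)} (h4 : ∀ q ∈ Qs, q.card = 4) {Z : Finset V}
    {T : V → Finset V} (h2 : ∀ q ∈ Qs, ∀ z ∈ q, ∀ z' ∈ q, z ∈ Z → z' ∈ Z → z ≠ z' →
      T z ≠ T z' ∧ symmDiff (T z) (T z') ≠ (q.erase z).erase z')
    {a b c d : V} (hq : ({a, b, c, d} : Finset V) ∈ Qs) (ha : a ∈ Z) (hb : b ∈ Z) :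
    io (T a) + io (T b) ≠ io {c} + io {d} := by
  intro h
  obtain ⟨hab, hac, had, hbc, hbd, hcd⟩ := dist4 (h4 _ hq)
  refine (h2 _ hq a (by simp) b (by simp) ha hb hab).2 ?_
  rw [← io_symmDiff, ← io_symmDiff] at h
  rw [io_inj h]
  ext x
  simp only [Finset.mem_symmDiff, Finset.mem_erase, Finset.mem_insert, Finset.mem_singleton]
  constructor
  · rintro (⟨h1, h3⟩ | ⟨h1, h3⟩)
    · rw [h1]
      exact ⟨hbc.symm, hac.symm, Or.inr (Or.inr (Or.inl rfl))⟩
    · rw [h1]
      exact ⟨hbd.symm, had.symm, Or.inr (Or.inr (Or.inr rfl))⟩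
  · rintro ⟨h1, h3, h5 | h5 | h5 | h5⟩
    · exact absurd h5 h3
    · exact absurd h5 h1
    · exact Or.inl ⟨h5, fun h6 => hcd (h5.symm.trans h6)⟩
    · exact Or.inr ⟨h5, fun h6 => hcd (h6.symm.trans h5)⟩

private theorem quad_odd [Fintype V] {Qs : Finset (Finset V)} (h4 : ∀ q ∈ Qs, q.card = 4) {Z : Finset V}
    {T : V → Finset V} (h2 : ∀ q ∈ Qs, ∀ z ∈ q, ∀ z' ∈ q, z ∈ Z → z' ∈ Z → z ≠ z' →
      T z ≠ T z' ∧ symmDiff (T z) (T z') ≠ (q.erase z).erase z')
    (h3 : ∀ q ∈ Qs, q ⊆ Z → ∀ a b c d, q = {a, b, c, d} →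
      symmDiff (symmDiff (T a) (T b)) (symmDiff (T c) (T d)) ≠ ∅)
    {p q u w : V} (hq : ({p, q, u, w} : Finset V) ∈ Qs)
    (h : AA Z T p ∆ AA Z T q = AA Z T u ∆ AA Z T w) : ss Z p * ss Z q * (ss Z u * ss Z w) = -1 := by
  have h' := congrArg io h
  rw [io_symmDiff, io_symmDiff] at h'
  obtain ⟨hpq, hpu, hpw, hqu, hqw, huw⟩ := dist4 (h4 _ hq)
  have e1 : ({p, u, q, w} : Finset V) ∈ Qs := by
    have : ({p, u, q, w} : Finset V) = {p, q, u, w} := by
      ext x
      simp only [Finset.mem_insert, Finset.mem_singleton]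
      tauto
    rwa [this]
  have e2 : ({p, w, q, u} : Finset V) ∈ Qs := by
    have : ({p, w, q, u} : Finset V) = {p, q, u, w} := by
      ext x
      simp only [Finset.mem_insert, Finset.mem_singleton]
      tauto
    rwa [this]
  have e3 : ({q, u, p, w} : Finset V) ∈ Qs := by
    have : ({q, u, p, w} : Finset V) = {p, q, u, w} := by
      ext x
      simp only [Finset.mem_insert, Finset.mem_singleton]
      tauto
    rwa [this]
  have e4 : ({q, w, p, u} : Finset V) ∈ Qs := by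
    have : ({q, w, p, u} : Finset V) = {p, q, u, w} := by
      ext x
      simp only [Finset.mem_insert, Finset.mem_singleton]
      tauto
    rwa [this]
  have e5 : ({u, w, p, q} : Finset V) ∈ Qs := by
    have : ({u, w, p, q} : Finset V) = {p, q, u, w} := by
      ext x
      simp only [Finset.mem_insert, Finset.mem_singleton]
      tauto
    rwa [this]
  by_cases hp : p ∈ Z <;> by_cases hq' : q ∈ Z <;> by_cases hu : u ∈ Z <;> by_cases hw : w ∈ Z
  · -- all four
    exfalso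
    rw [AA_mem hp, AA_mem hq', AA_mem hu, AA_mem hw] at h
    refine h3 _ hq ?_ p q u w rfl (by rw [h, symmDiff_self]; rfl)
    intro x hx
    simp only [Finset.mem_insert, Finset.mem_singleton] at hx
    rcases hx with rfl | rfl | rfl | rfl <;> assumption
  · rw [ss_mem hp, ss_mem hq', ss_mem hu, ss_not hw]
    norm_num
  · rw [ss_mem hp, ss_mem hq', ss_not hu, ss_mem hw]
    norm_num
  · exfalso
    rw [AA_mem hp, AA_mem hq', AA_not hu, AA_not hw] at h'
    exact two_ne h4 h2 hq hp hq' h'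
  · rw [ss_mem hp, ss_not hq', ss_mem hu, ss_mem hw]
    norm_num
  · exfalso
    rw [AA_mem hp, AA_not hq', AA_mem hu, AA_not hw] at h'
    exact two_ne h4 h2 e1 hp hu (swap4 h')
  · exfalso
    rw [AA_mem hp, AA_not hq', AA_not hu, AA_mem hw, add_comm (io {u})] at h'
    exact two_ne h4 h2 e2 hp hw (swap4 h')
  · rw [ss_mem hp, ss_not hq', ss_not hu, ss_not hw]
    norm_num
  · rw [ss_not hp, ss_mem hq', ss_mem hu, ss_mem hw]
    norm_num
  · exfalso
    rw [AA_not hp, AA_mem hq', AA_mem hu, AA_not hw, add_comm (io {p})] at h'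
    exact two_ne h4 h2 e3 hq' hu (swap4 h')
  · exfalso
    rw [AA_not hp, AA_mem hq', AA_not hu, AA_mem hw, add_comm (io {p}), add_comm (io {u})] at h'
    exact two_ne h4 h2 e4 hq' hw (swap4 h')
  · rw [ss_not hp, ss_mem hq', ss_not hu, ss_not hw]
    norm_num
  · exfalso
    rw [AA_not hp, AA_not hq', AA_mem hu, AA_mem hw] at h'
    exact two_ne h4 h2 e5 hu hw h'.symm
  · rw [ss_not hp, ss_not hq', ss_mem hu, ss_not hw]
    norm_num
  · rw [ss_not hp, ss_not hq', ss_not hu, ss_mem hw]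
    norm_num
  · exfalso
    rw [AA_not hp, AA_not hq', AA_not hu, AA_not hw] at h'
    have h5 := congrFun h' p
    have h6 : io {p} p = 1 := if_pos (Finset.mem_singleton_self p)
    have h7 : ∀ x, p ≠ x → io {x} p = 0 := fun x hx =>
      if_neg fun h => hx (Finset.mem_singleton.1 h)
    rw [Pi.add_apply, Pi.add_apply, h6, h7 q hpq, h7 u hpu, h7 w hpw] at h5
    exact absurd h5 (by decide)

end

variable {V : Type} [Fintype V] {G : SimpleGraph V}

/-- the sets of the vertices of the crossing pairs -/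
def QQ (D : Drawing G) : Finset (Finset V) :=
  ((ES G ×ˢ ES G).filter fun p => D.x p.1 p.2 ≠ 0).image fun p => vs p.1 ∪ vs p.2

theorem mem_QQ (D : Drawing G) {z : V} {p : Sym2 V × Sym2 V} (hp : p ∈ pairsAt D z) :
    vs p.1 ∪ vs p.2 ∈ QQ D := by
  have h := (mem_pairsAt D z).1 hp
  unfold QQ
  exact Finset.mem_image.2 ⟨p, Finset.mem_filter.2 ⟨Finset.mem_product.2 h.1, h.2.2⟩, rfl⟩

theorem of_QQ (D : Drawing G) {q : Finset V} (hq : q ∈ QQ D) {z : V} (hz : z ∈ q) :
    ∃ p ∈ pairsAt D z, vs p.1 ∪ vs p.2 = q := by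
  unfold QQ at hq
  rw [Finset.mem_image] at hq
  obtain ⟨p, hp, rfl⟩ := hq
  rw [Finset.mem_filter, Finset.mem_product] at hp
  rw [Finset.mem_union] at hz
  rcases hz with hz | hz
  · exact ⟨p, (mem_pairsAt D z).2 ⟨hp.1, (Finset.mem_filter.1 hz).2, hp.2⟩, rfl⟩
  · refine ⟨p.swap, (mem_pairsAt D z).2 ⟨⟨hp.1.2, hp.1.1⟩, (Finset.mem_filter.1 hz).2, ?_⟩,
      Finset.union_comm _ _⟩
    show D.x p.2 p.1 ≠ 0
    rw [D.x_comm]
    exact hp.2

theorem shape4 (D : Drawing G) (hD : D.cr = CR G) {z : V} {p : Sym2 V × Sym2 V}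
    (hp : p ∈ pairsAt D z) : ∃ a c d : V, p = (s(z, a), s(c, d)) ∧ a ≠ c ∧ a ≠ d ∧ c ≠ d ∧
      z ∉ ({a, c, d} : Finset V) ∧ vs p.1 ∪ vs p.2 = insert z {a, c, d} := by
  obtain ⟨a, c, d, h0, h1, h2, h3, h4, h5, h6, h7⟩ := shape D hD hp
  refine ⟨a, c, d, h0, h4, h5, h6, by simp [h1, h2, h3], ?_⟩
  rw [← h7]
  unfold oth
  rw [Finset.insert_erase]
  exact Finset.mem_union_left _ (Finset.mem_filter.2 ⟨Finset.mem_univ _,
    ((mem_pairsAt D z).1 hp).2.1⟩)

theorem card_QQ (D : Drawing G) (hD : D.cr = CR G) : ∀ q ∈ QQ D, q.card = 4 := by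
  intro q hq
  have hne : ∃ z, z ∈ q := by
    unfold QQ at hq
    rw [Finset.mem_image] at hq
    obtain ⟨⟨e, f⟩, _, rfl⟩ := hq
    induction e using Sym2.ind with
    | _ a b =>
      refine ⟨a, Finset.mem_union_left _ ?_⟩
      simp only
      rw [vs_mk]
      exact Finset.mem_insert_self _ _
  obtain ⟨z, hz⟩ := hne
  obtain ⟨p, hp, rfl⟩ := of_QQ D hq hz
  obtain ⟨a, c, d, -, h1, h2, h3, h4, h5⟩ := shape4 D hD hp
  rw [h5, Finset.card_insert_of_notMem h4, Finset.card_insert_of_notMem (by simp [h1, h2]),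
    Finset.card_pair h3]

theorem gain_lin (D : Drawing G) (hD : D.cr = CR G) {Z : Finset V} {T : V → Finset V}
    (h1 : ∀ z ∈ Z, z ∉ T z ∧ insert z (T z) ∈ QQ D ∧ Disjoint (T z) Z)
    (h2 : ∀ q ∈ QQ D, ∀ z ∈ q, ∀ z' ∈ q, z ∈ Z → z' ∈ Z → z ≠ z' →
      T z ≠ T z' ∧ symmDiff (T z) (T z') ≠ (q.erase z).erase z')
    (h3 : ∀ q ∈ QQ D, q ⊆ Z → ∀ a b c d, q = {a, b, c, d} →
      symmDiff (symmDiff (T a) (T b)) (symmDiff (T c) (T d)) ≠ ∅) :
    8 * (CR2 G : ℝ) + 3 * Z.card ≤ 3 * CR G := by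
  have hch : ∀ z : V, ∃ q : V × V × V, z ∈ Z →
      (s(z, q.1), s(q.2.1, q.2.2)) ∈ pairsAt D z ∧ T z = {q.1, q.2.1, q.2.2} := by
    intro z
    by_cases hz : z ∈ Z
    · obtain ⟨g1, g2, -⟩ := h1 z hz
      obtain ⟨p, hp, hpq⟩ := of_QQ D g2 (Finset.mem_insert_self _ _)
      obtain ⟨a, c, d, h0, -, -, -, h5, h6⟩ := shape4 D hD hp
      refine ⟨(a, c, d), fun _ => ⟨h0 ▸ hp, ?_⟩⟩
      rw [h6] at hpq
      have h7 := congrArg (fun S => Finset.erase S z) hpq
      simp only [Finset.erase_insert h5, Finset.erase_insert g1] at h7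
      exact h7.symm
    · exact ⟨(z, z, z), fun h => absurd h hz⟩
  choose q hq using hch
  have hQ : ∀ e ∈ ES G, ∀ f ∈ ES G, D.x e f ≠ 0 → vs e ∪ vs f ∈ QQ D := by
    intro e he f hf hx
    unfold QQ
    exact Finset.mem_image.2 ⟨(e, f), Finset.mem_filter.2 ⟨Finset.mem_product.2 ⟨he, hf⟩, hx⟩, rfl⟩
  have hmv : ∀ (e f : Sym2 V) (z : V), (z ∈ e ∨ z ∈ f) → z ∈ vs e ∪ vs f := by
    intro e f z hz
    rw [Finset.mem_union]
    rcases hz with hz | hz
    · exact Or.inl (Finset.mem_filter.2 ⟨Finset.mem_univ _, hz⟩)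
    · exact Or.inr (Finset.mem_filter.2 ⟨Finset.mem_univ _, hz⟩)
  have P : Priv2 (ES G) (fun e f => (D.x e f : ℝ)) Z (fun z => (q z).1) (fun z => (q z).2.1)
      (fun z => (q z).2.2) := by
    refine ⟨fun e he => G.not_isDiag_of_mem_edgeSet (mem_ES.1 he), fun e f => ?_, fun e f => ?_,
      fun e he f hf h => ?_, fun z hz => ((mem_pairsAt D z).1 (hq z hz).1).1.1,
      fun z hz => ((mem_pairsAt D z).1 (hq z hz).1).1.2,
      fun z hz => Nat.cast_ne_zero.2 ((mem_pairsAt D z).1 (hq z hz).1).2.2, fun z hz => ?_, ?_, ?_⟩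
    · rw [D.x_comm]
    · rcases Nat.eq_zero_or_pos (D.x e f) with h | h
      · left
        rw [h, Nat.cast_zero]
      · right
        exact_mod_cast h
    · obtain ⟨u, hue, huf⟩ := h
      rw [opt_x D hD he hf hue huf, Nat.cast_zero]
    · have h4 := (h1 z hz).2.2
      rw [(hq z hz).2] at h4
      refine ⟨fun h => ?_, fun h => ?_, fun h => ?_⟩
      · exact Finset.disjoint_left.1 h4 (by simp) h
      · exact Finset.disjoint_left.1 h4 (by simp) h
      · exact Finset.disjoint_left.1 h4 (by simp) h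
    · intro e he f hf hx z hz z' hz' hne h4 h5
      rw [← (hq z hz).2, ← (hq z' hz').2]
      exact (h2 _ (hQ e he f hf (fun h => hx (by rw [h, Nat.cast_zero]))) z (hmv e f z h4) z'
        (hmv e f z' h5) hz hz' hne).1
    · intro e he f hf hx hA
      rw [AX_congr (T := fun z => {(q z).1, (q z).2.1, (q z).2.2}) (T' := T)
          (fun v _ hv => (hq v hv).2.symm),
        AX_congr (T := fun z => {(q z).1, (q z).2.1, (q z).2.2}) (T' := T)
          (fun v _ hv => (hq v hv).2.symm)] at hA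
      have hQef := hQ e he f hf (fun h => hx (by rw [h, Nat.cast_zero]))
      clear he hf hx
      induction e using Sym2.ind with
      | _ p r =>
        induction f using Sym2.ind with
        | _ u w =>
          rw [AX_mk, AX_mk] at hA
          rw [sX_mk, sX_mk]
          refine quad_odd (card_QQ D hD) h2 h3 ?_ hA
          rw [vs_mk, vs_mk] at hQef
          have : ({p, r, u, w} : Finset V) = {p, r} ∪ {u, w} := by
            ext x
            simp only [Finset.mem_insert, Finset.mem_singleton, Finset.mem_union]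
            tauto
          rwa [this]
  obtain ⟨s, hs⟩ := P.main
  have h4 := CR2_le_cost D s
  have h5 : ∑ e ∈ ES G, ∑ f ∈ ES G, (D.x e f : ℝ) = 2 * CR G := by
    rw [← hD]
    exact_mod_cast D.two_mul_cr.symm
  rw [h5] at hs
  linarith

/-- a linear gain in the number of the vertices on crossed edges -/
theorem linear7 (D : Drawing G) (hD : D.cr = CR G) :
    8 * (CR2 G : ℝ) + ((WW D).card : ℝ) / 7 ≤ 3 * CR G := by
  obtain ⟨Z, T, -, h0, h1, h2, h3⟩ := linB (QQ D) (card_QQ D hD) (WW D) (fun z hz => by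
    obtain ⟨p, hp⟩ := (Finset.mem_filter.1 hz).2
    obtain ⟨a, c, d, -, -, -, -, -, h5⟩ := shape4 D hD hp
    refine ⟨_, mem_QQ D hp, ?_⟩
    rw [h5]
    exact Finset.mem_insert_self _ _)
  have h4 := gain_lin D hD h1 h2 h3
  have h5 : ((WW D).card : ℝ) ≤ 21 * Z.card := by exact_mod_cast h0
  linarith

end H90.BX
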