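import Pool.Agent.H90.BX.Crossed
import Pool.Agent.H90.BX.LinFin

/-!
# [H90 BX SEVEN] the linear gain with the constant of helper75
-/

set_option autoImplicit false

noncomputable section

namespace H90.BX

open H29.BP H29.BT

theorem crossed_seven {V : Type} [Finite V] {G : SimpleGraph V} (D : Drawing G)
    (hD : D.cr = CR G) :
    8 * (CR2 G : ℝ) + (crossedVertices D).ncard / 7 ≤ 3 * CR G := by
  cases nonempty_fintype V
  have h1 := linear7 D hD
  have h2 : ((crossedVertices D).ncard : ℝ) ≤ (WW D).card := by exact_mod_cast crossed_le D
  linarith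

end H90.BX
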