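import Pool.Agent.H90.BX.PrivFin

/-!
# [H90 BX LIN] determined signs with conflicts

As `Priv`, but two vertices of `Z` may belong to a common crossing pair. `AA v` is the set `T v = {a v, b v, c v}` of the three
vertices whose signs determine the sign of `v ∈ Z`, and `{v}` for `v ∉ Z`. For a crossing pair `s(p, q)`, `s(u, w)` the mean of the
product of the four signs is `0` unless `AA p ∆ AA q = AA u ∆ AA w`, and then it is the sign `(-1)^(number of vertices in Z)`; it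
is enough that this sign is `-1`, and that the sets `T` of two vertices of `Z` in a common crossing pair are different.
-/

set_option autoImplicit false

open Set
open scoped Classical symmDiff

noncomputable section

namespace H90.BX

open H29.BP H29.BT

variable {V : Type}

theorem chi_mul [Fintype V] (S S' : Finset V) (t : V → ℤˣ) :
    chi S t * chi S' t = chi (S ∆ S') t := by
  have h1 : chi S t = chi (S ∩ S') t * chi (S \ S') t :=
    (Finset.prod_inter_mul_prod_diff S S' (fun v => sg t v)).symm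
  have h2 : chi S' t = chi (S' ∩ S) t * chi (S' \ S) t :=
    (Finset.prod_inter_mul_prod_diff S' S (fun v => sg t v)).symm
  have h3 : chi (S ∆ S') t = chi (S \ S') t * chi (S' \ S) t :=
    Finset.prod_union disjoint_sdiff_sdiff
  rw [h3, h1, h2, Finset.inter_comm S' S]
  have h4 := chi_mul_self (S ∩ S') t
  linear_combination (chi (S \ S') t * chi (S' \ S) t) * h4

/-- the set of the vertices whose signs determine the sign of `v` -/
def AA (Z : Finset V) (T : V → Finset V) (v : V) : Finset V := if v ∈ Z then T v else {v}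

/-- the sign of `v` in this formula -/
def ss (Z : Finset V) (v : V) : ℝ := if v ∈ Z then -1 else 1

def AX (Z : Finset V) (T : V → Finset V) : Sym2 V → Finset V :=
  Sym2.lift ⟨fun a b => AA Z T a ∆ AA Z T b, fun _ _ => symmDiff_comm _ _⟩

def sX (Z : Finset V) : Sym2 V → ℝ :=
  Sym2.lift ⟨fun a b => ss Z a * ss Z b, fun _ _ => mul_comm _ _⟩

theorem AX_mk (Z : Finset V) (T : V → Finset V) (a b : V) :
    AX Z T s(a, b) = AA Z T a ∆ AA Z T b := rfl

theorem sX_mk (Z : Finset V) (a b : V) : sX Z s(a, b) = ss Z a * ss Z b := rfl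

/-- the hypotheses -/
structure Priv2 (E : Finset (Sym2 V)) (x : Sym2 V → Sym2 V → ℝ) (Z : Finset V) (a b c : V → V) :
    Prop where
  diag : ∀ e ∈ E, ¬ e.IsDiag
  symm : ∀ e f, x e f = x f e
  one : ∀ e f, x e f = 0 ∨ 1 ≤ x e f
  meets : ∀ e ∈ E, ∀ f ∈ E, Meets e f → x e f = 0
  memA : ∀ z ∈ Z, s(z, a z) ∈ E
  memB : ∀ z ∈ Z, s(b z, c z) ∈ E
  cross : ∀ z ∈ Z, x s(z, a z) s(b z, c z) ≠ 0
  notMem : ∀ z ∈ Z, a z ∉ Z ∧ b z ∉ Z ∧ c z ∉ Z
  dist : ∀ e ∈ E, ∀ f ∈ E, x e f ≠ 0 → ∀ z ∈ Z, ∀ z' ∈ Z, z ≠ z' → (z ∈ e ∨ z ∈ f) →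
    (z' ∈ e ∨ z' ∈ f) → ({a z, b z, c z} : Finset V) ≠ {a z', b z', c z'}
  quad : ∀ e ∈ E, ∀ f ∈ E, x e f ≠ 0 →
    AX Z (fun z => {a z, b z, c z}) e = AX Z (fun z => {a z, b z, c z}) f → sX Z e * sX Z f = -1

namespace Priv2

variable {E : Finset (Sym2 V)} {x : Sym2 V → Sym2 V → ℝ} {Z : Finset V} {a b c : V → V}

theorem ne [Fintype V] (P : Priv2 E x Z a b c) {z : V} (hz : z ∈ Z) :
    z ≠ a z ∧ z ≠ b z ∧ z ≠ c z ∧ a z ≠ b z ∧ a z ≠ c z ∧ b z ≠ c z := by
  have h1 : ¬ Meets s(z, a z) s(b z, c z) := fun h =>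
    P.cross z hz (P.meets _ (P.memA z hz) _ (P.memB z hz) h)
  have h2 := P.diag _ (P.memA z hz)
  have h3 := P.diag _ (P.memB z hz)
  rw [Sym2.mk_isDiag_iff] at h2 h3
  obtain ⟨h4, h5, h6, h7⟩ := not_meets_mk h1
  exact ⟨h2, h4, h5, h6, h7, h3⟩

/-- a chosen pair costs nothing -/
theorem zero [Fintype V] (P : Priv2 E x Z a b c) {z : V} (hz : z ∈ Z) :
    ∑ t : V → ℤˣ, cost (fl Z a b c t) s(z, a z) s(b z, c z) = 0 := by
  obtain ⟨-, -, -, hab, hac, hbc⟩ := P.ne hz
  obtain ⟨ha, hb, hc⟩ := P.notMem z hz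
  rw [avg_one a b c hz ha hb hc hab hac hbc hab hac hbc, chi_sum_self]
  ring

theorem sg_fl [Fintype V] (P : Priv2 E x Z a b c) (t : V → ℤˣ) (v : V) :
    sg (fl Z a b c t) v = ss Z v * chi (AA Z (fun z => {a z, b z, c z}) v) t := by
  by_cases hv : v ∈ Z
  · obtain ⟨-, -, -, hab, hac, hbc⟩ := P.ne hv
    rw [sg_fl_mem a b c t hv, ss, if_pos hv, AA, if_pos hv, chi_three hab hac hbc]
    ring
  · rw [sg_fl_not a b c t hv, ss, if_neg hv, AA, if_neg hv, chi_one, one_mul]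

theorem AA_ne [Fintype V] (P : Priv2 E x Z a b c) {e f : Sym2 V} (he : e ∈ E) (hf : f ∈ E)
    (hx : x e f ≠ 0) {u v : V} (huv : u ≠ v) (hu : u ∈ e ∨ u ∈ f) (hv : v ∈ e ∨ v ∈ f) :
    AA Z (fun z => {a z, b z, c z}) u ≠ AA Z (fun z => {a z, b z, c z}) v := by
  unfold AA
  by_cases h1 : u ∈ Z <;> by_cases h2 : v ∈ Z
  · rw [if_pos h1, if_pos h2]
    exact P.dist e he f hf hx u h1 v h2 huv hu hv
  · rw [if_pos h1, if_neg h2]
    obtain ⟨-, -, -, hab, hac, hbc⟩ := P.ne h1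
    exact card_ne hab hac hbc
  · rw [if_neg h1, if_pos h2]
    obtain ⟨-, -, -, hab, hac, hbc⟩ := P.ne h2
    exact (card_ne hab hac hbc).symm
  · rw [if_neg h1, if_neg h2]
    simpa using huv

theorem pair [Fintype V] (P : Priv2 E x Z a b c) {e f : Sym2 V} (he : e ∈ E) (hf : f ∈ E)
    (hx : x e f ≠ 0) :
    ∑ t : V → ℤˣ, cost (fl Z a b c t) e f ≤ 3 / 8 * ((Finset.univ : Finset (V → ℤˣ)).card : ℝ) := by
  have hm : ¬ Meets e f := fun h => hx (P.meets e he f hf h)
  have hA := fun {u v : V} (huv : u ≠ v) (hu : u ∈ e ∨ u ∈ f) (hv : v ∈ e ∨ v ∈ f) =>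
    P.AA_ne he hf hx huv hu hv
  have hq := P.quad e he f hf hx
  have h3 := P.diag _ he
  have h4 := P.diag _ hf
  clear he hf hx
  induction e using Sym2.ind with
  | _ p q =>
    induction f using Sym2.ind with
    | _ u w =>
      rw [Sym2.mk_isDiag_iff] at h3 h4
      obtain ⟨h5, h6, h7, h8⟩ := not_meets_mk hm
      rw [AX_mk, AX_mk, sX_mk, sX_mk] at hq
      obtain ⟨A, hAd⟩ : ∃ A : V → Finset V, A = AA Z (fun z => {a z, b z, c z}) := ⟨_, rfl⟩
      rw [← hAd] at hq hA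
      have e1 := hA h3 (Or.inl (by simp)) (Or.inl (by simp))
      have e2 := hA h5 (Or.inl (by simp)) (Or.inr (by simp))
      have e3 := hA h6 (Or.inl (by simp)) (Or.inr (by simp))
      have e4 := hA h7 (Or.inl (by simp)) (Or.inr (by simp))
      have e5 := hA h8 (Or.inl (by simp)) (Or.inr (by simp))
      have e6 := hA h4 (Or.inr (by simp)) (Or.inr (by simp))
      have h0 : ∀ t : V → ℤˣ, cost (fl Z a b c t) s(p, q) s(u, w) =
          3 / 8 - ss Z p * ss Z q / 8 * (chi (A p) t * chi (A q) t) -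
            ss Z u * ss Z w / 8 * (chi (A u) t * chi (A w) t) +
            ss Z p * ss Z u / 8 * (chi (A p) t * chi (A u) t) +
            ss Z p * ss Z w / 8 * (chi (A p) t * chi (A w) t) +
            ss Z q * ss Z u / 8 * (chi (A q) t * chi (A u) t) +
            ss Z q * ss Z w / 8 * (chi (A q) t * chi (A w) t) +
            3 * (ss Z p * ss Z q * (ss Z u * ss Z w)) / 8 *
              (chi (A p ∆ A q) t * chi (A u ∆ A w) t) := by
        intro t
        rw [cost_mk, P.sg_fl, P.sg_fl, P.sg_fl, P.sg_fl, ← hAd, ← chi_mul, ← chi_mul]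
        ring
      rw [Finset.sum_congr rfl fun t _ => h0 t]
      simp only [Finset.sum_add_distrib, Finset.sum_sub_distrib, ← Finset.mul_sum]
      rw [chi_orth e1, chi_orth e2, chi_orth e3, chi_orth e4, chi_orth e5, chi_orth e6,
        Finset.sum_const, nsmul_eq_mul]
      by_cases h9 : A p ∆ A q = A u ∆ A w
      · rw [hq h9]
        have h10 := chi_sum_nonneg (A p ∆ A q) (A u ∆ A w)
        linarith
      · rw [chi_orth h9]
        linarith

theorem card_chosen [Fintype V] (P : Priv2 E x Z a b c) :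
    (Priv.chosen Z a b c).card = 2 * Z.card := by
  unfold Priv.chosen
  rw [Finset.card_union_of_disjoint, Finset.card_image_of_injOn, Finset.card_image_of_injOn]
  · ring
  · intro z hz z' hz' h
    have h1 : (s(b z, c z), s(z, a z)) = (s(b z', c z'), s(z', a z')) := h
    rw [Prod.mk.injEq] at h1
    have h2 : z' ∈ s(z, a z) := by rw [h1.2]; simp
    rw [Sym2.mem_iff] at h2
    rcases h2 with h2 | h2
    · exact h2.symm
    · exact absurd (h2 ▸ hz') (P.notMem z hz).1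
  · intro z hz z' hz' h
    have h1 : (s(z, a z), s(b z, c z)) = (s(z', a z'), s(b z', c z')) := h
    rw [Prod.mk.injEq] at h1
    have h2 : z' ∈ s(z, a z) := by rw [h1.1]; simp
    rw [Sym2.mem_iff] at h2
    rcases h2 with h2 | h2
    · exact h2.symm
    · exact absurd (h2 ▸ hz') (P.notMem z hz).1
  · rw [Finset.disjoint_left]
    intro p hp hp'
    rw [Finset.mem_image] at hp hp'
    obtain ⟨z, hz, rfl⟩ := hp
    obtain ⟨z', hz', h⟩ := hp'
    rw [Prod.mk.injEq] at h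
    have h2 : z' ∈ s(b z, c z) := by rw [← h.2]; simp
    rw [Sym2.mem_iff] at h2
    rcases h2 with h2 | h2
    · exact absurd (h2 ▸ hz') (P.notMem z hz).2.1
    · exact absurd (h2 ▸ hz') (P.notMem z hz).2.2

theorem chosen_zero [Fintype V] (P : Priv2 E x Z a b c) {p : Sym2 V × Sym2 V}
    (hp : p ∈ Priv.chosen Z a b c) : ∑ t : V → ℤˣ, cost (fl Z a b c t) p.1 p.2 = 0 := by
  unfold Priv.chosen at hp
  rw [Finset.mem_union, Finset.mem_image, Finset.mem_image] at hp
  rcases hp with ⟨z, hz, rfl⟩ | ⟨z, hz, rfl⟩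
  · exact P.zero hz
  · rw [← P.zero hz]
    exact Finset.sum_congr rfl fun t _ => cost_symm _ _ _

theorem chosen_one [Fintype V] (P : Priv2 E x Z a b c) {p : Sym2 V × Sym2 V}
    (hp : p ∈ Priv.chosen Z a b c) : p ∈ E ×ˢ E ∧ 1 ≤ x p.1 p.2 := by
  unfold Priv.chosen at hp
  rw [Finset.mem_union, Finset.mem_image, Finset.mem_image] at hp
  rcases hp with ⟨z, hz, rfl⟩ | ⟨z, hz, rfl⟩
  · exact ⟨Finset.mem_product.2 ⟨P.memA z hz, P.memB z hz⟩,
      (P.one _ _).resolve_left (P.cross z hz)⟩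
  · refine ⟨Finset.mem_product.2 ⟨P.memB z hz, P.memA z hz⟩, ?_⟩
    simp only
    rw [P.symm]
    exact (P.one _ _).resolve_left (P.cross z hz)

theorem main [Fintype V] (P : Priv2 E x Z a b c) :
    ∃ s : V → ℤˣ, ∑ e ∈ E, ∑ f ∈ E, x e f * cost s e f ≤
      3 / 8 * (∑ e ∈ E, ∑ f ∈ E, x e f - 2 * (Z.card : ℝ)) := by
  set M : ℝ := ((Finset.univ : Finset (V → ℤˣ)).card : ℝ) with hM
  have hM0 : 0 ≤ M := Nat.cast_nonneg _
  have hx0 : ∀ e f, 0 ≤ x e f := fun e f => by
    rcases P.one e f with h | h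
    · rw [h]
    · linarith
  have hpair : ∀ p ∈ E ×ˢ E, x p.1 p.2 * ∑ t : V → ℤˣ, cost (fl Z a b c t) p.1 p.2 ≤
      3 / 8 * M * (x p.1 p.2 - if p ∈ Priv.chosen Z a b c then 1 else 0) := by
    intro p hp
    rw [Finset.mem_product] at hp
    by_cases h1 : p ∈ Priv.chosen Z a b c
    · rw [if_pos h1, P.chosen_zero h1, mul_zero]
      have h2 := (P.chosen_one h1).2
      exact mul_nonneg (by positivity) (by linarith)
    · rw [if_neg h1, sub_zero]
      by_cases h2 : x p.1 p.2 = 0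
      · rw [h2]
        simp
      · have h3 := mul_le_mul_of_nonneg_left (P.pair hp.1 hp.2 h2) (hx0 p.1 p.2)
        linarith
  have htot : ∑ t : V → ℤˣ, ∑ e ∈ E, ∑ f ∈ E, x e f * cost (fl Z a b c t) e f ≤
      ∑ _t : V → ℤˣ, 3 / 8 * (∑ e ∈ E, ∑ f ∈ E, x e f - 2 * (Z.card : ℝ)) := by
    have h1 : ∑ t : V → ℤˣ, ∑ e ∈ E, ∑ f ∈ E, x e f * cost (fl Z a b c t) e f =
        ∑ p ∈ E ×ˢ E, x p.1 p.2 * ∑ t : V → ℤˣ, cost (fl Z a b c t) p.1 p.2 := by
      rw [Finset.sum_congr rfl fun t _ =>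
        (Finset.sum_product' E E fun e f => x e f * cost (fl Z a b c t) e f).symm,
        Finset.sum_comm]
      refine Finset.sum_congr rfl fun p _ => ?_
      rw [Finset.mul_sum]
    have h2 : ∑ p ∈ E ×ˢ E, (x p.1 p.2 - if p ∈ Priv.chosen Z a b c then (1 : ℝ) else 0) =
        ∑ e ∈ E, ∑ f ∈ E, x e f - 2 * (Z.card : ℝ) := by
      rw [Finset.sum_sub_distrib, ← Finset.sum_filter]
      have h3 : (E ×ˢ E).filter (fun p => p ∈ Priv.chosen Z a b c) = Priv.chosen Z a b c := by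
        ext p
        rw [Finset.mem_filter]
        exact ⟨fun h => h.2, fun h => ⟨(P.chosen_one h).1, h⟩⟩
      rw [h3, Finset.sum_product' E E fun e f => x e f, Finset.sum_const, nsmul_eq_mul, mul_one,
        P.card_chosen]
      push_cast
      ring
    rw [h1, Finset.sum_const, nsmul_eq_mul, ← hM, ← h2]
    refine (Finset.sum_le_sum hpair).trans (le_of_eq ?_)
    rw [← Finset.mul_sum]
    ring
  obtain ⟨t, _, ht⟩ := Finset.exists_le_of_sum_le (s := (Finset.univ : Finset (V → ℤˣ)))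
    ⟨fun _ => 1, Finset.mem_univ _⟩ htot
  exact ⟨fl Z a b c t, ht⟩

end Priv2

end H90.BX
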