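import Pool.Agent.H90.BX.Lin

/-!
# [H90 BX LINSEL] the choice of the crossing pairs

Greedy: the vertices `z ∈ Z` are treated one after the other. A crossing pair `p` at `z` is forbidden if one of its other vertices is
in `Z`, if the set of its other vertices is the set of a vertex `z' ∈ Z` in a common crossing pair with `z`, or if it is one of the
sets `AX p'.2 ∆ AA a`, `p' = (s(z, a), f)` a crossing pair at `z` with another vertex in `Z`. Every set forbids at most three
crossing pairs, so at most `7 ∑ N z z'` crossing pairs at `z` are forbidden, `N z z'` the number of crossing pairs at `z` with `z'`.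
-/

set_option autoImplicit false

open Set
open scoped Classical symmDiff

noncomputable section

namespace H90.BX

open H29.BP H29.BT

variable {V : Type} [Fintype V] {G : SimpleGraph V}

/-- the other vertices of a crossing pair at `z` -/
def oth (p : Sym2 V × Sym2 V) (z : V) : Finset V := (vs p.1 ∪ vs p.2).erase z

theorem shape (D : Drawing G) (hD : D.cr = CR G) {z : V} {p : Sym2 V × Sym2 V}
    (hp : p ∈ pairsAt D z) : ∃ a c d : V, p = (s(z, a), s(c, d)) ∧ z ≠ a ∧ z ≠ c ∧ z ≠ d ∧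
      a ≠ c ∧ a ≠ d ∧ c ≠ d ∧ oth p z = {a, c, d} := by
  obtain ⟨⟨he, hf⟩, hz, hx⟩ := (mem_pairsAt D z).1 hp
  obtain ⟨e, f⟩ := p
  simp only at he hf hz hx
  obtain ⟨a, rfl⟩ := Sym2.mem_iff_exists.1 hz
  induction f using Sym2.ind with
  | _ c d =>
    have h1 : ¬ Meets s(z, a) s(c, d) := by
      rintro ⟨u, hu1, hu2⟩
      exact hx (opt_x D hD he hf hu1 hu2)
    have h2 := G.not_isDiag_of_mem_edgeSet (mem_ES.1 he)
    have h3 := G.not_isDiag_of_mem_edgeSet (mem_ES.1 hf)
    rw [Sym2.mk_isDiag_iff] at h2 h3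
    obtain ⟨h4, h5, h6, h7⟩ := not_meets_mk h1
    refine ⟨a, c, d, rfl, h2, h4, h5, h6, h7, h3, ?_⟩
    unfold oth
    simp only
    rw [vs_mk, vs_mk]
    ext v
    simp only [Finset.mem_erase, Finset.mem_union, Finset.mem_insert, Finset.mem_singleton]
    constructor
    · rintro ⟨h, (h' | h') | h'⟩
      · exact absurd h' h
      · exact Or.inl h'
      · exact Or.inr h'
    · rintro (h | h | h)
      · exact ⟨fun h' => h2 (h'.symm.trans h), Or.inl (Or.inr h)⟩
      · exact ⟨fun h' => h4 (h'.symm.trans h), Or.inr (Or.inl h)⟩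
      · exact ⟨fun h' => h5 (h'.symm.trans h), Or.inr (Or.inr h)⟩

theorem fiber (D : Drawing G) (hD : D.cr = CR G) (z : V) (S : Finset V) :
    ((pairsAt D z).filter fun p => oth p z = S).card ≤ 3 := by
  rcases ((pairsAt D z).filter fun p => oth p z = S).eq_empty_or_nonempty with h | ⟨p₀, hp₀⟩
  · rw [h]
    simp
  · rw [Finset.mem_filter] at hp₀
    obtain ⟨x, y, w, -, -, -, -, hxy, hxw, hyw, hS⟩ := shape D hD hp₀.1
    rw [hp₀.2] at hS
    have hsub : ((pairsAt D z).filter fun p => oth p z = S) ⊆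
        {(s(z, x), s(y, w)), (s(z, y), s(x, w)), (s(z, w), s(x, y))} := by
      intro p hp
      rw [Finset.mem_filter] at hp
      obtain ⟨a, c, d, rfl, -, -, -, hac, had, hcd, hS'⟩ := shape D hD hp.1
      rw [hp.2, hS] at hS'
      have ha : a ∈ ({x, y, w} : Finset V) := by rw [hS']; simp
      have hc : c ∈ ({x, y, w} : Finset V) := by rw [hS']; simp
      have hd : d ∈ ({x, y, w} : Finset V) := by rw [hS']; simp
      clear hS' hp hS
      simp only [Finset.mem_insert, Finset.mem_singleton] at ha hc hd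
      simp only [Finset.mem_insert, Finset.mem_singleton, Prod.mk.injEq]
      rcases ha with ha | ha | ha <;> rcases hc with hc | hc | hc <;> rcases hd with hd | hd | hd <;>
        rw [ha, hc] at hac <;> rw [ha, hd] at had <;> rw [hc, hd] at hcd <;> rw [ha, hc, hd] <;>
        first
          | exact absurd rfl hac
          | exact absurd rfl had
          | exact absurd rfl hcd
          | exact Or.inl ⟨rfl, rfl⟩
          | exact Or.inl ⟨rfl, Sym2.eq_swap⟩
          | exact Or.inr (Or.inl ⟨rfl, rfl⟩)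
          | exact Or.inr (Or.inl ⟨rfl, Sym2.eq_swap⟩)
          | exact Or.inr (Or.inr ⟨rfl, rfl⟩)
          | exact Or.inr (Or.inr ⟨rfl, Sym2.eq_swap⟩)
    refine (Finset.card_le_card hsub).trans ?_
    refine (Finset.card_insert_le _ _).trans ?_
    exact Nat.add_le_add_right (Finset.card_insert_le _ _) 1

/-- the number of the crossing pairs at `z` with `z'` -/
def NN (D : Drawing G) (z z' : V) : ℕ := ((pairsAt D z).filter fun p => z' ∈ oth p z).card

/-- the crossing pairs at `z` with another vertex in `Z` -/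
def KK (D : Drawing G) (Z : Finset V) (z : V) : Finset (Sym2 V × Sym2 V) :=
  (pairsAt D z).filter fun p => ¬ Disjoint (oth p z) Z

theorem card_KK (D : Drawing G) (Z : Finset V) (z : V) :
    (KK D Z z).card ≤ ∑ z' ∈ Z.erase z, NN D z z' := by
  have h1 : KK D Z z ⊆ (Z.erase z).biUnion fun z' => (pairsAt D z).filter fun p => z' ∈ oth p z := by
    intro p hp
    unfold KK at hp
    rw [Finset.mem_filter, Finset.not_disjoint_iff] at hp
    obtain ⟨hp, z', h1, h2⟩ := hp
    rw [Finset.mem_biUnion]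
    exact ⟨z', Finset.mem_erase.2 ⟨(Finset.mem_erase.1 h1).1, h2⟩, Finset.mem_filter.2 ⟨hp, h1⟩⟩
  exact (Finset.card_le_card h1).trans Finset.card_biUnion_le

theorem sum_NN (D : Drawing G) (hD : D.cr = CR G) (I : Finset V) (z : V) :
    ∑ z' ∈ I, NN D z z' ≤ 3 * (pairsAt D z).card := by
  have h1 : ∀ z' ∈ I, NN D z z' = ∑ p ∈ pairsAt D z, if z' ∈ oth p z then 1 else 0 := by
    intro z' _
    unfold NN
    rw [Finset.card_filter]
  rw [Finset.sum_congr rfl h1, Finset.sum_comm]
  have h2 : ∀ p ∈ pairsAt D z, (∑ z' ∈ I, if z' ∈ oth p z then 1 else 0) ≤ 3 := by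
    intro p hp
    rw [← Finset.card_filter]
    have h3 : (I.filter fun z' => z' ∈ oth p z) ⊆ oth p z := fun v hv => (Finset.mem_filter.1 hv).2
    refine (Finset.card_le_card h3).trans ?_
    obtain ⟨a, c, d, -, -, -, -, -, -, -, hS⟩ := shape D hD hp
    rw [hS]
    exact Finset.card_le_three
  refine (Finset.sum_le_sum h2).trans (le_of_eq ?_)
  rw [Finset.sum_const, smul_eq_mul, mul_comm]

theorem ss_mem {Z : Finset V} {v : V} (h : v ∈ Z) : ss Z v = -1 := by
  unfold ss
  rw [if_pos h]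

theorem ss_not {Z : Finset V} {v : V} (h : v ∉ Z) : ss Z v = 1 := by
  unfold ss
  rw [if_neg h]

theorem AA_mem {Z : Finset V} {T : V → Finset V} {v : V} (h : v ∈ Z) : AA Z T v = T v := by
  unfold AA
  rw [if_pos h]

theorem AA_not {Z : Finset V} {T : V → Finset V} {v : V} (h : v ∉ Z) : AA Z T v = {v} := by
  unfold AA
  rw [if_neg h]

theorem AX_congr {Z : Finset V} {T T' : V → Finset V} {e : Sym2 V}
    (h : ∀ v ∈ e, v ∈ Z → T v = T' v) : AX Z T e = AX Z T' e := by
  induction e using Sym2.ind with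
  | _ a b =>
    rw [AX_mk, AX_mk]
    have h1 : ∀ v ∈ s(a, b), AA Z T v = AA Z T' v := by
      intro v hv
      by_cases hz : v ∈ Z
      · rw [AA_mem hz, AA_mem hz, h v hv hz]
      · rw [AA_not hz, AA_not hz]
    rw [h1 a (by simp), h1 b (by simp)]

theorem quad_zero (Z : Finset V) (T : V → Finset V) {e f : Sym2 V} (he : ¬ e.IsDiag)
    (hm : ¬ Meets e f) (h1 : ∀ v ∈ e, v ∉ Z) (h2 : ∀ v ∈ f, v ∉ Z) : AX Z T e ≠ AX Z T f := by
  induction e using Sym2.ind with
  | _ p q =>
    induction f using Sym2.ind with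
    | _ u w =>
      obtain ⟨h5, h6, h7, h8⟩ := not_meets_mk hm
      rw [Sym2.mk_isDiag_iff] at he
      rw [AX_mk, AX_mk, AA_not (h1 p (by simp)), AA_not (h1 q (by simp)), AA_not (h2 u (by simp)),
        AA_not (h2 w (by simp))]
      intro h
      have h9 : p ∈ ({p} : Finset V) ∆ {q} := by
        rw [Finset.mem_symmDiff]
        left
        simp [he]
      rw [h, Finset.mem_symmDiff] at h9
      simp [h5, h6] at h9

theorem quad_one (D : Drawing G) (hD : D.cr = CR G) {Z : Finset V} {z : V} (hz : z ∈ Z)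
    {p : Sym2 V × Sym2 V} (hp : p ∈ pairsAt D z) (hd : Disjoint (oth p z) Z) :
    sX Z p.1 * sX Z p.2 = -1 := by
  obtain ⟨a, c, d, rfl, -, -, -, -, -, -, hS⟩ := shape D hD hp
  rw [hS] at hd
  have h1 : ∀ v ∈ ({a, c, d} : Finset V), v ∉ Z := fun v hv hv' =>
    Finset.disjoint_left.1 hd hv hv'
  simp only
  rw [sX_mk, sX_mk, ss_mem hz, ss_not (h1 a (by simp)), ss_not (h1 c (by simp)),
    ss_not (h1 d (by simp))]
  norm_num

theorem choose_pr (D : Drawing G) (hD : D.cr = CR G) (Z : Finset V)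
    (hZ : ∀ z ∈ Z, 7 * ∑ z' ∈ Z.erase z, NN D z z' < (pairsAt D z).card) (Y : Finset V) :
    Y ⊆ Z → ∃ pr : V → Sym2 V × Sym2 V,
      (∀ z ∈ Y, pr z ∈ pairsAt D z ∧ Disjoint (oth (pr z) z) Z) ∧
      (∀ z ∈ Y, ∀ z' ∈ Y, z ≠ z' → Conf D z z' → oth (pr z) z ≠ oth (pr z') z') ∧
      (∀ e ∈ ES G, ∀ f ∈ ES G, D.x e f ≠ 0 → (∀ v ∈ Z, (v ∈ e ∨ v ∈ f) → v ∈ Y) →
        AX Z (fun v => oth (pr v) v) e = AX Z (fun v => oth (pr v) v) f →
        sX Z e * sX Z f = -1) := by
  induction Y using Finset.induction_on with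
  | empty =>
    intro _
    refine ⟨fun v => (s(v, v), s(v, v)), by simp, by simp, ?_⟩
    intro e he f hf hx hv hA
    exfalso
    refine quad_zero Z _ (G.not_isDiag_of_mem_edgeSet (mem_ES.1 he)) ?_ ?_ ?_ hA
    · rintro ⟨u, hu1, hu2⟩
      exact hx (opt_x D hD he hf hu1 hu2)
    · intro v hve hvZ
      exact absurd (hv v hvZ (Or.inl hve)) (by simp)
    · intro v hvf hvZ
      exact absurd (hv v hvZ (Or.inr hvf)) (by simp)
  | @insert z Y hzY ih =>
    intro hYZ
    have hz : z ∈ Z := hYZ (Finset.mem_insert_self _ _)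
    obtain ⟨pr, h1, h2, h3⟩ := ih ((Finset.subset_insert _ _).trans hYZ)
    obtain ⟨T, hT⟩ : ∃ T : V → Finset V, T = fun v => oth (pr v) v := ⟨_, rfl⟩
    -- the forbidden pairs
    set B2 := (KK D Z z).biUnion fun p => (pairsAt D z).filter fun p₀ =>
      oth p₀ z = AX Z T p.1 ∆ AA Z T z ∆ AX Z T p.2 with hB2
    set B3 := ((Z.erase z).filter fun z' => NN D z z' ≠ 0).biUnion fun z' =>
      (pairsAt D z).filter fun p₀ => oth p₀ z = T z' with hB3
    have hc2 : B2.card ≤ (KK D Z z).card * 3 :=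
      Finset.card_biUnion_le_card_mul _ _ 3 fun p _ => fiber D hD z _
    have hc3 : B3.card ≤ (∑ z' ∈ Z.erase z, NN D z z') * 3 := by
      refine (Finset.card_biUnion_le_card_mul _ _ 3 fun z' _ => fiber D hD z _).trans ?_
      refine Nat.mul_le_mul_right 3 ?_
      rw [Finset.card_filter]
      refine Finset.sum_le_sum fun z' _ => ?_
      split_ifs with h
      · omega
      · omega
    have hc1 := card_KK D Z z
    obtain ⟨p₀, hp₀, hp₀n⟩ : ∃ p₀ ∈ pairsAt D z, p₀ ∉ KK D Z z ∪ (B2 ∪ B3) := by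
      refine Finset.exists_mem_notMem_of_card_lt_card ?_
      refine lt_of_le_of_lt ?_ (hZ z hz)
      refine (Finset.card_union_le _ _).trans ?_
      have := Finset.card_union_le B2 B3
      omega
    rw [Finset.mem_union, Finset.mem_union, not_or, not_or] at hp₀n
    obtain ⟨hn1, hn2, hn3⟩ := hp₀n
    have hdis : Disjoint (oth p₀ z) Z := by
      by_contra h
      exact hn1 (Finset.mem_filter.2 ⟨hp₀, h⟩)
    obtain ⟨pr', hpr'⟩ : ∃ pr' : V → Sym2 V × Sym2 V, pr' = Function.update pr z p₀ := ⟨_, rfl⟩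
    have hpz : pr' z = p₀ := by rw [hpr', Function.update_self]
    have hpv : ∀ v, v ≠ z → pr' v = pr v := fun v hv => by
      rw [hpr', Function.update_of_ne hv]
    obtain ⟨T', hT'⟩ : ∃ T' : V → Finset V, T' = fun v => oth (pr' v) v := ⟨_, rfl⟩
    have hTz : T' z = oth p₀ z := by rw [hT']; simp only; rw [hpz]
    have hTv : ∀ v, v ≠ z → T' v = T v := fun v hv => by
      rw [hT', hT]
      simp only
      rw [hpv v hv]
    -- pairs of conflicts
    have hconf : ∀ v ∈ Y, Conf D z v → oth p₀ z ≠ oth (pr v) v := by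
      intro v hv hc h
      have hvz : v ≠ z := fun h' => hzY (h' ▸ hv)
      apply hn3
      rw [hB3, Finset.mem_biUnion]
      refine ⟨v, Finset.mem_filter.2 ⟨Finset.mem_erase.2
        ⟨hvz, hYZ (Finset.mem_insert_of_mem hv)⟩, ?_⟩, Finset.mem_filter.2 ⟨hp₀, ?_⟩⟩
      · obtain ⟨p, hp, hp'⟩ := hc
        have : 0 < NN D z v := by
          refine Finset.card_pos.2 ⟨p, Finset.mem_filter.2 ⟨hp, ?_⟩⟩
          refine Finset.mem_erase.2 ⟨hvz, ?_⟩
          rw [Finset.mem_union]
          rcases hp' with h' | h'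
          · exact Or.inl (Finset.mem_filter.2 ⟨Finset.mem_univ _, h'⟩)
          · exact Or.inr (Finset.mem_filter.2 ⟨Finset.mem_univ _, h'⟩)
        omega
      · rw [hT]
        exact h
    -- the crossing pairs with `z`
    have hquad : ∀ p ∈ pairsAt D z, AX Z T' p.1 = AX Z T' p.2 → sX Z p.1 * sX Z p.2 = -1 := by
      intro p hp hA
      by_cases hd : Disjoint (oth p z) Z
      · exact quad_one D hD hz hp hd
      · exfalso
        apply hn2
        rw [hB2, Finset.mem_biUnion]
        refine ⟨p, Finset.mem_filter.2 ⟨hp, hd⟩, Finset.mem_filter.2 ⟨hp₀, ?_⟩⟩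
        obtain ⟨a, c, d, hpe, hza, hzc, hzd, -, -, -, -⟩ := shape D hD hp
        have e1 : p.1 = s(z, a) := by rw [hpe]
        have e2 : p.2 = s(c, d) := by rw [hpe]
        have e3 : AX Z T' p.2 = AX Z T p.2 := by
          refine AX_congr fun v hv _ => hTv v ?_
          rintro rfl
          rw [e2, Sym2.mem_iff] at hv
          rcases hv with hv | hv
          · exact hzc hv
          · exact hzd hv
        have e4 : AA Z T' z = oth p₀ z := by rw [AA_mem hz, hTz]
        have e5 : AA Z T' a = AA Z T a := by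
          by_cases haZ : a ∈ Z
          · rw [AA_mem haZ, AA_mem haZ, hTv a hza.symm]
          · rw [AA_not haZ, AA_not haZ]
        rw [e3, e1, AX_mk, e4, e5] at hA
        rw [← hA, e1, AX_mk]
        have e6 : AA Z T z ∆ AA Z T a ∆ AA Z T z = AA Z T a := by
          rw [symmDiff_comm (AA Z T z) (AA Z T a), symmDiff_symmDiff_cancel_right]
        rw [e6, symmDiff_comm (oth p₀ z) (AA Z T a), symmDiff_symmDiff_cancel_left]
    refine ⟨pr', ?_, ?_, ?_⟩
    · intro v hv
      rcases Finset.mem_insert.1 hv with rfl | hv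
      · rw [hpz]
        exact ⟨hp₀, hdis⟩
      · have hvz : v ≠ z := fun h' => hzY (h' ▸ hv)
        rw [hpv v hvz]
        exact h1 v hv
    · intro u hu v hv huv hc
      rcases Finset.mem_insert.1 hu with hu' | hu'
      · rcases Finset.mem_insert.1 hv with hv' | hv'
        · exact absurd (hu'.trans hv'.symm) huv
        · have hvz : v ≠ z := fun h' => hzY (h' ▸ hv')
          rw [hu'] at hc ⊢
          rw [hpz, hpv v hvz]
          exact hconf v hv' hc
      · have huz : u ≠ z := fun h' => hzY (h' ▸ hu')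
        rcases Finset.mem_insert.1 hv with hv' | hv'
        · rw [hv'] at hc ⊢
          rw [hpz, hpv u huz]
          exact (hconf u hu' hc.symm).symm
        · have hvz : v ≠ z := fun h' => hzY (h' ▸ hv')
          rw [hpv v hvz, hpv u huz]
          exact h2 u hu' v hv' huv hc
    · rw [← hT']
      rw [← hT] at h3
      intro e he f hf hx hv hA
      by_cases hze : z ∈ e
      · exact hquad (e, f) ((mem_pairsAt D z).2 ⟨⟨he, hf⟩, hze, hx⟩) hA
      by_cases hzf : z ∈ f
      · rw [mul_comm]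
        refine hquad (f, e) ((mem_pairsAt D z).2 ⟨⟨hf, he⟩, hzf, ?_⟩) hA.symm
        show D.x f e ≠ 0
        rw [D.x_comm]
        exact hx
      · have e1 : AX Z T' e = AX Z T e := AX_congr fun v hv' _ => hTv v (fun h => hze (h ▸ hv'))
        have e2 : AX Z T' f = AX Z T f := AX_congr fun v hv' _ => hTv v (fun h => hzf (h ▸ hv'))
        rw [e1, e2] at hA
        refine h3 e he f hf hx (fun v hvZ hvef => ?_) hA
        refine Finset.mem_of_mem_insert_of_ne (hv v hvZ hvef) ?_
        rintro rfl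
        rcases hvef with h | h
        · exact hze h
        · exact hzf h

/-- a set of vertices with few common crossing pairs gives a gain -/
theorem gain_of_sparse (D : Drawing G) (hD : D.cr = CR G) (Z : Finset V)
    (hZ : ∀ z ∈ Z, 7 * ∑ z' ∈ Z.erase z, NN D z z' < (pairsAt D z).card) :
    8 * (CR2 G : ℝ) + 3 * Z.card ≤ 3 * CR G := by
  obtain ⟨pr, h1, h2, h3⟩ := choose_pr D hD Z hZ Z (Finset.Subset.refl _)
  have hch : ∀ z : V, ∃ q : V × V × V, z ∈ Z →
      pr z = (s(z, q.1), s(q.2.1, q.2.2)) ∧ oth (pr z) z = {q.1, q.2.1, q.2.2} := by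
    intro z
    by_cases hz : z ∈ Z
    · obtain ⟨a, c, d, hp, -, -, -, -, -, -, hS⟩ := shape D hD (h1 z hz).1
      exact ⟨(a, c, d), fun _ => ⟨hp, hS⟩⟩
    · exact ⟨(z, z, z), fun h => absurd h hz⟩
  choose q hq using hch
  have hconf : ∀ e ∈ ES G, ∀ f ∈ ES G, D.x e f ≠ 0 → ∀ z : V, ∀ z' : V, (z ∈ e ∨ z ∈ f) →
      (z' ∈ e ∨ z' ∈ f) → Conf D z z' := by
    rintro e he f hf hx z z' (hz | hz) hz'
    · exact ⟨(e, f), (mem_pairsAt D z).2 ⟨⟨he, hf⟩, hz, hx⟩, hz'⟩
    · refine ⟨(f, e), (mem_pairsAt D z).2 ⟨⟨hf, he⟩, hz, ?_⟩, hz'.symm⟩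
      show D.x f e ≠ 0
      rw [D.x_comm]
      exact hx
  have hmem : ∀ z ∈ Z, s(z, (q z).1) ∈ ES G ∧ s((q z).2.1, (q z).2.2) ∈ ES G ∧
      D.x s(z, (q z).1) s((q z).2.1, (q z).2.2) ≠ 0 := by
    intro z hz
    have h4 := (mem_pairsAt D z).1 (h1 z hz).1
    rw [(hq z hz).1] at h4
    exact ⟨h4.1.1, h4.1.2, h4.2.2⟩
  have P : Priv2 (ES G) (fun e f => (D.x e f : ℝ)) Z (fun z => (q z).1) (fun z => (q z).2.1)
      (fun z => (q z).2.2) := by
    refine ⟨fun e he => G.not_isDiag_of_mem_edgeSet (mem_ES.1 he), fun e f => ?_, fun e f => ?_,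
      fun e he f hf h => ?_, fun z hz => (hmem z hz).1, fun z hz => (hmem z hz).2.1,
      fun z hz => Nat.cast_ne_zero.2 (hmem z hz).2.2, fun z hz => ?_, ?_, ?_⟩
    · rw [D.x_comm]
    · rcases Nat.eq_zero_or_pos (D.x e f) with h | h
      · left
        rw [h, Nat.cast_zero]
      · right
        exact_mod_cast h
    · obtain ⟨u, hue, huf⟩ := h
      rw [opt_x D hD he hf hue huf, Nat.cast_zero]
    · have h4 := (h1 z hz).2
      rw [(hq z hz).2] at h4
      refine ⟨fun h => ?_, fun h => ?_, fun h => ?_⟩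
      · exact Finset.disjoint_left.1 h4 (by simp) h
      · exact Finset.disjoint_left.1 h4 (by simp) h
      · exact Finset.disjoint_left.1 h4 (by simp) h
    · intro e he f hf hx z hz z' hz' hne h4 h5
      rw [← (hq z hz).2, ← (hq z' hz').2]
      exact h2 z hz z' hz' hne (hconf e he f hf (fun h => hx (by rw [h, Nat.cast_zero])) z z' h4 h5)
    · intro e he f hf hx hA
      refine h3 e he f hf (fun h => hx (by rw [h, Nat.cast_zero])) (fun v hv _ => hv) ?_
      rw [AX_congr (T := fun v => oth (pr v) v)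
          (T' := fun z => {(q z).1, (q z).2.1, (q z).2.2}) (fun v _ hv => (hq v hv).2),
        AX_congr (T := fun v => oth (pr v) v)
          (T' := fun z => {(q z).1, (q z).2.1, (q z).2.2}) (fun v _ hv => (hq v hv).2)]
      exact hA
  obtain ⟨s, hs⟩ := P.main
  have h4 := CR2_le_cost D s
  have h5 : ∑ e ∈ ES G, ∑ f ∈ ES G, (D.x e f : ℝ) = 2 * CR G := by
    rw [← hD]
    exact_mod_cast D.two_mul_cr.symm
  rw [h5] at hs
  linarith

/-- a linear gain in the number of the vertices on crossed edges -/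
theorem linear (D : Drawing G) (hD : D.cr = CR G) :
    8 * (CR2 G : ℝ) + ((WW D).card : ℝ) / 28 ≤ 3 * CR G := by
  obtain ⟨d, hd⟩ : ∃ d : V → ℝ, d = fun z => ((pairsAt D z).card : ℝ) := ⟨_, rfl⟩
  have hdpos : ∀ z ∈ WW D, 0 < d z := by
    intro z hz
    simp only [hd]
    exact_mod_cast Finset.card_pos.2 (Finset.mem_filter.1 hz).2
  obtain ⟨B, hB, hval⟩ := subset_half (WW D) (fun _ => (1 : ℝ)) (fun z z' => 7 * (NN D z z' : ℝ) / d z)
    (1 / 42) (by norm_num) (by norm_num)
  have h1 : ∑ b ∈ WW D, ∑ b' ∈ (WW D).erase b, 7 * (NN D b b' : ℝ) / d b ≤ 21 * (WW D).card := by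
    have h2 : ∀ b ∈ WW D, ∑ b' ∈ (WW D).erase b, 7 * (NN D b b' : ℝ) / d b ≤ 21 := by
      intro b hb
      rw [← Finset.sum_div, ← Finset.mul_sum, div_le_iff₀ (hdpos b hb)]
      have h3 : (∑ b' ∈ (WW D).erase b, (NN D b b' : ℝ)) ≤ 3 * d b := by
        simp only [hd]
        exact_mod_cast sum_NN D hD ((WW D).erase b) b
      linarith
    refine (Finset.sum_le_sum h2).trans (le_of_eq ?_)
    rw [Finset.sum_const, nsmul_eq_mul]
    ring
  rw [Finset.sum_const, nsmul_eq_mul, mul_one, Finset.sum_const, nsmul_eq_mul, mul_one] at hval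
  set Z := B.filter fun b => ∑ b' ∈ B.erase b, 7 * (NN D b b' : ℝ) / d b < 1 with hZdef
  have hZB : Z ⊆ B := Finset.filter_subset _ _
  have h2 : (B.card : ℝ) - ∑ b ∈ B, ∑ b' ∈ B.erase b, 7 * (NN D b b' : ℝ) / d b ≤ Z.card := by
    have h3 : (B.card : ℝ) - ∑ b ∈ B, ∑ b' ∈ B.erase b, 7 * (NN D b b' : ℝ) / d b =
        ∑ b ∈ B, (1 - ∑ b' ∈ B.erase b, 7 * (NN D b b' : ℝ) / d b) := by
      rw [Finset.sum_sub_distrib, Finset.sum_const, nsmul_eq_mul, mul_one]
    have h4 : (Z.card : ℝ) = ∑ b ∈ B, if ∑ b' ∈ B.erase b, 7 * (NN D b b' : ℝ) / d b < 1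
        then (1 : ℝ) else 0 := by
      rw [hZdef, Finset.card_filter]
      push_cast
      rfl
    rw [h3, h4]
    refine Finset.sum_le_sum fun b hb => ?_
    have h5 : 0 ≤ ∑ b' ∈ B.erase b, 7 * (NN D b b' : ℝ) / d b :=
      Finset.sum_nonneg fun b' _ => div_nonneg (by positivity) (hdpos b (hB hb)).le
    split_ifs with h6
    · linarith
    · linarith
  have hZ : ∀ z ∈ Z, 7 * ∑ z' ∈ Z.erase z, NN D z z' < (pairsAt D z).card := by
    intro z hz
    have hz' := Finset.mem_filter.1 hz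
    have h3 := hz'.2
    rw [← Finset.sum_div, div_lt_one (hdpos z (hB hz'.1)), ← Finset.mul_sum] at h3
    simp only [hd] at h3
    have h4 : 7 * ∑ z' ∈ B.erase z, NN D z z' < (pairsAt D z).card := by exact_mod_cast h3
    refine lt_of_le_of_lt (Nat.mul_le_mul_left 7 ?_) h4
    exact Finset.sum_le_sum_of_subset (Finset.erase_subset_erase _ hZB)
  have h3 := gain_of_sparse D hD Z hZ
  have h4 : ((WW D).card : ℝ) / 84 ≤ Z.card := by linarith
  linarith

end H90.BX
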