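import Pool.Agent.H29.BT.Core

/-!
# [H90 BX PieceV] two pieces with one common vertex

Let `D` be a drawing of `G`, `G' ≤ G`, `v` a vertex, `c : V → Bool` constant on the edges of `G'` which do not
contain `v`. Then `G'` has a drawing in which only edges of the same class cross; the class of an edge at `v` is the
class of its other end.

Paper proof. `restrict`: the drawing `D` restricted to `G'` (same `pos`, `arc`, so the same `x`). `glue` for `G'`,
`N = {v}`, `A = {u | u ≠ v ∧ c u = true}`, `B = {u | u ≠ v ∧ c u = false}`, `R = ∅`: `SP G' {v} = ∅` (see `baby` in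
`H29/BT/Core.lean`), `L1 G' {v} A B ∅ = G'`. `cost_sheet` for `A` and for `B` with the restricted drawing, `c = D.pos v`,
`ρ = fun _ => {D.pos v}`, `T = 0` (`Roads` as in `baby`). Let `P A = OA G' A ∅ ∪ ENA G' {v} A` (disjoint), `P B` in the same
way; `P A`, `P B ⊆ ES G'` are disjoint, and all the pairs `(g, h) ∈ OA × OA`, `(e, g), (g, e) ∈ ENA × OA` of one class satisfy
the condition on the right; `x_comm`.
-/

set_option autoImplicit false

open Set
open scoped Classical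

noncomputable section

namespace H90.BX

open H29.BP H29.BT

variable {V : Type} [Finite V] {G : SimpleGraph V}

private def res (D : Drawing G) {G' : SimpleGraph V} (hG : G' ≤ G) : Drawing G' where
  pos := D.pos
  arc := D.arc
  pos_inj := D.pos_inj
  isArc := fun u v h => D.isArc u v (hG h)
  avoid := fun u v w h => D.avoid u v w (hG h)
  inter_finite := fun e he f hf => D.inter_finite e (SimpleGraph.edgeSet_subset_edgeSet.2 hG he) f
    (SimpleGraph.edgeSet_subset_edgeSet.2 hG hf)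
  proper := fun e he f hf => D.proper e (SimpleGraph.edgeSet_subset_edgeSet.2 hG he) f
    (SimpleGraph.edgeSet_subset_edgeSet.2 hG hf)
  no_triple := fun e he f hf g hg => D.no_triple e (SimpleGraph.edgeSet_subset_edgeSet.2 hG he) f
    (SimpleGraph.edgeSet_subset_edgeSet.2 hG hf) g (SimpleGraph.edgeSet_subset_edgeSet.2 hG hg)

/-- a class of vertices -/
private def Cl (v : V) (c : V → Bool) (b : Bool) : Set V := {u | u ≠ v ∧ c u = b}

/-- the edges of a class -/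
private def Pc (G : SimpleGraph V) (v : V) (c : V → Bool) (b : Bool) : Finset (Sym2 V) :=
  OA G (Cl v c b) ∅ ∪ ENA G {v} (Cl v c b)

private theorem mOA' {A : Set V} {R : Set (Sym2 V)} {e : Sym2 V} :
    e ∈ OA G A R ↔ e ∈ ES G ∧ (∀ v ∈ e, v ∈ A) ∧ e ∉ R := by
  unfold OA
  exact Finset.mem_filter

private theorem mOA {A : Set V} {e : Sym2 V} :
    e ∈ OA G A ∅ ↔ e ∈ ES G ∧ ∀ v ∈ e, v ∈ A := by
  rw [mOA']
  exact ⟨fun h => ⟨h.1, h.2.1⟩, fun h => ⟨h.1, h.2, Set.notMem_empty _⟩⟩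

private theorem mENA {v : V} {A : Set V} {e : Sym2 V} :
    e ∈ ENA G {v} A ↔ e ∈ ES G ∧ v ∈ e ∧ ∃ y ∈ e, y ∈ A := by
  unfold ENA
  rw [Finset.mem_filter]
  constructor
  · rintro ⟨h1, ⟨x, h2, h3⟩, h4⟩
    rw [Set.mem_singleton_iff] at h3
    rw [h3] at h2
    exact ⟨h1, h2, h4⟩
  · rintro ⟨h1, h2, h4⟩
    exact ⟨h1, ⟨v, h2, Set.mem_singleton v⟩, h4⟩

omit [Finite V] in
private theorem roads (D : Drawing G) (v : V) :
    Roads D ({v} : Set V) (∅ : Set (Sym2 V)) (D.pos v) (fun _ => {D.pos v}) := by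
  refine ⟨?_, ?_, ?_⟩
  · intro x hx
    rw [Set.mem_singleton_iff] at hx
    subst hx
    exact Or.inl ⟨rfl, rfl⟩
  · intro x hx w hw
    rw [Set.mem_singleton_iff] at hx hw
    rw [hx]
    exact D.pos_inj hw
  · intro x _ g _ _ _
    exact (Set.finite_singleton _).subset Set.inter_subset_left

omit [Finite V] in
private theorem hav (D : Drawing G) (v : V) (g : Sym2 V) (hg : g ∈ G.edgeSet) (h : v ∉ g) : D.pos v ∉ D.arc g := by
  intro hp
  induction g using Sym2.ind with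
  | _ a b =>
    rcases D.avoid a b v hg hp with h1 | h1
    · exact h (by rw [h1]; exact Sym2.mem_mk_left a b)
    · exact h (by rw [h1]; exact Sym2.mem_mk_right a b)

omit [Finite V] in
private theorem ex_mem (e : Sym2 V) : ∃ u, u ∈ e := by
  induction e using Sym2.ind with
  | _ a b => exact ⟨a, Sym2.mem_mk_left a b⟩

private theorem cls (D : Drawing G) (v : V) (c : V → Bool) (b : Bool) :
    2 * CR (SG G {v} (Cl v c b) ∅) ≤ ∑ e ∈ Pc G v c b, ∑ f ∈ Pc G v c b,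
      if ∃ u ∈ e, ∃ u' ∈ f, u ≠ v ∧ u' ≠ v ∧ c u = c u' then D.x e f else 0 := by
  have hNA : Disjoint ({v} : Set V) (Cl v c b) := by
    rw [Set.disjoint_singleton_left]
    exact fun h => h.1 rfl
  have hA : ∀ g : Sym2 V, (∀ w ∈ g, w ∈ Cl v c b) → v ∉ g := fun g h1 h2 => (h1 v h2).1 rfl
  have h1 := cost_sheet D (roads D v) hNA (fun w hw h => hw.1 (D.pos_inj h).symm)
    (fun g hg h1 _ => hav D v g hg (hA g h1)) 0 (by
      intro x _
      rw [Nat.le_zero, Finset.sum_eq_zero_iff]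
      intro g hg
      rw [mOA] at hg
      have h1 : ({D.pos v} ∩ D.arc g : Set ℂ) = ∅ := by
        rw [Set.eq_empty_iff_forall_notMem]
        rintro z ⟨hz, hz2⟩
        rw [Set.mem_singleton_iff] at hz
        rw [hz] at hz2
        exact hav D v g (mem_ES.1 hg.1) (fun h => hg.2 v h rfl) hz2
      rw [h1, Set.ncard_empty])
  refine h1.trans ?_
  have hdis : Disjoint (OA G (Cl v c b) ∅) (ENA G {v} (Cl v c b)) := by
    rw [Finset.disjoint_left]
    intro e he he'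
    exact hA e (mOA.1 he).2 (mENA.1 he').2.1
  have hO : ∀ e ∈ OA G (Cl v c b) ∅, ∃ u ∈ e, u ≠ v ∧ c u = b := by
    intro e he
    obtain ⟨u, hu⟩ := ex_mem e
    exact ⟨u, hu, (mOA.1 he).2 u hu⟩
  have hE : ∀ e ∈ ENA G {v} (Cl v c b), ∃ u ∈ e, u ≠ v ∧ c u = b := by
    intro e he
    obtain ⟨u, hu, hu2⟩ := (mENA.1 he).2.2
    exact ⟨u, hu, hu2⟩
  obtain ⟨F, hF⟩ : ∃ F : Sym2 V → Sym2 V → ℕ, F = fun e f =>
    if ∃ u ∈ e, ∃ u' ∈ f, u ≠ v ∧ u' ≠ v ∧ c u = c u' then D.x e f else 0 := ⟨_, rfl⟩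
  have hFx : ∀ e f, (∃ u ∈ e, u ≠ v ∧ c u = b) → (∃ u ∈ f, u ≠ v ∧ c u = b) → F e f = D.x e f := by
    rintro e f ⟨u, hu, hu1, hu2⟩ ⟨w, hw, hw1, hw2⟩
    rw [hF]
    exact if_pos ⟨u, hu, w, hw, hu1, hw1, hu2.trans hw2.symm⟩
  have hgoal : ∑ e ∈ Pc G v c b, ∑ f ∈ Pc G v c b, F e f =
      ∑ e ∈ OA G (Cl v c b) ∅, ∑ f ∈ OA G (Cl v c b) ∅, F e f + ∑ e ∈ OA G (Cl v c b) ∅, ∑ f ∈ ENA G {v} (Cl v c b), F e f +
      (∑ e ∈ ENA G {v} (Cl v c b), ∑ f ∈ OA G (Cl v c b) ∅, F e f +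
        ∑ e ∈ ENA G {v} (Cl v c b), ∑ f ∈ ENA G {v} (Cl v c b), F e f) := by
    unfold Pc
    rw [Finset.sum_union hdis, ← Finset.sum_add_distrib, ← Finset.sum_add_distrib]
    exact congrArg₂ (· + ·) (Finset.sum_congr rfl fun e _ => Finset.sum_union hdis)
      (Finset.sum_congr rfl fun e _ => Finset.sum_union hdis)
  have e1 : ∑ e ∈ OA G (Cl v c b) ∅, ∑ f ∈ OA G (Cl v c b) ∅, F e f =
      ∑ e ∈ OA G (Cl v c b) ∅, ∑ f ∈ OA G (Cl v c b) ∅, D.x e f :=
    Finset.sum_congr rfl fun e he => Finset.sum_congr rfl fun f hf => hFx e f (hO e he) (hO f hf)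
  have e2 : ∑ e ∈ ENA G {v} (Cl v c b), ∑ f ∈ OA G (Cl v c b) ∅, F e f =
      ∑ e ∈ ENA G {v} (Cl v c b), ∑ f ∈ OA G (Cl v c b) ∅, D.x e f :=
    Finset.sum_congr rfl fun e he => Finset.sum_congr rfl fun f hf => hFx e f (hE e he) (hO f hf)
  have e3 : ∑ e ∈ OA G (Cl v c b) ∅, ∑ f ∈ ENA G {v} (Cl v c b), F e f =
      ∑ e ∈ ENA G {v} (Cl v c b), ∑ f ∈ OA G (Cl v c b) ∅, D.x e f := by
    rw [Finset.sum_comm]
    refine Finset.sum_congr rfl fun e he => Finset.sum_congr rfl fun f hf => ?_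
    rw [hFx f e (hO f hf) (hE e he), D.x_comm]
  have e4 : ∑ e ∈ ENA G {v} (Cl v c b), (0 + ∑ g ∈ OA G (Cl v c b) ∅, D.x e g) =
      ∑ e ∈ ENA G {v} (Cl v c b), ∑ f ∈ OA G (Cl v c b) ∅, D.x e f :=
    Finset.sum_congr rfl fun e _ => zero_add _
  have hgoal' : ∑ e ∈ Pc G v c b, ∑ f ∈ Pc G v c b,
      (if ∃ u ∈ e, ∃ u' ∈ f, u ≠ v ∧ u' ≠ v ∧ c u = c u' then D.x e f else 0) =
      ∑ e ∈ Pc G v c b, ∑ f ∈ Pc G v c b, F e f := by rw [hF]
  rw [hgoal', hgoal, e1, e2, e3, e4]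
  omega

theorem pieceV (D : Drawing G) (G' : SimpleGraph V) (hG : G' ≤ G) (v : V) (c : V → Bool)
    (hc : ∀ u u', G'.Adj u u' → u ≠ v → u' ≠ v → c u = c u') :
    2 * CR G' ≤ ∑ e ∈ ES G', ∑ f ∈ ES G',
      if ∃ u ∈ e, ∃ u' ∈ f, u ≠ v ∧ u' ≠ v ∧ c u = c u' then D.x e f else 0 := by
  have hNA : ∀ b, Disjoint ({v} : Set V) (Cl v c b) := by
    intro b
    rw [Set.disjoint_singleton_left]
    exact fun h => h.1 rfl
  have hAB : Disjoint (Cl v c true) (Cl v c false) := by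
    rw [Set.disjoint_left]
    intro u h1 h2
    have h3 : true = false := h1.2.symm.trans h2.2
    exact absurd h3 (by decide)
  have hcov : ∀ u, u ∈ ({v} : Set V) ∨ u ∈ Cl v c true ∨ u ∈ Cl v c false := by
    intro u
    by_cases h1 : u = v
    · exact Or.inl h1
    · rcases h2 : c u with _ | _
      · exact Or.inr (Or.inr ⟨h1, h2⟩)
      · exact Or.inr (Or.inl ⟨h1, h2⟩)
  have hg := glue G' {v} (Cl v c true) (Cl v c false) ∅ (hNA true) (hNA false) hAB hcov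
  have hL : L1 G' {v} (Cl v c true) (Cl v c false) ∅ = G' := by
    ext u w
    unfold L1
    rw [SimpleGraph.fromRel_adj]
    constructor
    · rintro ⟨_, h | h⟩
      · exact h.1
      · exact h.1.symm
    · intro h
      refine ⟨h.ne, ?_⟩
      by_cases h1 : u = v
      · exact Or.inl ⟨h, Or.inl h1⟩
      · by_cases h2 : w = v
        · exact Or.inr ⟨h.symm, Or.inl h2⟩
        · have h3 := hc u w h h1 h2
          rcases h4 : c u with _ | _
          · exact Or.inl ⟨h, Or.inr (Or.inr ⟨⟨h1, h4⟩, ⟨h2, h3.symm.trans h4⟩, Set.notMem_empty _⟩)⟩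
          · exact Or.inl ⟨h, Or.inr (Or.inl ⟨⟨h1, h4⟩, ⟨h2, h3.symm.trans h4⟩, Set.notMem_empty _⟩)⟩
  have hSP : SP G' {v} = ∅ := by
    unfold SP
    rw [Finset.filter_eq_empty_iff]
    rintro ⟨e, f⟩ hef ⟨_, h2⟩
    rw [Finset.mem_product] at hef
    have hm : ∀ e ∈ EN G' {v}, v ∈ e := by
      intro e he
      unfold EN at he
      obtain ⟨_, x, h3, h4⟩ := Finset.mem_filter.1 he
      rw [Set.mem_singleton_iff] at h4
      rwa [h4] at h3
    exact h2 ⟨v, Set.mem_singleton v, hm e hef.1, hm f hef.2⟩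
  rw [hL, hSP, Finset.card_empty, add_zero] at hg
  refine hg.trans ((add_le_add (cls (res D hG) v c true) (cls (res D hG) v c false)).trans ?_)
  obtain ⟨F, hF⟩ : ∃ F : Sym2 V → Sym2 V → ℕ, F = fun e f =>
    if ∃ u ∈ e, ∃ u' ∈ f, u ≠ v ∧ u' ≠ v ∧ c u = c u' then D.x e f else 0 := ⟨_, rfl⟩
  have h1 : ∀ S : Finset (Sym2 V), (∑ e ∈ S, ∑ f ∈ S,
      if ∃ u ∈ e, ∃ u' ∈ f, u ≠ v ∧ u' ≠ v ∧ c u = c u' then D.x e f else 0) = ∑ e ∈ S, ∑ f ∈ S, F e f := by
    intro S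
    rw [hF]
  have h2 : ∀ S : Finset (Sym2 V), (∑ e ∈ S, ∑ f ∈ S,
      if ∃ u ∈ e, ∃ u' ∈ f, u ≠ v ∧ u' ≠ v ∧ c u = c u' then (res D hG).x e f else 0) =
        ∑ e ∈ S, ∑ f ∈ S, F e f := by
    intro S
    rw [hF]
    rfl
  rw [h2, h2, h1]
  have hsub : ∀ b, Pc G' v c b ⊆ ES G' := by
    intro b e he
    rcases Finset.mem_union.1 he with h | h
    · exact (mOA.1 h).1
    · exact (mENA.1 h).1
  have hdis : Disjoint (Pc G' v c true) (Pc G' v c false) := by
    rw [Finset.disjoint_left]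
    intro e he he'
    rcases Finset.mem_union.1 he with h | h
    · obtain ⟨u, hu⟩ := ex_mem e
      rcases Finset.mem_union.1 he' with h' | h'
      · exact Set.disjoint_left.1 hAB ((mOA.1 h).2 u hu) ((mOA.1 h').2 u hu)
      · exact ((mOA.1 h).2 v (mENA.1 h').2.1).1 rfl
    · rcases Finset.mem_union.1 he' with h' | h'
      · exact ((mOA.1 h').2 v (mENA.1 h).2.1).1 rfl
      · obtain ⟨_, hv, y, hy, hy1, hy2⟩ := mENA.1 h
        obtain ⟨_, _, z, hz, hz1, hz2⟩ := mENA.1 h'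
        have h3 : e = s(v, y) := (Sym2.mem_and_mem_iff hy1.symm).1 ⟨hv, hy⟩
        rw [h3] at hz
        rcases Sym2.mem_iff.1 hz with h4 | h4
        · exact hz1 h4
        · rw [h4] at hz2
          have h5 : true = false := hy2.symm.trans hz2
          exact absurd h5 (by decide)
  calc ∑ e ∈ Pc G' v c true, ∑ f ∈ Pc G' v c true, F e f + ∑ e ∈ Pc G' v c false, ∑ f ∈ Pc G' v c false, F e f
      ≤ ∑ e ∈ Pc G' v c true, ∑ f ∈ ES G', F e f + ∑ e ∈ Pc G' v c false, ∑ f ∈ ES G', F e f :=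
        add_le_add (Finset.sum_le_sum fun e _ => Finset.sum_le_sum_of_subset (hsub true))
          (Finset.sum_le_sum fun e _ => Finset.sum_le_sum_of_subset (hsub false))
    _ = ∑ e ∈ Pc G' v c true ∪ Pc G' v c false, ∑ f ∈ ES G', F e f := (Finset.sum_union hdis).symm
    _ ≤ ∑ e ∈ ES G', ∑ f ∈ ES G', F e f :=
        Finset.sum_le_sum_of_subset (Finset.union_subset (hsub true) (hsub false))

end H90.BX
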