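import Pool.Agent.H90.BX.Every
import Pool.Agent.H29.BP.Comb

/-!
# [H90 BX PRIV] signs of vertices which are determined by a crossing pair

`Z` is a set of vertices no two of which belong to a common crossing pair of edges. For every `z ∈ Z` a crossing pair
`s(z, a z)`, `s(b z, c z)` is chosen. The signs of the vertices outside `Z` are independent and uniform, the sign of `z ∈ Z` is
`- t (a z) * t (b z) * t (c z)`. Every crossing pair has mean cost at most `3/8`, the chosen pairs cost `0`.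
-/

set_option autoImplicit false

open Set
open scoped Classical

noncomputable section

namespace H90.BX

open H29.BP H29.BT

variable {V : Type}

/-- the sign of one vertex changed -/
def flp (v : V) (t : V → ℤˣ) : V → ℤˣ := fun u => if u = v then -t u else t u

theorem flp_flp (v : V) (t : V → ℤˣ) : flp v (flp v t) = t := by
  funext u
  unfold flp
  split_ifs with h <;> simp

theorem sum_flp [Fintype V] (v : V) (F : (V → ℤˣ) → ℝ) : ∑ t, F (flp v t) = ∑ t, F t :=
  Fintype.sum_equiv (Function.Involutive.toPerm (flp v) (flp_flp v)) _ _ fun _ => rfl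

/-- product of signs -/
def chi (S : Finset V) (t : V → ℤˣ) : ℝ := ∏ v ∈ S, sg t v

theorem sg_flp (v : V) (t : V → ℤˣ) (u : V) :
    sg (flp v t) u = (if u = v then -1 else 1) * sg t u := by
  unfold sg flp
  split_ifs with h <;> simp

theorem chi_flp (S : Finset V) (v : V) (t : V → ℤˣ) :
    chi S (flp v t) = (if v ∈ S then -1 else 1) * chi S t := by
  unfold chi
  rw [Finset.prod_congr rfl fun u _ => sg_flp v t u, Finset.prod_mul_distrib,
    Finset.prod_ite_eq' S v (fun _ => (-1 : ℝ))]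

theorem chi_mul_self [Fintype V] (S : Finset V) (t : V → ℤˣ) : chi S t * chi S t = 1 := by
  unfold chi
  rw [← Finset.prod_mul_distrib]
  exact Finset.prod_eq_one fun v _ => sg_mul_self t v

theorem chi_orth [Fintype V] {S S' : Finset V} (h : S ≠ S') :
    ∑ t : V → ℤˣ, chi S t * chi S' t = 0 := by
  obtain ⟨v, hv⟩ : ∃ v, ¬ (v ∈ S ↔ v ∈ S') := by
    by_contra hc
    push Not at hc
    exact h (Finset.ext hc)
  have h1 : ∀ t : V → ℤˣ, chi S (flp v t) * chi S' (flp v t) = -(chi S t * chi S' t) := by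
    intro t
    rw [chi_flp, chi_flp]
    by_cases h2 : v ∈ S
    · have h3 : v ∉ S' := fun h3 => hv ⟨fun _ => h3, fun _ => h2⟩
      rw [if_pos h2, if_neg h3]
      ring
    · have h3 : v ∈ S' := by
        by_contra h3
        exact hv ⟨fun h4 => absurd h4 h2, fun h4 => absurd h4 h3⟩
      rw [if_neg h2, if_pos h3]
      ring
  have h2 := sum_flp v (fun t => chi S t * chi S' t)
  simp only [h1, Finset.sum_neg_distrib] at h2
  linarith

theorem chi_one (u : V) (t : V → ℤˣ) : chi {u} t = sg t u := by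
  unfold chi
  rw [Finset.prod_singleton]

theorem chi_three {a b c : V} (hab : a ≠ b) (hac : a ≠ c) (hbc : b ≠ c) (t : V → ℤˣ) :
    chi {a, b, c} t = sg t a * (sg t b * sg t c) := by
  unfold chi
  rw [Finset.prod_insert (by simp [hab, hac]), Finset.prod_pair hbc]

/-- the signs determined by the signs `t` outside `Z` -/
def fl (Z : Finset V) (a b c : V → V) (t : V → ℤˣ) : V → ℤˣ :=
  fun v => if v ∈ Z then -(t (a v) * t (b v) * t (c v)) else t v

theorem sg_fl_mem {Z : Finset V} (a b c : V → V) (t : V → ℤˣ) {v : V} (hv : v ∈ Z) :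
    sg (fl Z a b c t) v = -(sg t (a v) * (sg t (b v) * sg t (c v))) := by
  unfold sg fl
  rw [if_pos hv]
  push_cast
  ring

theorem sg_fl_not {Z : Finset V} (a b c : V → V) (t : V → ℤˣ) {v : V} (hv : v ∉ Z) :
    sg (fl Z a b c t) v = sg t v := by
  unfold sg fl
  rw [if_neg hv]

theorem card_ne {q a b c : V} (hab : a ≠ b) (hac : a ≠ c) (hbc : b ≠ c) :
    ({a, b, c} : Finset V) ≠ {q} := by
  intro h
  have h1 : ({a, b, c} : Finset V).card = 3 := by
    rw [Finset.card_insert_of_notMem (by simp [hab, hac]), Finset.card_pair hbc]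
  rw [h, Finset.card_singleton] at h1
  omega

theorem avg_one [Fintype V] {Z : Finset V} (a b c : V → V) {z q u w : V} (hz : z ∈ Z)
    (hq : q ∉ Z) (hu : u ∉ Z) (hw : w ∉ Z) (hqu : q ≠ u) (hqw : q ≠ w) (huw : u ≠ w)
    (hab : a z ≠ b z) (hac : a z ≠ c z) (hbc : b z ≠ c z) :
    ∑ t : V → ℤˣ, cost (fl Z a b c t) s(z, q) s(u, w) =
      3 / 8 * ((Finset.univ : Finset (V → ℤˣ)).card : ℝ) -
        3 / 8 * ∑ t : V → ℤˣ, chi {a z, b z, c z} t * chi {q, u, w} t := by
  have h0 : ∀ t : V → ℤˣ, cost (fl Z a b c t) s(z, q) s(u, w) =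
      3 / 8 + 1 / 8 * (chi {a z, b z, c z} t * chi {q} t) - 1 / 8 * (chi {u} t * chi {w} t) -
        1 / 8 * (chi {a z, b z, c z} t * chi {u} t) - 1 / 8 * (chi {a z, b z, c z} t * chi {w} t) +
        1 / 8 * (chi {q} t * chi {u} t) + 1 / 8 * (chi {q} t * chi {w} t) -
        3 / 8 * (chi {a z, b z, c z} t * chi {q, u, w} t) := by
    intro t
    rw [cost_mk, sg_fl_mem a b c t hz, sg_fl_not a b c t hq, sg_fl_not a b c t hu,
      sg_fl_not a b c t hw, chi_three hab hac hbc, chi_three hqu hqw huw, chi_one, chi_one,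
      chi_one]
    ring
  rw [Finset.sum_congr rfl fun t _ => h0 t]
  simp only [Finset.sum_add_distrib, Finset.sum_sub_distrib, ← Finset.mul_sum]
  rw [chi_orth (card_ne hab hac hbc), chi_orth (card_ne hab hac hbc),
    chi_orth (card_ne hab hac hbc), chi_orth (by simpa using huw), chi_orth (by simpa using hqu),
    chi_orth (by simpa using hqw), Finset.sum_const, nsmul_eq_mul]
  ring

theorem chi_sum_nonneg [Fintype V] (S S' : Finset V) :
    0 ≤ ∑ t : V → ℤˣ, chi S t * chi S' t := by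
  by_cases h : S = S'
  · subst h
    exact Finset.sum_nonneg fun t _ => by rw [chi_mul_self]; norm_num
  · rw [chi_orth h]

theorem chi_sum_self [Fintype V] (S : Finset V) :
    ∑ t : V → ℤˣ, chi S t * chi S t = ((Finset.univ : Finset (V → ℤˣ)).card : ℝ) := by
  rw [Finset.sum_congr rfl fun t _ => chi_mul_self S t, Finset.sum_const, nsmul_eq_mul, mul_one]

theorem cost_symm (s : V → ℤˣ) (e f : Sym2 V) : cost s e f = cost s f e := by
  unfold cost
  ring

/-- the hypotheses -/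
structure Priv (E : Finset (Sym2 V)) (x : Sym2 V → Sym2 V → ℝ) (Z : Finset V) (a b c : V → V) :
    Prop where
  diag : ∀ e ∈ E, ¬ e.IsDiag
  symm : ∀ e f, x e f = x f e
  one : ∀ e f, x e f = 0 ∨ 1 ≤ x e f
  meets : ∀ e ∈ E, ∀ f ∈ E, Meets e f → x e f = 0
  memA : ∀ z ∈ Z, s(z, a z) ∈ E
  memB : ∀ z ∈ Z, s(b z, c z) ∈ E
  cross : ∀ z ∈ Z, x s(z, a z) s(b z, c z) ≠ 0
  ind : ∀ e ∈ E, ∀ f ∈ E, x e f ≠ 0 → ∀ z ∈ Z, ∀ z' ∈ Z, (z ∈ e ∨ z ∈ f) → (z' ∈ e ∨ z' ∈ f) →
    z = z'

namespace Priv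

variable {E : Finset (Sym2 V)} {x : Sym2 V → Sym2 V → ℝ} {Z : Finset V} {a b c : V → V}

theorem ne [Fintype V] (P : Priv E x Z a b c) {z : V} (hz : z ∈ Z) :
    z ≠ a z ∧ z ≠ b z ∧ z ≠ c z ∧ a z ≠ b z ∧ a z ≠ c z ∧ b z ≠ c z := by
  have h1 : ¬ Meets s(z, a z) s(b z, c z) := fun h =>
    P.cross z hz (P.meets _ (P.memA z hz) _ (P.memB z hz) h)
  have h2 := P.diag _ (P.memA z hz)
  have h3 := P.diag _ (P.memB z hz)
  rw [Sym2.mk_isDiag_iff] at h2 h3
  obtain ⟨h4, h5, h6, h7⟩ := not_meets_mk h1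
  exact ⟨h2, h4, h5, h6, h7, h3⟩

theorem notMem [Fintype V] (P : Priv E x Z a b c) {z : V} (hz : z ∈ Z) : a z ∉ Z ∧ b z ∉ Z ∧ c z ∉ Z := by
  obtain ⟨h1, h2, h3, -, -, -⟩ := P.ne hz
  refine ⟨fun h => h1 ?_, fun h => h2 ?_, fun h => h3 ?_⟩
  · exact P.ind _ (P.memA z hz) _ (P.memB z hz) (P.cross z hz) z hz _ h (Or.inl (by simp))
      (Or.inl (by simp))
  · exact P.ind _ (P.memA z hz) _ (P.memB z hz) (P.cross z hz) z hz _ h (Or.inl (by simp))
      (Or.inr (by simp))
  · exact P.ind _ (P.memA z hz) _ (P.memB z hz) (P.cross z hz) z hz _ h (Or.inl (by simp))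
      (Or.inr (by simp))

/-- a chosen pair costs nothing -/
theorem zero [Fintype V] (P : Priv E x Z a b c) {z : V} (hz : z ∈ Z) :
    ∑ t : V → ℤˣ, cost (fl Z a b c t) s(z, a z) s(b z, c z) = 0 := by
  obtain ⟨-, -, -, hab, hac, hbc⟩ := P.ne hz
  obtain ⟨ha, hb, hc⟩ := P.notMem hz
  rw [avg_one a b c hz ha hb hc hab hac hbc hab hac hbc, chi_sum_self]
  ring

/-- the mean cost of a crossing pair, a vertex of `Z` in the first edge -/
theorem pair1 [Fintype V] (P : Priv E x Z a b c) {e f : Sym2 V} (he : e ∈ E) (hf : f ∈ E)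
    (hx : x e f ≠ 0) {z : V} (hz : z ∈ Z) (hze : z ∈ e) :
    ∑ t : V → ℤˣ, cost (fl Z a b c t) e f ≤ 3 / 8 * ((Finset.univ : Finset (V → ℤˣ)).card : ℝ) := by
  have hm : ¬ Meets e f := fun h => hx (P.meets e he f hf h)
  obtain ⟨q, rfl⟩ := Sym2.mem_iff_exists.1 hze
  induction f using Sym2.ind with
  | _ u w =>
    have h2 := P.diag _ he
    have h3 := P.diag _ hf
    rw [Sym2.mk_isDiag_iff] at h2 h3
    obtain ⟨h4, h5, h6, h7⟩ := not_meets_mk hm
    have hq : q ∉ Z := fun h => h2 (P.ind _ he _ hf hx z hz q h (Or.inl (by simp))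
      (Or.inl (by simp)))
    have hu : u ∉ Z := fun h => h4 (P.ind _ he _ hf hx z hz u h (Or.inl (by simp))
      (Or.inr (by simp)))
    have hw : w ∉ Z := fun h => h5 (P.ind _ he _ hf hx z hz w h (Or.inl (by simp))
      (Or.inr (by simp)))
    obtain ⟨-, -, -, hab, hac, hbc⟩ := P.ne hz
    rw [avg_one a b c hz hq hu hw h6 h7 h3 hab hac hbc]
    have := chi_sum_nonneg ({a z, b z, c z} : Finset V) {q, u, w}
    linarith

theorem pair [Fintype V] (P : Priv E x Z a b c) {e f : Sym2 V} (he : e ∈ E) (hf : f ∈ E)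
    (hx : x e f ≠ 0) :
    ∑ t : V → ℤˣ, cost (fl Z a b c t) e f ≤ 3 / 8 * ((Finset.univ : Finset (V → ℤˣ)).card : ℝ) := by
  by_cases h1 : ∃ z ∈ Z, z ∈ e
  · obtain ⟨z, hz, hze⟩ := h1
    exact P.pair1 he hf hx hz hze
  by_cases h2 : ∃ z ∈ Z, z ∈ f
  · obtain ⟨z, hz, hzf⟩ := h2
    rw [Finset.sum_congr rfl fun t _ => cost_symm (fl Z a b c t) e f]
    exact P.pair1 hf he (by rwa [P.symm]) hz hzf
  push Not at h1 h2
  have hm : ¬ Meets e f := fun h => hx (P.meets e he f hf h)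
  induction e using Sym2.ind with
  | _ p q =>
    induction f using Sym2.ind with
    | _ u w =>
      have h3 := P.diag _ he
      have h4 := P.diag _ hf
      rw [Sym2.mk_isDiag_iff] at h3 h4
      obtain ⟨h5, h6, h7, h8⟩ := not_meets_mk hm
      have hp : p ∉ Z := fun h => h1 p h (by simp)
      have hq : q ∉ Z := fun h => h1 q h (by simp)
      have hu : u ∉ Z := fun h => h2 u h (by simp)
      have hw : w ∉ Z := fun h => h2 w h (by simp)
      have h9 : ∀ t : V → ℤˣ, cost (fl Z a b c t) s(p, q) s(u, w) = cost t s(p, q) s(u, w) := by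
        intro t
        rw [cost_mk, cost_mk, sg_fl_not a b c t hp, sg_fl_not a b c t hq, sg_fl_not a b c t hu,
          sg_fl_not a b c t hw]
      rw [Finset.sum_congr rfl fun t _ => h9 t]
      exact (sum_univ_cost h3 h5 h6 h7 h8 h4).le

/-- the chosen pairs, in both orders -/
def chosen (Z : Finset V) (a b c : V → V) : Finset (Sym2 V × Sym2 V) :=
  Z.image (fun z => (s(z, a z), s(b z, c z))) ∪ Z.image (fun z => (s(b z, c z), s(z, a z)))

theorem card_chosen [Fintype V] (P : Priv E x Z a b c) : (chosen Z a b c).card = 2 * Z.card := by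
  unfold chosen
  rw [Finset.card_union_of_disjoint, Finset.card_image_of_injOn, Finset.card_image_of_injOn]
  · ring
  · intro z hz z' hz' h
    have h1 : (s(b z, c z), s(z, a z)) = (s(b z', c z'), s(z', a z')) := h
    rw [Prod.mk.injEq] at h1
    refine P.ind _ (P.memA z hz) _ (P.memB z hz) (P.cross z hz) z hz z' hz' (Or.inl (by simp))
      (Or.inl ?_)
    rw [h1.2]
    simp
  · intro z hz z' hz' h
    have h1 : (s(z, a z), s(b z, c z)) = (s(z', a z'), s(b z', c z')) := h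
    rw [Prod.mk.injEq] at h1
    refine P.ind _ (P.memA z hz) _ (P.memB z hz) (P.cross z hz) z hz z' hz' (Or.inl (by simp))
      (Or.inl ?_)
    rw [h1.1]
    simp
  · rw [Finset.disjoint_left]
    intro p hp hp'
    rw [Finset.mem_image] at hp hp'
    obtain ⟨z, hz, rfl⟩ := hp
    obtain ⟨z', hz', h⟩ := hp'
    rw [Prod.mk.injEq] at h
    have h1 : z = z' := P.ind _ (P.memA z hz) _ (P.memB z hz) (P.cross z hz) z hz z' hz'
      (Or.inl (by simp)) (Or.inr (by rw [← h.2]; simp))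
    subst h1
    obtain ⟨-, h2, h3, -, -, -⟩ := P.ne hz
    have h4 : z ∈ s(b z, c z) := by rw [h.1]; simp
    rw [Sym2.mem_iff] at h4
    rcases h4 with h4 | h4
    · exact h2 h4
    · exact h3 h4

theorem chosen_zero [Fintype V] (P : Priv E x Z a b c) {p : Sym2 V × Sym2 V}
    (hp : p ∈ chosen Z a b c) : ∑ t : V → ℤˣ, cost (fl Z a b c t) p.1 p.2 = 0 := by
  unfold chosen at hp
  rw [Finset.mem_union, Finset.mem_image, Finset.mem_image] at hp
  rcases hp with ⟨z, hz, rfl⟩ | ⟨z, hz, rfl⟩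
  · exact P.zero hz
  · rw [← P.zero hz]
    exact Finset.sum_congr rfl fun t _ => cost_symm _ _ _

theorem chosen_one [Fintype V] (P : Priv E x Z a b c) {p : Sym2 V × Sym2 V} (hp : p ∈ chosen Z a b c) :
    p ∈ E ×ˢ E ∧ 1 ≤ x p.1 p.2 := by
  unfold chosen at hp
  rw [Finset.mem_union, Finset.mem_image, Finset.mem_image] at hp
  rcases hp with ⟨z, hz, rfl⟩ | ⟨z, hz, rfl⟩
  · exact ⟨Finset.mem_product.2 ⟨P.memA z hz, P.memB z hz⟩,
      (P.one _ _).resolve_left (P.cross z hz)⟩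
  · refine ⟨Finset.mem_product.2 ⟨P.memB z hz, P.memA z hz⟩, ?_⟩
    simp only
    rw [P.symm]
    exact (P.one _ _).resolve_left (P.cross z hz)

theorem main [Fintype V] (P : Priv E x Z a b c) :
    ∃ s : V → ℤˣ, ∑ e ∈ E, ∑ f ∈ E, x e f * cost s e f ≤
      3 / 8 * (∑ e ∈ E, ∑ f ∈ E, x e f - 2 * (Z.card : ℝ)) := by
  set M : ℝ := ((Finset.univ : Finset (V → ℤˣ)).card : ℝ) with hM
  have hM0 : 0 ≤ M := Nat.cast_nonneg _
  have hx0 : ∀ e f, 0 ≤ x e f := fun e f => by
    rcases P.one e f with h | h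
    · rw [h]
    · linarith
  have hpair : ∀ p ∈ E ×ˢ E, x p.1 p.2 * ∑ t : V → ℤˣ, cost (fl Z a b c t) p.1 p.2 ≤
      3 / 8 * M * (x p.1 p.2 - if p ∈ chosen Z a b c then 1 else 0) := by
    intro p hp
    rw [Finset.mem_product] at hp
    by_cases h1 : p ∈ chosen Z a b c
    · rw [if_pos h1, P.chosen_zero h1, mul_zero]
      have h2 := (P.chosen_one h1).2
      exact mul_nonneg (by positivity) (by linarith)
    · rw [if_neg h1, sub_zero]
      by_cases h2 : x p.1 p.2 = 0
      · rw [h2]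
        simp
      · have h3 := mul_le_mul_of_nonneg_left (P.pair hp.1 hp.2 h2) (hx0 p.1 p.2)
        linarith
  have htot : ∑ t : V → ℤˣ, ∑ e ∈ E, ∑ f ∈ E, x e f * cost (fl Z a b c t) e f ≤
      ∑ _t : V → ℤˣ, 3 / 8 * (∑ e ∈ E, ∑ f ∈ E, x e f - 2 * (Z.card : ℝ)) := by
    have h1 : ∑ t : V → ℤˣ, ∑ e ∈ E, ∑ f ∈ E, x e f * cost (fl Z a b c t) e f =
        ∑ p ∈ E ×ˢ E, x p.1 p.2 * ∑ t : V → ℤˣ, cost (fl Z a b c t) p.1 p.2 := by
      rw [Finset.sum_congr rfl fun t _ =>
        (Finset.sum_product' E E fun e f => x e f * cost (fl Z a b c t) e f).symm,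
        Finset.sum_comm]
      refine Finset.sum_congr rfl fun p _ => ?_
      rw [Finset.mul_sum]
    have h2 : ∑ p ∈ E ×ˢ E, (x p.1 p.2 - if p ∈ chosen Z a b c then (1 : ℝ) else 0) =
        ∑ e ∈ E, ∑ f ∈ E, x e f - 2 * (Z.card : ℝ) := by
      rw [Finset.sum_sub_distrib, ← Finset.sum_filter]
      have h3 : (E ×ˢ E).filter (fun p => p ∈ chosen Z a b c) = chosen Z a b c := by
        ext p
        rw [Finset.mem_filter]
        exact ⟨fun h => h.2, fun h => ⟨(P.chosen_one h).1, h⟩⟩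
      rw [h3, Finset.sum_product' E E fun e f => x e f, Finset.sum_const, nsmul_eq_mul, mul_one,
        P.card_chosen]
      push_cast
      ring
    rw [h1, Finset.sum_const, nsmul_eq_mul, ← hM, ← h2]
    refine (Finset.sum_le_sum hpair).trans (le_of_eq ?_)
    rw [← Finset.mul_sum]
    ring
  obtain ⟨t, _, ht⟩ := Finset.exists_le_of_sum_le (s := (Finset.univ : Finset (V → ℤˣ)))
    ⟨fun _ => 1, Finset.mem_univ _⟩ htot
  exact ⟨fl Z a b c t, ht⟩

end Priv

end H90.BX
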