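import Pool.Agent.H90.BX.Priv

/-!
# [H90 BX PRIVFIN] graphs with few crossings per vertex on crossed edges

`W` = the vertices on crossed edges of an optimal drawing, `c_v` = the number of crossings on the edges at `v`, so `∑ c_v = 4 CR`.
Two vertices are in conflict if they belong to a common crossing pair; `v` is in conflict with at most `3 c_v` vertices. So there
are at least `∑_W 1/(3 c_v + 1) ≥ |W|²/(12 CR + |W|) ≥ |W|²/(16 CR)` vertices no two of which are in conflict, and by `Priv.main`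
`8 CR_2 + 3 |W|²/(16 CR) ≤ 3 CR`.
-/

set_option autoImplicit false

open Set
open scoped Classical

noncomputable section

namespace H90.BX

open H29.BP H29.BT

theorem greedyCW_aux {ι : Type} (w : ι → ℝ) (R : ι → ι → Prop)
    (hR : ∀ i j, R i j → R j i) : ∀ (n : ℕ) (I : Finset ι), I.card = n →
      (∀ i ∈ I, 0 ≤ w i) → (∀ i ∈ I, ((I.filter fun j => j = i ∨ R i j).card : ℝ) * w i ≤ 1) →
      ∃ J ⊆ I, (∀ i ∈ J, ∀ j ∈ J, i ≠ j → ¬ R i j) ∧ ∑ i ∈ I, w i ≤ J.card := by
  intro n
  induction n using Nat.strong_induction_on with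
  | _ n ih =>
    intro I hn hw hK
    rcases I.eq_empty_or_nonempty with rfl | hne
    · exact ⟨∅, Finset.Subset.refl _, by simp, by simp⟩
    · obtain ⟨i, hi, hmax⟩ := Finset.exists_max_image I w hne
      set N := I.filter fun j => j = i ∨ R i j with hN
      have hiN : i ∈ N := by
        rw [hN, Finset.mem_filter]
        exact ⟨hi, Or.inl rfl⟩
      have hNI : N ⊆ I := Finset.filter_subset _ _
      have hlt : (I \ N).card < n := by
        rw [← hn]
        refine Finset.card_lt_card ⟨Finset.sdiff_subset, fun h => ?_⟩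
        exact (Finset.mem_sdiff.1 (h hi)).2 hiN
      obtain ⟨J, hJ, hJR, hJw⟩ := ih (I \ N).card hlt (I \ N) rfl
        (fun j hj => hw j (Finset.mem_sdiff.1 hj).1)
        (fun j hj => by
          have hj' := (Finset.mem_sdiff.1 hj).1
          refine le_trans ?_ (hK j hj')
          refine mul_le_mul_of_nonneg_right ?_ (hw j hj')
          exact_mod_cast Finset.card_le_card (Finset.filter_subset_filter _
            Finset.sdiff_subset))
      have hiJ : i ∉ J := fun h => (Finset.mem_sdiff.1 (hJ h)).2 hiN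
      have hno : ∀ j ∈ J, ¬ R i j := by
        intro j hj hr
        have h1 := Finset.mem_sdiff.1 (hJ hj)
        exact h1.2 (Finset.mem_filter.2 ⟨h1.1, Or.inr hr⟩)
      refine ⟨insert i J, ?_, ?_, ?_⟩
      · intro j hj
        rcases Finset.mem_insert.1 hj with rfl | hj
        · exact hi
        · exact (Finset.mem_sdiff.1 (hJ hj)).1
      · intro j hj k hk hjk
        rcases Finset.mem_insert.1 hj with h1 | hj'
        · rcases Finset.mem_insert.1 hk with h2 | hk'
          · exact absurd (h1.trans h2.symm) hjk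
          · rw [h1]
            exact hno k hk'
        · rcases Finset.mem_insert.1 hk with h2 | hk'
          · rw [h2]
            exact fun h => hno j hj' (hR _ _ h)
          · exact hJR j hj' k hk' hjk
      · rw [Finset.card_insert_of_notMem hiJ]
        have h2 : ∑ j ∈ N, w j ≤ 1 := by
          calc ∑ j ∈ N, w j ≤ ∑ _j ∈ N, w i := Finset.sum_le_sum fun j hj => hmax j (hNI hj)
            _ = N.card * w i := by rw [Finset.sum_const, nsmul_eq_mul]
            _ ≤ 1 := hK i hi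
        have h3 : ∑ j ∈ I, w j = ∑ j ∈ I \ N, w j + ∑ j ∈ N, w j :=
          (Finset.sum_sdiff hNI).symm
        push_cast
        linarith

theorem greedyCW {ι : Type} (I : Finset ι) (w : ι → ℝ) (hw : ∀ i ∈ I, 0 ≤ w i) (R : ι → ι → Prop)
    (hR : ∀ i j, R i j → R j i)
    (hK : ∀ i ∈ I, ((I.filter fun j => j = i ∨ R i j).card : ℝ) * w i ≤ 1) :
    ∃ J ⊆ I, (∀ i ∈ J, ∀ j ∈ J, i ≠ j → ¬ R i j) ∧ ∑ i ∈ I, w i ≤ J.card :=
  greedyCW_aux w R hR I.card I rfl hw hK

variable {V : Type}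

/-- the crossings on the edges at `v` -/
def cv [Finite V] {G : SimpleGraph V} (D : Drawing G) (v : V) : ℕ :=
  ∑ e ∈ (ES G).filter (fun e => v ∈ e), cre D e

/-- the crossing pairs (ordered) whose first edge contains `v` -/
def pairsAt [Finite V] {G : SimpleGraph V} (D : Drawing G) (v : V) : Finset (Sym2 V × Sym2 V) :=
  (ES G ×ˢ ES G).filter fun p => v ∈ p.1 ∧ D.x p.1 p.2 ≠ 0

theorem mem_pairsAt [Finite V] {G : SimpleGraph V} (D : Drawing G) (v : V)
    {p : Sym2 V × Sym2 V} :
    p ∈ pairsAt D v ↔ (p.1 ∈ ES G ∧ p.2 ∈ ES G) ∧ v ∈ p.1 ∧ D.x p.1 p.2 ≠ 0 := by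
  unfold pairsAt
  rw [Finset.mem_filter, Finset.mem_product]

theorem card_pairsAt [Finite V] {G : SimpleGraph V} (D : Drawing G) (v : V) :
    (pairsAt D v).card ≤ cv D v := by
  unfold pairsAt cv
  rw [Finset.card_filter, Finset.sum_product, Finset.sum_filter]
  refine Finset.sum_le_sum fun e _ => ?_
  by_cases hv : v ∈ e
  · rw [if_pos hv]
    unfold cre
    refine Finset.sum_le_sum fun f _ => ?_
    by_cases hx : D.x e f ≠ 0
    · rw [if_pos ⟨hv, hx⟩]
      omega
    · rw [if_neg (fun h => hx h.2)]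
      exact Nat.zero_le _
  · rw [if_neg hv]
    refine le_of_eq (Finset.sum_eq_zero fun f _ => ?_)
    rw [if_neg (fun h => hv h.1)]

/-- the vertices on crossed edges -/
def WW [Fintype V] {G : SimpleGraph V} (D : Drawing G) : Finset V :=
  Finset.univ.filter fun v => (pairsAt D v).Nonempty

/-- two vertices in a common crossing pair -/
def Conf [Finite V] {G : SimpleGraph V} (D : Drawing G) (v v' : V) : Prop :=
  ∃ p ∈ pairsAt D v, v' ∈ p.1 ∨ v' ∈ p.2

theorem Conf.symm [Finite V] {G : SimpleGraph V} (D : Drawing G) {v v' : V}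
    (h : Conf D v v') : Conf D v' v := by
  obtain ⟨p, hp, h1 | h1⟩ := h
  · rw [mem_pairsAt] at hp
    exact ⟨p, (mem_pairsAt D v').2 ⟨hp.1, h1, hp.2.2⟩, Or.inl hp.2.1⟩
  · rw [mem_pairsAt] at hp
    refine ⟨p.swap, (mem_pairsAt D v').2 ⟨⟨hp.1.2, hp.1.1⟩, h1, ?_⟩, Or.inr hp.2.1⟩
    show D.x p.2 p.1 ≠ 0
    rw [D.x_comm]
    exact hp.2.2

theorem card_conf [Fintype V] {G : SimpleGraph V} (D : Drawing G) (v : V) (I : Finset V) :
    (I.filter fun v' => v' = v ∨ Conf D v v').card ≤ 3 * cv D v + 1 := by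
  have h1 : (I.filter fun v' => v' = v ∨ Conf D v v') ⊆
      insert v ((pairsAt D v).biUnion fun p => (vs p.1 ∪ vs p.2).erase v) := by
    intro v' hv'
    rw [Finset.mem_filter] at hv'
    rw [Finset.mem_insert]
    by_cases h : v' = v
    · exact Or.inl h
    · obtain ⟨p, hp, h2⟩ := hv'.2.resolve_left h
      refine Or.inr (Finset.mem_biUnion.2 ⟨p, hp, Finset.mem_erase.2 ⟨h, ?_⟩⟩)
      rw [Finset.mem_union]
      rcases h2 with h2 | h2
      · exact Or.inl (Finset.mem_filter.2 ⟨Finset.mem_univ _, h2⟩)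
      · exact Or.inr (Finset.mem_filter.2 ⟨Finset.mem_univ _, h2⟩)
  have h2 : ((pairsAt D v).biUnion fun p => (vs p.1 ∪ vs p.2).erase v).card ≤
      (pairsAt D v).card * 3 := by
    refine Finset.card_biUnion_le_card_mul _ _ 3 fun p hp => ?_
    have hv : v ∈ vs p.1 ∪ vs p.2 := by
      rw [mem_pairsAt] at hp
      exact Finset.mem_union_left _ (Finset.mem_filter.2 ⟨Finset.mem_univ _, hp.2.1⟩)
    rw [Finset.card_erase_of_mem hv]
    have h3 := Finset.card_union_le (vs p.1) (vs p.2)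
    have h4 : (vs p.1).card ≤ 2 := card_filter_mem_le p.1
    have h5 : (vs p.2).card ≤ 2 := card_filter_mem_le p.2
    omega
  have h3 := card_pairsAt D v
  refine (Finset.card_le_card h1).trans ((Finset.card_insert_le _ _).trans ?_)
  omega

theorem sum_cv [Fintype V] {G : SimpleGraph V} (D : Drawing G) :
    ∑ v : V, (cv D v : ℝ) = 4 * D.cr := by
  have h0 : ∀ v : V, (cv D v : ℝ) = ∑ e ∈ ES G, if v ∈ e then (cre D e : ℝ) else 0 := by
    intro v
    unfold cv
    push_cast
    rw [Finset.sum_filter]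
  rw [Finset.sum_congr rfl fun v _ => h0 v, Finset.sum_comm]
  have h1 : ∀ e ∈ ES G, (∑ v : V, if v ∈ e then (cre D e : ℝ) else 0) = 2 * cre D e := by
    intro e he
    rw [← Finset.sum_filter, Finset.sum_const, nsmul_eq_mul]
    congr 1
    rw [mem_ES] at he
    have h2 := G.not_isDiag_of_mem_edgeSet he
    induction e using Sym2.ind with
    | _ x y =>
      rw [Sym2.mk_isDiag_iff] at h2
      have h3 : (Finset.univ.filter fun v => v ∈ s(x, y)) = ({x, y} : Finset V) := by
        ext z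
        simp
      rw [h3, Finset.card_pair h2]
      norm_num
  rw [Finset.sum_congr rfl h1, ← Finset.mul_sum, sum_cre]
  ring

/-- a set of vertices without conflicts gives a gain -/
theorem gain_of_indep [Fintype V] {G : SimpleGraph V} (D : Drawing G) (hD : D.cr = CR G)
    (J : Finset V) (hJ : J ⊆ WW D) (hind : ∀ i ∈ J, ∀ j ∈ J, i ≠ j → ¬ Conf D i j) :
    8 * (CR2 G : ℝ) + 3 * J.card ≤ 3 * CR G := by
  have hch : ∀ z : V, ∃ q : V × V × V, z ∈ J →
      (s(z, q.1), s(q.2.1, q.2.2)) ∈ pairsAt D z := by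
    intro z
    by_cases hz : z ∈ J
    · obtain ⟨⟨e, f⟩, hp⟩ := (Finset.mem_filter.1 (hJ hz)).2
      have hze := ((mem_pairsAt D z).1 hp).2.1
      obtain ⟨a, rfl⟩ := Sym2.mem_iff_exists.1 hze
      induction f using Sym2.ind with
      | _ b c => exact ⟨(a, b, c), fun _ => hp⟩
    · exact ⟨(z, z, z), fun h => absurd h hz⟩
  choose q hq using hch
  have hconf : ∀ e ∈ ES G, ∀ f ∈ ES G, D.x e f ≠ 0 → ∀ z : V, ∀ z' : V, (z ∈ e ∨ z ∈ f) →
      (z' ∈ e ∨ z' ∈ f) → Conf D z z' := by
    rintro e he f hf hx z z' (hz | hz) hz'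
    · exact ⟨(e, f), (mem_pairsAt D z).2 ⟨⟨he, hf⟩, hz, hx⟩, hz'⟩
    · refine ⟨(f, e), (mem_pairsAt D z).2 ⟨⟨hf, he⟩, hz, ?_⟩, hz'.symm⟩
      show D.x f e ≠ 0
      rw [D.x_comm]
      exact hx
  have P : Priv (ES G) (fun e f => (D.x e f : ℝ)) J (fun z => (q z).1) (fun z => (q z).2.1)
      (fun z => (q z).2.2) := by
    refine ⟨fun e he => G.not_isDiag_of_mem_edgeSet (mem_ES.1 he), fun e f => ?_, fun e f => ?_,
      fun e he f hf h => ?_, fun z hz => ?_, fun z hz => ?_, fun z hz => ?_, ?_⟩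
    · rw [D.x_comm]
    · rcases Nat.eq_zero_or_pos (D.x e f) with h | h
      · left
        rw [h, Nat.cast_zero]
      · right
        exact_mod_cast h
    · obtain ⟨u, hue, huf⟩ := h
      rw [opt_x D hD he hf hue huf, Nat.cast_zero]
    · exact ((mem_pairsAt D z).1 (hq z hz)).1.1
    · exact ((mem_pairsAt D z).1 (hq z hz)).1.2
    · exact Nat.cast_ne_zero.2 ((mem_pairsAt D z).1 (hq z hz)).2.2
    · intro e he f hf hx z hz z' hz' h1 h2
      by_contra hne
      exact hind z hz z' hz' hne (hconf e he f hf (fun h => hx (by rw [h, Nat.cast_zero]))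
        z z' h1 h2)
  obtain ⟨s, hs⟩ := P.main
  have h1 := CR2_le_cost D s
  have h2 : ∑ e ∈ ES G, ∑ f ∈ ES G, (D.x e f : ℝ) = 2 * CR G := by
    rw [← hD]
    exact_mod_cast D.two_mul_cr.symm
  rw [h2] at hs
  linarith

/-- the gain in terms of the number of the vertices on crossed edges -/
theorem vertices [Fintype V] {G : SimpleGraph V} (D : Drawing G) (hD : D.cr = CR G) :
    (CR2 G : ℝ) ≤ (3 / 8 - 3 * ((WW D).card : ℝ) ^ 2 / (128 * (CR G : ℝ) ^ 2)) * CR G := by
  obtain ⟨J, hJ, hind, hJc⟩ := greedyCW (WW D) (fun v => 1 / (3 * (cv D v : ℝ) + 1))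
    (fun v _ => by positivity) (fun v v' => Conf D v v') (fun v v' h => h.symm)
    (fun v _ => by
      rw [mul_one_div, div_le_one (by positivity)]
      exact_mod_cast card_conf D v (WW D))
  have h1 := gain_of_indep D hD J hJ hind
  rcases Nat.eq_zero_or_pos (CR G) with h0 | h0
  · rw [h0] at h1 ⊢
    push_cast at h1 ⊢
    have h2 : (0 : ℝ) ≤ J.card := Nat.cast_nonneg _
    linarith
  have hCR : (0 : ℝ) < CR G := by exact_mod_cast h0
  have h2 : ((WW D).card : ℝ) ^ 2 / ∑ v ∈ WW D, (3 * (cv D v : ℝ) + 1) ≤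
      ∑ v ∈ WW D, 1 / (3 * (cv D v : ℝ) + 1) := by
    have h := Finset.sq_sum_div_le_sum_sq_div (WW D) (fun _ => (1 : ℝ))
      (g := fun v => 3 * (cv D v : ℝ) + 1) (fun v _ => by positivity)
    simpa using h
  have h3 : ∑ v ∈ WW D, (cv D v : ℝ) ≤ 4 * CR G := by
    rw [← hD, ← sum_cv]
    exact Finset.sum_le_univ_sum_of_nonneg fun v => Nat.cast_nonneg _
  have h4 : ((WW D).card : ℝ) ≤ ∑ v ∈ WW D, (cv D v : ℝ) := by
    have h5 : ∑ v ∈ WW D, (1 : ℝ) ≤ ∑ v ∈ WW D, (cv D v : ℝ) := by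
      refine Finset.sum_le_sum fun v hv => ?_
      have h6 := Finset.card_pos.2 (Finset.mem_filter.1 hv).2
      have h7 := card_pairsAt D v
      exact_mod_cast h6.trans_le h7
    simpa using h5
  have h5 : ∑ v ∈ WW D, (3 * (cv D v : ℝ) + 1) ≤ 16 * CR G := by
    rw [Finset.sum_add_distrib, ← Finset.mul_sum, Finset.sum_const, nsmul_eq_mul, mul_one]
    linarith
  have h6 : ((WW D).card : ℝ) ^ 2 / (16 * CR G) ≤ J.card := by
    rcases (WW D).eq_empty_or_nonempty with hW | hW
    · rw [hW]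
      simp
    · refine le_trans ?_ (h2.trans hJc)
      refine div_le_div_of_nonneg_left (by positivity) ?_ h5
      exact Finset.sum_pos (fun v _ => by positivity) hW
  have h7 : (3 / 8 - 3 * ((WW D).card : ℝ) ^ 2 / (128 * (CR G : ℝ) ^ 2)) * CR G =
      3 / 8 * CR G - 3 / 8 * (((WW D).card : ℝ) ^ 2 / (16 * CR G)) := by
    field_simp
    ring
  rw [h7]
  linarith

end H90.BX
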