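import Pool.Agent.H90.BX.LinFin
import Pool.Agent.H90.BX.Bal2

/-!
# [H90 BX SM1] one glued vertex and one or two odd crossing pairs

`top1` (one vertex `v` glued, arbitrary signs), summed over all sign vectors `t` with the weight `1 - chi S t` or
`(1 - chi S t) * (1 - chi T t)`.
-/

set_option autoImplicit false

open Set
open scoped Classical symmDiff

noncomputable section

namespace H90.BX

open H29.BP H29.BT

variable {V : Type} {G : SimpleGraph V}

/-- the crossings of the ordered pairs of edges with the vertex set `S` -/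
def N2 [Fintype V] (D : Drawing G) (S : Finset V) : ℕ :=
  ∑ p ∈ (ES G ×ˢ ES G).filter (fun p => vs p.1 ∪ vs p.2 = S), D.x p.1 p.2

private theorem orth [Fintype V] (S R : Finset V) : ∑ t : V → ℤˣ, chi S t * chi R t =
    if S = R then ((Finset.univ : Finset (V → ℤˣ)).card : ℝ) else 0 := by
  by_cases h : S = R
  · rw [if_pos h, h, chi_sum_self]
  · rw [if_neg h, chi_orth h]

private theorem chi_two {a b : V} (h : a ≠ b) (t : V → ℤˣ) : chi {a, b} t = sg t a * sg t b := by
  unfold chi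
  rw [Finset.prod_pair h]

private theorem chi_zero (t : V → ℤˣ) : chi ∅ t = 1 := Finset.prod_empty

private theorem sum_chi [Fintype V] (S : Finset V) (h : S.Nonempty) : ∑ t : V → ℤˣ, chi S t = 0 := by
  have h1 := chi_orth (V := V) h.ne_empty
  simpa only [chi_zero, mul_one] using h1

/-- the inequality of `top1` summed with a weight -/
private theorem weighted [Fintype V] (D : Drawing G) (hD : D.cr = CR G) (v : V)
    (w : (V → ℤˣ) → ℝ) (ρ : Finset V → ℝ) (M : ℝ) (hM0 : 0 < M)
    (h0 : ∀ t, 0 ≤ w t) (h1 : ∑ t, w t = M)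
    (h2 : ∀ a b : V, a ≠ b → ∑ t, w t * (sg t a * sg t b) = 0)
    (h4 : ∀ R : Finset V, R.card = 4 → ∑ t, w t * chi R t = -(ρ R * M)) :
    16 * (CR2 G : ℝ) + 2 * cv D v + 3 * (∑ g ∈ (ES G).filter (fun e => v ∉ e),
      ∑ h ∈ (ES G).filter (fun e => v ∉ e), (D.x g h : ℝ) * ρ (vs g ∪ vs h)) ≤ 6 * CR G := by
  obtain ⟨O, hO⟩ : ∃ O, O = (ES G).filter (fun e => v ∉ e) := ⟨_, rfl⟩
  obtain ⟨E, hE⟩ : ∃ E, E = (ES G).filter (fun e => v ∈ e) := ⟨_, rfl⟩
  have hmeet : ∀ e ∈ ES G, ∀ f ∈ ES G, Meets e f → (D.x e f : ℝ) = 0 := by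
    rintro e he f hf ⟨u, hu, hu'⟩
    rw [opt_x D hD he hf hu hu', Nat.cast_zero]
  have hOE : ∀ g ∈ O, g ∈ ES G ∧ v ∉ g := fun g hg => by rwa [hO, Finset.mem_filter] at hg
  have hEE : ∀ g ∈ E, g ∈ ES G ∧ v ∈ g := fun g hg => by rwa [hE, Finset.mem_filter] at hg
  -- pairs without `v`
  have hkey : ∀ g ∈ O, ∀ h ∈ O, ¬ Meets g h → ∑ t, w t * cost t g h =
      3 / 8 * M * (1 - ρ (vs g ∪ vs h)) := by
    intro g hg h hh hm
    have e2 := G.not_isDiag_of_mem_edgeSet (mem_ES.1 (hOE g hg).1)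
    have e3 := G.not_isDiag_of_mem_edgeSet (mem_ES.1 (hOE h hh).1)
    clear hg hh
    induction g using Sym2.ind with
    | _ a b =>
      induction h using Sym2.ind with
      | _ c d =>
        rw [Sym2.mk_isDiag_iff] at e2 e3
        obtain ⟨h5, h6, h7, h8⟩ := not_meets_mk hm
        have hR : vs s(a, b) ∪ vs s(c, d) = {a, b, c, d} := by
          rw [vs_mk, vs_mk]
          ext x
          simp only [Finset.mem_union, Finset.mem_insert, Finset.mem_singleton]
          tauto
        have hRc : ({a, b, c, d} : Finset V).card = 4 := by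
          rw [Finset.card_insert_of_notMem (by simp [e2, h5, h6]),
            Finset.card_insert_of_notMem (by simp [h7, h8]), Finset.card_pair e3]
        have hchi : ∀ t : V → ℤˣ, chi {a, b, c, d} t = sg t a * (sg t b * (sg t c * sg t d)) := by
          intro t
          unfold chi
          rw [Finset.prod_insert (by simp [e2, h5, h6]), Finset.prod_insert (by simp [h7, h8]),
            Finset.prod_pair e3]
        have h00 : ∀ t : V → ℤˣ, w t * cost t s(a, b) s(c, d) =
            3 / 8 * w t - 1 / 8 * (w t * (sg t a * sg t b)) - 1 / 8 * (w t * (sg t c * sg t d)) +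
              1 / 8 * (w t * (sg t a * sg t c)) + 1 / 8 * (w t * (sg t a * sg t d)) +
              1 / 8 * (w t * (sg t b * sg t c)) + 1 / 8 * (w t * (sg t b * sg t d)) +
              3 / 8 * (w t * chi {a, b, c, d} t) := by
          intro t
          rw [cost_mk, hchi]
          ring
        rw [Finset.sum_congr rfl fun t _ => h00 t]
        simp only [Finset.sum_add_distrib, Finset.sum_sub_distrib, ← Finset.mul_sum]
        rw [h2 a b e2, h2 c d e3, h2 a c h5, h2 a d h6, h2 b c h7, h2 b d h8, h4 _ hRc, h1, hR]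
        ring
  have hA : ∑ t, w t * ∑ g ∈ O, ∑ h ∈ O, (D.x g h : ℝ) * cost t g h =
      3 / 8 * M * (∑ g ∈ O, ∑ h ∈ O, (D.x g h : ℝ) -
        ∑ g ∈ O, ∑ h ∈ O, (D.x g h : ℝ) * ρ (vs g ∪ vs h)) := by
    have e1 : ∀ t, w t * ∑ g ∈ O, ∑ h ∈ O, (D.x g h : ℝ) * cost t g h =
        ∑ g ∈ O, ∑ h ∈ O, (D.x g h : ℝ) * (w t * cost t g h) := by
      intro t
      rw [Finset.mul_sum]
      refine Finset.sum_congr rfl fun g _ => ?_
      rw [Finset.mul_sum]
      exact Finset.sum_congr rfl fun h _ => by ring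
    rw [Finset.sum_congr rfl fun t _ => e1 t, Finset.sum_comm, ← Finset.sum_sub_distrib,
      Finset.mul_sum]
    refine Finset.sum_congr rfl fun g hg => ?_
    rw [Finset.sum_comm, ← Finset.sum_sub_distrib, Finset.mul_sum]
    refine Finset.sum_congr rfl fun h hh => ?_
    rw [← Finset.mul_sum]
    by_cases hm : Meets g h
    · rw [hmeet g (hOE g hg).1 h (hOE h hh).1 hm]
      ring
    · rw [hkey g hg h hh hm]
      ring
  -- pairs at `v`
  have hkeyB : ∀ e ∈ E, ∀ g ∈ O, ¬ Meets e g → ∑ t, w t *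
      (if ∃ y ∈ e, y ∉ ({v} : Set V) ∧ ∀ u ∈ g, t u = t y then (1 : ℝ) else 0) = 1 / 4 * M := by
    intro e he g hg hm
    have e2 := G.not_isDiag_of_mem_edgeSet (mem_ES.1 (hOE g hg).1)
    have e3 := G.not_isDiag_of_mem_edgeSet (mem_ES.1 (hEE e he).1)
    have hv := (hEE e he).2
    obtain ⟨y, rfl⟩ := Sym2.mem_iff_exists.1 hv
    rw [Sym2.mk_isDiag_iff] at e3
    have hy : y ∉ ({v} : Set V) := fun h => e3 (Set.mem_singleton_iff.1 h).symm
    clear hg
    induction g using Sym2.ind with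
    | _ a b =>
      rw [Sym2.mk_isDiag_iff] at e2
      obtain ⟨h5, h6, h7, h8⟩ := not_meets_mk hm
      simp only [ind_eq ({v} : Set V) _ rfl hy]
      have h00 : ∀ t : V → ℤˣ, w t * (1 / 4 + 1 / 4 * (sg t a * sg t y) +
          1 / 4 * (sg t b * sg t y) + 1 / 4 * (sg t a * sg t b)) =
          1 / 4 * w t + 1 / 4 * (w t * (sg t a * sg t y)) + 1 / 4 * (w t * (sg t b * sg t y)) +
            1 / 4 * (w t * (sg t a * sg t b)) := by
        intro t
        ring
      rw [Finset.sum_congr rfl fun t _ => h00 t]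
      simp only [Finset.sum_add_distrib, ← Finset.mul_sum]
      rw [h2 a y h7.symm, h2 b y h8.symm, h2 a b e2, h1]
      ring
  have hB : ∑ t, w t * ∑ e ∈ E, ∑ g ∈ O, (D.x e g : ℝ) *
      (if ∃ y ∈ e, y ∉ ({v} : Set V) ∧ ∀ u ∈ g, t u = t y then 1 else 0) =
      1 / 4 * M * ∑ e ∈ E, ∑ g ∈ O, (D.x e g : ℝ) := by
    have e1 : ∀ t : V → ℤˣ, w t * ∑ e ∈ E, ∑ g ∈ O, (D.x e g : ℝ) *
        (if ∃ y ∈ e, y ∉ ({v} : Set V) ∧ ∀ u ∈ g, t u = t y then 1 else 0) =
        ∑ e ∈ E, ∑ g ∈ O, (D.x e g : ℝ) * (w t *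
          (if ∃ y ∈ e, y ∉ ({v} : Set V) ∧ ∀ u ∈ g, t u = t y then 1 else 0)) := by
      intro t
      rw [Finset.mul_sum]
      refine Finset.sum_congr rfl fun g _ => ?_
      rw [Finset.mul_sum]
      exact Finset.sum_congr rfl fun h _ => by ring
    rw [Finset.sum_congr rfl fun t _ => e1 t, Finset.sum_comm, Finset.mul_sum]
    refine Finset.sum_congr rfl fun e he => ?_
    rw [Finset.sum_comm, Finset.mul_sum]
    refine Finset.sum_congr rfl fun g hg => ?_
    rw [← Finset.mul_sum]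
    by_cases hm : Meets e g
    · rw [hmeet e (hEE e he).1 g (hOE g hg).1 hm]
      ring
    · rw [hkeyB e he g hg hm]
      ring
  have htop : ∑ t, w t * (2 * (CR2 G : ℝ)) ≤ ∑ t, w t *
      ((∑ g ∈ O, ∑ h ∈ O, (D.x g h : ℝ) * cost t g h) +
      2 * (∑ e ∈ E, ∑ g ∈ O, (D.x e g : ℝ) *
        (if ∃ y ∈ e, y ∉ ({v} : Set V) ∧ ∀ u ∈ g, t u = t y then 1 else 0))) := by
    refine Finset.sum_le_sum fun t _ => mul_le_mul_of_nonneg_left ?_ (h0 t)
    have h := top1 D v t
    rw [← hO, ← hE] at h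
    refine h.trans (le_of_eq ?_)
    congr 2
    refine Finset.sum_congr rfl fun e _ => Finset.sum_congr rfl fun g _ => ?_
    split_ifs <;> rfl
  rw [← Finset.sum_mul, h1] at htop
  simp only [mul_add, Finset.sum_add_distrib] at htop
  have e5 : ∀ t : V → ℤˣ, w t * (2 * (∑ e ∈ E, ∑ g ∈ O, (D.x e g : ℝ) *
        (if ∃ y ∈ e, y ∉ ({v} : Set V) ∧ ∀ u ∈ g, t u = t y then 1 else 0))) =
      2 * (w t * ∑ e ∈ E, ∑ g ∈ O, (D.x e g : ℝ) *
        (if ∃ y ∈ e, y ∉ ({v} : Set V) ∧ ∀ u ∈ g, t u = t y then 1 else 0)) := fun t => by ring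
  rw [hA, Finset.sum_congr rfl fun t _ => e5 t, ← Finset.mul_sum, hB] at htop
  -- the sums over all pairs
  have hsplit : ∀ F : Sym2 V → ℝ, ∑ f ∈ ES G, F f = ∑ f ∈ E, F f + ∑ f ∈ O, F f := by
    intro F
    rw [hE, hO]
    exact (Finset.sum_filter_add_sum_filter_not (ES G) (fun e => v ∈ e) F).symm
  have hEE0 : ∑ e ∈ E, ∑ f ∈ E, (D.x e f : ℝ) = 0 := by
    refine Finset.sum_eq_zero fun e he => Finset.sum_eq_zero fun f hf => ?_
    rw [opt_x D hD (hEE e he).1 (hEE f hf).1 (hEE e he).2 (hEE f hf).2, Nat.cast_zero]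
  have hcre : (cv D v : ℝ) = ∑ e ∈ E, ∑ f ∈ O, (D.x e f : ℝ) := by
    have h3 : ∀ e ∈ E, (cre D e : ℝ) = ∑ f ∈ E, (D.x e f : ℝ) + ∑ f ∈ O, (D.x e f : ℝ) := by
      intro e _
      unfold cre
      push_cast
      exact hsplit fun f => (D.x e f : ℝ)
    unfold cv
    rw [← hE]
    push_cast
    rw [Finset.sum_congr rfl h3, Finset.sum_add_distrib, hEE0, zero_add]
  have hOE' : ∑ e ∈ O, ∑ f ∈ E, (D.x e f : ℝ) = ∑ e ∈ E, ∑ f ∈ O, (D.x e f : ℝ) := by
    rw [Finset.sum_comm]
    refine Finset.sum_congr rfl fun e _ => Finset.sum_congr rfl fun f _ => ?_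
    rw [D.x_comm]
  have htot : 2 * (CR G : ℝ) = 2 * (∑ e ∈ E, ∑ f ∈ O, (D.x e f : ℝ)) +
      ∑ g ∈ O, ∑ h ∈ O, (D.x g h : ℝ) := by
    have h4 := D.two_mul_cr
    rw [hD] at h4
    have h5 : (2 * (CR G : ℝ)) = ∑ e ∈ ES G, ∑ f ∈ ES G, (D.x e f : ℝ) := by exact_mod_cast h4
    rw [h5, hsplit]
    have h6 : ∀ e, ∑ f ∈ ES G, (D.x e f : ℝ) = ∑ f ∈ E, (D.x e f : ℝ) + ∑ f ∈ O, (D.x e f : ℝ) :=
      fun e => hsplit fun f => (D.x e f : ℝ)
    simp only [h6]
    rw [Finset.sum_add_distrib, Finset.sum_add_distrib, hEE0, hOE']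
    ring
  rw [← hO]
  rw [← hcre] at htop htot
  obtain ⟨R, hR⟩ : ∃ R, R = ∑ g ∈ O, ∑ h ∈ O, (D.x g h : ℝ) * ρ (vs g ∪ vs h) := ⟨_, rfl⟩
  rw [← hR] at htop ⊢
  have h7 : ∑ g ∈ O, ∑ h ∈ O, (D.x g h : ℝ) = 2 * (CR G : ℝ) - 2 * cv D v := by linarith
  rw [h7] at htop
  have h8 : M * (2 * (CR2 G : ℝ)) ≤
      M * (3 / 8 * (2 * (CR G : ℝ) - 2 * cv D v - R) + 1 / 2 * cv D v) := by
    refine htop.trans (le_of_eq ?_)
    ring
  have h9 := le_of_mul_le_mul_left h8 hM0
  linarith

/-- the crossings with the vertex set `S`, `v ∉ S`, are crossings of edges without `v` -/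
private theorem N2_eq [Fintype V] (D : Drawing G) (v : V) (S : Finset V) (hvS : v ∉ S) :
    ∑ g ∈ (ES G).filter (fun e => v ∉ e), ∑ h ∈ (ES G).filter (fun e => v ∉ e),
      (D.x g h : ℝ) * (if vs g ∪ vs h = S then 1 else 0) = N2 D S := by
  have e0 : (N2 D S : ℝ) = ∑ g ∈ ES G, ∑ h ∈ ES G,
      if vs g ∪ vs h = S then (D.x g h : ℝ) else 0 := by
    unfold N2
    push_cast
    rw [Finset.sum_filter, Finset.sum_product]
  rw [e0, Finset.sum_filter]
  refine Finset.sum_congr rfl fun g _ => ?_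
  by_cases hg : v ∈ g
  · rw [if_neg (fun h => h hg)]
    refine (Finset.sum_eq_zero fun h _ => ?_).symm
    rw [if_neg]
    intro hS
    apply hvS
    rw [← hS]
    exact Finset.mem_union_left _ (Finset.mem_filter.2 ⟨Finset.mem_univ _, hg⟩)
  · rw [if_pos hg, Finset.sum_filter]
    refine Finset.sum_congr rfl fun h _ => ?_
    by_cases hh : v ∈ h
    · rw [if_neg (fun h' => h' hh), if_neg]
      intro hS
      apply hvS
      rw [← hS]
      exact Finset.mem_union_right _ (Finset.mem_filter.2 ⟨Finset.mem_univ _, hh⟩)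
    · rw [if_pos hh]
      split_ifs <;> simp

private theorem chi_cases [Fintype V] (S : Finset V) (t : V → ℤˣ) : chi S t = 1 ∨ chi S t = -1 := by
  have h := chi_mul_self S t
  rcases mul_self_eq_one_iff.1 h with h | h
  · exact Or.inl h
  · exact Or.inr h

theorem gain_one [Fintype V] (D : Drawing G) (hD : D.cr = CR G) (v : V) (S : Finset V)
    (hS : S.card = 4) (hvS : v ∉ S) :
    16 * (CR2 G : ℝ) + 2 * cv D v + 3 * N2 D S ≤ 6 * CR G := by
  obtain ⟨M, hM⟩ : ∃ M : ℝ, M = ((Finset.univ : Finset (V → ℤˣ)).card : ℝ) := ⟨_, rfl⟩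
  have hM0 : 0 < M := by
    rw [hM]
    exact_mod_cast Finset.card_pos.2 ⟨fun _ => 1, Finset.mem_univ _⟩
  have hSn : S.Nonempty := Finset.card_pos.1 (by omega)
  have h := weighted D hD v (fun t => 1 - chi S t) (fun R => if R = S then 1 else 0) M hM0
    (fun t => by rcases chi_cases S t with h | h <;> rw [h] <;> norm_num)
    (by
      rw [Finset.sum_sub_distrib, sum_chi S hSn, Finset.sum_const, nsmul_eq_mul, ← hM]
      ring)
    (fun a b hab => by
      have e1 : ∀ t : V → ℤˣ, (1 - chi S t) * (sg t a * sg t b) = chi {a, b} t - chi S t * chi {a, b} t := by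
        intro t
        rw [chi_two hab]
        ring
      have e2 : S ≠ {a, b} := by
        intro h
        rw [h, Finset.card_pair hab] at hS
        omega
      rw [Finset.sum_congr rfl fun t _ => e1 t, Finset.sum_sub_distrib, sum_chi _ ⟨a, by simp⟩,
        chi_orth e2, sub_zero])
    (fun R hR => by
      have e1 : ∀ t : V → ℤˣ, (1 - chi S t) * chi R t = chi R t - chi S t * chi R t := by
        intro t
        ring
      rw [Finset.sum_congr rfl fun t _ => e1 t, Finset.sum_sub_distrib,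
        sum_chi R (Finset.card_pos.1 (by omega)), orth, ← hM]
      by_cases h : S = R
      · rw [if_pos h, if_pos h.symm]
        ring
      · rw [if_neg h, if_neg (fun h' => h h'.symm)]
        ring)
  rw [N2_eq D v S hvS] at h
  exact h

theorem gain_two [Fintype V] (D : Drawing G) (hD : D.cr = CR G) (v : V) (S T : Finset V)
    (hS : S.card = 4) (hT : T.card = 4) (hvS : v ∉ S) (hvT : v ∉ T) (hST : (S ∩ T).card ≤ 1) :
    16 * (CR2 G : ℝ) + 2 * cv D v + 3 * (N2 D S + N2 D T) ≤ 6 * CR G := by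
  obtain ⟨M, hM⟩ : ∃ M : ℝ, M = ((Finset.univ : Finset (V → ℤˣ)).card : ℝ) := ⟨_, rfl⟩
  have hM0 : 0 < M := by
    rw [hM]
    exact_mod_cast Finset.card_pos.2 ⟨fun _ => 1, Finset.mem_univ _⟩
  have hSn : S.Nonempty := Finset.card_pos.1 (by omega)
  have hTn : T.Nonempty := Finset.card_pos.1 (by omega)
  have hST' : S ≠ T := by
    rintro rfl
    rw [Finset.inter_self] at hST
    omega
  have hU : 6 ≤ (S ∆ T).card := by
    have h1 : (S \ T).card + (S ∩ T).card = S.card := Finset.card_sdiff_add_card_inter S T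
    have h2 : (T \ S).card + (T ∩ S).card = T.card := Finset.card_sdiff_add_card_inter T S
    have h3 : (S ∆ T).card = (S \ T).card + (T \ S).card :=
      Finset.card_union_of_disjoint disjoint_sdiff_sdiff
    rw [Finset.inter_comm] at h2
    omega
  have hUn : (S ∆ T).Nonempty := Finset.card_pos.1 (by omega)
  have hw : ∀ t : V → ℤˣ, (1 - chi S t) * (1 - chi T t) = 1 - chi S t - chi T t + chi (S ∆ T) t := by
    intro t
    rw [← chi_mul]
    ring
  have h := weighted D hD v (fun t => (1 - chi S t) * (1 - chi T t))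
    (fun R => (if R = S then 1 else 0) + (if R = T then 1 else 0)) M hM0
    (fun t => by
      rcases chi_cases S t with h | h <;> rcases chi_cases T t with h' | h' <;> rw [h, h'] <;> norm_num)
    (by
      simp only [hw]
      rw [Finset.sum_add_distrib, Finset.sum_sub_distrib, Finset.sum_sub_distrib, sum_chi S hSn,
        sum_chi T hTn, sum_chi _ hUn, Finset.sum_const, nsmul_eq_mul, ← hM]
      ring)
    (fun a b hab => by
      have e1 : ∀ t : V → ℤˣ, (1 - chi S t) * (1 - chi T t) * (sg t a * sg t b) =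
          chi {a, b} t - chi S t * chi {a, b} t - chi T t * chi {a, b} t +
            chi (S ∆ T) t * chi {a, b} t := by
        intro t
        rw [hw, chi_two hab]
        ring
      have e2 : ∀ R : Finset V, 4 ≤ R.card → R ≠ {a, b} := by
        intro R hR h
        rw [h, Finset.card_pair hab] at hR
        omega
      rw [Finset.sum_congr rfl fun t _ => e1 t, Finset.sum_add_distrib, Finset.sum_sub_distrib,
        Finset.sum_sub_distrib, sum_chi _ ⟨a, by simp⟩, chi_orth (e2 S (by omega)),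
        chi_orth (e2 T (by omega)), chi_orth (e2 _ (by omega))]
      ring)
    (fun R hR => by
      have e1 : ∀ t : V → ℤˣ, (1 - chi S t) * (1 - chi T t) * chi R t =
          chi R t - chi S t * chi R t - chi T t * chi R t + chi (S ∆ T) t * chi R t := by
        intro t
        rw [hw]
        ring
      have e2 : S ∆ T ≠ R := by
        rintro rfl
        omega
      rw [Finset.sum_congr rfl fun t _ => e1 t, Finset.sum_add_distrib, Finset.sum_sub_distrib,
        Finset.sum_sub_distrib, sum_chi R (Finset.card_pos.1 (by omega)), orth S R, orth T R,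
        chi_orth e2, ← hM]
      by_cases h : S = R
      · by_cases h' : T = R
        · exact absurd (h.trans h'.symm) hST'
        · rw [if_pos h, if_neg h', if_pos h.symm, if_neg (fun h'' => h' h''.symm)]
          ring
      · by_cases h' : T = R
        · rw [if_neg h, if_pos h', if_neg (fun h'' => h h''.symm), if_pos h'.symm]
          ring
        · rw [if_neg h, if_neg h', if_neg (fun h'' => h h''.symm), if_neg (fun h'' => h' h''.symm)]
          ring)
  have h5 : ∑ g ∈ (ES G).filter (fun e => v ∉ e), ∑ h ∈ (ES G).filter (fun e => v ∉ e),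
      (D.x g h : ℝ) * ((if vs g ∪ vs h = S then 1 else 0) + (if vs g ∪ vs h = T then 1 else 0)) =
      N2 D S + N2 D T := by
    rw [← N2_eq D v S hvS, ← N2_eq D v T hvT, ← Finset.sum_add_distrib]
    refine Finset.sum_congr rfl fun g _ => ?_
    rw [← Finset.sum_add_distrib]
    exact Finset.sum_congr rfl fun h _ => by ring
  rw [h5] at h
  exact h

end H90.BX
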