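import Pool.Agent.H90.BX.Sm1

/-!
# [H90 BX SM2] counting

`c = cv D v` the largest number of crossings on the edges at one vertex, `C = CR G`.
`gain_plus3`: if `c < C` there is an ordered crossing pair `(e, f)` of edges which do not contain `v` (otherwise every crossing is on
an edge at `v` and `C ≤ c`); `S = vs e ∪ vs f`, `v ∉ S`, `2 ≤ N2 D S` (both orders), `gain_one`.
`gain_plus6`: let `Q = (QQ D).filter (v ∉ ·)` (`QQ D`, `card_QQ`, `of_QQ`, `mem_QQ` in LinFin.lean). If `4 ≤ N2 D S` for some `S ∈ Q`: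
`gain_one`. If `(S ∩ T).card ≤ 1` for two `S, T ∈ Q`: `gain_two`. Otherwise `N2 D S ≤ 3`, so `≤ 2` (`N2` is even, or: use
`N2 D S < 4` and evenness `N2_even`), and `2 ≤ (S ∩ T).card` for all `S, T ∈ Q`. The crossings which are not on edges at `v`:
`2 C - 2 c = ∑_{S ∈ Q} N2 D S ≤ 2 |Q|`, so `C - c ≤ |Q|`. And `∑_{S, T ∈ Q} (S ∩ T).card = ∑_z d z ^ 2` with
`d z = #{S ∈ Q | z ∈ S} ≤ cv D z ≤ c` (`of_QQ`, `card_pairsAt`), `∑_z d z = 4 |Q|`, so
`4 |Q| + 2 |Q| (|Q| - 1) ≤ 4 c |Q|`, `|Q| ≤ 2 c - 1` and `C ≤ 3 c - 1`, a contradiction.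
-/

set_option autoImplicit false

open Set
open scoped Classical symmDiff

noncomputable section

namespace H90.BX

open H29.BP H29.BT

variable {V : Type} {G : SimpleGraph V}

private theorem mem_un [Fintype V] {p : Sym2 V × Sym2 V} {z : V} :
    z ∈ vs p.1 ∪ vs p.2 ↔ z ∈ p.1 ∨ z ∈ p.2 := by
  unfold vs
  rw [Finset.mem_union, Finset.mem_filter, Finset.mem_filter]
  simp

private theorem N2_even [Fintype V] (D : Drawing G) (S : Finset V) : 2 ∣ N2 D S := by
  rw [← ZMod.natCast_eq_zero_iff]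
  unfold N2
  push_cast
  refine Finset.sum_involution (fun p _ => p.swap) ?_ ?_ ?_ ?_
  · intro p _
    change (D.x p.1 p.2 : ZMod 2) + (D.x p.2 p.1 : ZMod 2) = 0
    rw [D.x_comm p.2 p.1]
    exact CharTwo.add_self_eq_zero _
  · intro p _ h1 h2
    apply h1
    have h3 : p.2 = p.1 := congrArg Prod.fst h2
    unfold Drawing.x
    rw [if_pos h3.symm, Nat.cast_zero]
  · intro p hp
    rw [Finset.mem_filter, Finset.mem_product] at hp ⊢
    refine ⟨⟨hp.1.2, hp.1.1⟩, ?_⟩
    change vs p.2 ∪ vs p.1 = S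
    rw [Finset.union_comm]
    exact hp.2
  · intro p _
    exact Prod.swap_swap p

private theorem two_le [Fintype V] (D : Drawing G) {S : Finset V} (hS : S ∈ QQ D) :
    2 ≤ N2 D S := by
  unfold QQ at hS
  rw [Finset.mem_image] at hS
  obtain ⟨p, hp, hpS⟩ := hS
  rw [Finset.mem_filter] at hp
  have h1 : D.x p.1 p.2 ≤ N2 D S := by
    unfold N2
    exact Finset.single_le_sum (f := fun p : Sym2 V × Sym2 V => D.x p.1 p.2)
      (fun _ _ => Nat.zero_le _) (Finset.mem_filter.2 ⟨hp.1, hpS⟩)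
  have h2 : 0 < D.x p.1 p.2 := Nat.pos_of_ne_zero hp.2
  obtain ⟨k, hk⟩ := N2_even D S
  omega

private theorem sum_split [Fintype V] (D : Drawing G) (hD : D.cr = CR G) (v : V) :
    ∑ S ∈ (QQ D).filter (fun S => v ∉ S), N2 D S + 2 * cv D v = 2 * CR G := by
  have h0 : 2 * CR G = ∑ p ∈ ES G ×ˢ ES G, D.x p.1 p.2 := by
    rw [← hD, D.two_mul_cr, Finset.sum_product]
  have h1 : ∀ p ∈ ES G ×ˢ ES G, D.x p.1 p.2 = (if v ∉ vs p.1 ∪ vs p.2 then D.x p.1 p.2 else 0) +
      (if v ∈ p.1 then D.x p.1 p.2 else 0) + (if v ∈ p.2 then D.x p.1 p.2 else 0) := by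
    intro p hp
    rw [Finset.mem_product] at hp
    by_cases ha : v ∈ p.1
    · have hm : v ∈ vs p.1 ∪ vs p.2 := mem_un.2 (Or.inl ha)
      by_cases hb : v ∈ p.2
      · rw [opt_x D hD hp.1 hp.2 ha hb]
        simp
      · rw [if_neg (fun h => h hm), if_pos ha, if_neg hb]
        ring
    · by_cases hb : v ∈ p.2
      · have hm : v ∈ vs p.1 ∪ vs p.2 := mem_un.2 (Or.inr hb)
        rw [if_neg (fun h => h hm), if_neg ha, if_pos hb]
        ring
      · have hm : v ∉ vs p.1 ∪ vs p.2 := fun h => (mem_un.1 h).elim ha hb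
        rw [if_pos hm, if_neg ha, if_neg hb]
        ring
  have h2 : ∑ p ∈ ES G ×ˢ ES G, (if v ∈ p.1 then D.x p.1 p.2 else 0) = cv D v := by
    rw [Finset.sum_product]
    unfold cv cre
    rw [Finset.sum_filter]
    refine Finset.sum_congr rfl fun e _ => ?_
    by_cases he : v ∈ e
    · simp [he]
    · simp [he]
  have h3 : ∑ p ∈ ES G ×ˢ ES G, (if v ∈ p.2 then D.x p.1 p.2 else 0) = cv D v := by
    rw [Finset.sum_product_right]
    unfold cv cre
    rw [Finset.sum_filter]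
    refine Finset.sum_congr rfl fun e _ => ?_
    by_cases he : v ∈ e
    · simp only [he, if_true]
      exact Finset.sum_congr rfl fun f _ => D.x_comm f e
    · simp [he]
  have h4 : ∑ p ∈ ES G ×ˢ ES G, (if v ∉ vs p.1 ∪ vs p.2 then D.x p.1 p.2 else 0) =
      ∑ S ∈ (QQ D).filter (fun S => v ∉ S), N2 D S := by
    rw [← Finset.sum_filter, ← Finset.sum_filter_ne_zero,
      ← Finset.sum_fiberwise_of_maps_to (t := (QQ D).filter (fun S => v ∉ S))
        (g := fun p : Sym2 V × Sym2 V => vs p.1 ∪ vs p.2)]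
    · refine Finset.sum_congr rfl fun S hS => ?_
      rw [Finset.mem_filter] at hS
      unfold N2
      refine Finset.sum_subset ?_ ?_
      · intro p hp
        rw [Finset.mem_filter, Finset.mem_filter, Finset.mem_filter] at hp
        exact Finset.mem_filter.2 ⟨hp.1.1.1, hp.2⟩
      · intro p hp hp'
        rw [Finset.mem_filter] at hp
        by_contra hx
        apply hp'
        rw [Finset.mem_filter, Finset.mem_filter, Finset.mem_filter]
        exact ⟨⟨⟨hp.1, by rw [hp.2]; exact hS.2⟩, hx⟩, hp.2⟩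
    · intro p hp
      rw [Finset.mem_filter, Finset.mem_filter] at hp
      rw [Finset.mem_filter]
      refine ⟨?_, hp.1.2⟩
      unfold QQ
      exact Finset.mem_image.2 ⟨p, Finset.mem_filter.2 ⟨hp.1.1, hp.2⟩, rfl⟩
  rw [h0, Finset.sum_congr rfl h1, Finset.sum_add_distrib, Finset.sum_add_distrib, h2, h3, h4]
  ring

theorem gain_plus3 [Fintype V] (D : Drawing G) (hD : D.cr = CR G) (v : V) (h : cv D v < CR G) :
    8 * (CR2 G : ℝ) + cv D v + 3 ≤ 3 * CR G := by
  have h1 := sum_split D hD v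
  have h2 : ∃ S, S ∈ (QQ D).filter (fun S => v ∉ S) := by
    by_contra hcon
    push Not at hcon
    rw [Finset.sum_eq_zero fun S hS => absurd hS (hcon S)] at h1
    omega
  obtain ⟨S, hS⟩ := h2
  rw [Finset.mem_filter] at hS
  have h3 := gain_one D hD v S (card_QQ D hD S hS.1) hS.2
  have h4 : (2 : ℝ) ≤ N2 D S := by exact_mod_cast two_le D hS.1
  linarith

theorem gain_plus6 [Fintype V] (D : Drawing G) (hD : D.cr = CR G) (v : V)
    (hmax : ∀ u, cv D u ≤ cv D v) (h3 : 3 * cv D v ≤ CR G) (h0 : 0 < CR G) :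
    8 * (CR2 G : ℝ) + cv D v + 6 ≤ 3 * CR G := by
  by_cases hA : ∃ S ∈ (QQ D).filter (fun S => v ∉ S), 4 ≤ N2 D S
  · obtain ⟨S, hS, h4⟩ := hA
    rw [Finset.mem_filter] at hS
    have h5 := gain_one D hD v S (card_QQ D hD S hS.1) hS.2
    have h6 : (4 : ℝ) ≤ N2 D S := by exact_mod_cast h4
    linarith
  by_cases hB : ∃ S ∈ (QQ D).filter (fun S => v ∉ S), ∃ T ∈ (QQ D).filter (fun S => v ∉ S),
      (S ∩ T).card ≤ 1
  · obtain ⟨S, hS, T, hT, hST⟩ := hB
    rw [Finset.mem_filter] at hS hT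
    have h5 := gain_two D hD v S T (card_QQ D hD S hS.1) (card_QQ D hD T hT.1) hS.2 hT.2 hST
    have h6 : (2 : ℝ) ≤ N2 D S := by exact_mod_cast two_le D hS.1
    have h7 : (2 : ℝ) ≤ N2 D T := by exact_mod_cast two_le D hT.1
    linarith
  exfalso
  push Not at hA hB
  obtain ⟨Q, hQ⟩ : ∃ Q, Q = (QQ D).filter (fun S => v ∉ S) := ⟨_, rfl⟩
  have h1 := sum_split D hD v
  rw [← hQ] at h1 hA hB
  have hQQ : ∀ S ∈ Q, S ∈ QQ D := by
    intro S hS
    rw [hQ] at hS
    exact (Finset.mem_filter.1 hS).1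
  have h2 : ∑ S ∈ Q, N2 D S ≤ ∑ S ∈ Q, 2 := by
    refine Finset.sum_le_sum fun S hS => ?_
    have h5 := hA S hS
    obtain ⟨k, hk⟩ := N2_even D S
    omega
  rw [Finset.sum_const, smul_eq_mul] at h2
  have hne : Q.Nonempty := by
    rw [Finset.nonempty_iff_ne_empty]
    intro h5
    rw [h5, Finset.card_empty] at h2
    rw [h5] at h1
    omega
  obtain ⟨S, hS⟩ := hne
  have hd : ∀ z : V, (Q.filter fun T => z ∈ T).card ≤ cv D v := by
    intro z
    refine le_trans ?_ (hmax z)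
    refine le_trans ?_ (card_pairsAt D z)
    refine le_trans (Finset.card_le_card ?_)
      (Finset.card_image_le (f := fun p : Sym2 V × Sym2 V => vs p.1 ∪ vs p.2))
    intro T hT
    rw [Finset.mem_filter] at hT
    obtain ⟨p, hp, hpT⟩ := of_QQ D (hQQ T hT.1) hT.2
    exact Finset.mem_image.2 ⟨p, hp, hpT⟩
  have h5 : ∑ T ∈ Q, (S ∩ T).card ≤ 4 * cv D v := by
    have h6 : ∀ T ∈ Q, (S ∩ T).card = ∑ z ∈ S, if z ∈ T then 1 else 0 := by
      intro T _
      rw [← Finset.card_filter, Finset.filter_mem_eq_inter]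
    rw [Finset.sum_congr rfl h6, Finset.sum_comm]
    have h7 : ∀ z ∈ S, (∑ T ∈ Q, if z ∈ T then 1 else 0) ≤ cv D v := by
      intro z _
      rw [← Finset.card_filter]
      exact hd z
    refine (Finset.sum_le_sum h7).trans ?_
    rw [Finset.sum_const, smul_eq_mul, card_QQ D hD S (hQQ S hS)]
  have h6 : 4 + 2 * (Q.erase S).card ≤ ∑ T ∈ Q, (S ∩ T).card := by
    rw [← Finset.add_sum_erase Q _ hS, Finset.inter_self, card_QQ D hD S (hQQ S hS)]
    refine Nat.add_le_add_left ?_ _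
    have h7 : ∑ T ∈ Q.erase S, 2 ≤ ∑ T ∈ Q.erase S, (S ∩ T).card := by
      refine Finset.sum_le_sum fun T hT => ?_
      exact hB S hS T (Finset.mem_of_mem_erase hT)
    rw [Finset.sum_const, smul_eq_mul] at h7
    omega
  rw [Finset.card_erase_of_mem hS] at h6
  have h7 : 0 < Q.card := Finset.card_pos.2 ⟨S, hS⟩
  omega

end H90.BX
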