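import Pool.Agent.H90.BX.Sm2
import Pool.Agent.H90.BX.Root

/-!
# [H90 BX SM3] the inequality of the question for graphs with crossing number at most 16
-/

set_option autoImplicit false

open Set
open scoped Classical symmDiff

noncomputable section

namespace H90.BX

open H29.BP H29.BT

variable {V : Type}

private theorem mem_WW [Fintype V] {G : SimpleGraph V} (D : Drawing G) {v : V} (h : cv D v ≠ 0) :
    v ∈ WW D := by
  unfold cv at h
  obtain ⟨e, he, hce⟩ := Finset.exists_ne_zero_of_sum_ne_zero h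
  unfold cre at hce
  obtain ⟨f, hf, hx⟩ := Finset.exists_ne_zero_of_sum_ne_zero hce
  rw [Finset.mem_filter] at he
  exact Finset.mem_filter.2 ⟨Finset.mem_univ _, (e, f), (mem_pairsAt D v).2 ⟨⟨he.1, hf⟩, he.2, hx⟩⟩

private theorem two_crossings [Fintype V] {G : SimpleGraph V} (D : Drawing G) (hD : D.cr = CR G)
    (h : ∀ u, cv D u ≤ 2) : 32 * (CR2 G : ℝ) ≤ 9 * CR G := by
  have h1 := vertices D hD
  have h2 := sum_cv D
  have h3 : ∑ v : V, (cv D v : ℝ) = ∑ v ∈ WW D, (cv D v : ℝ) := by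
    refine (Finset.sum_subset (Finset.subset_univ _) fun v _ hv => ?_).symm
    by_contra h4
    exact hv (mem_WW D fun h5 => h4 (by rw [h5, Nat.cast_zero]))
  have h4 : ∑ v ∈ WW D, (cv D v : ℝ) ≤ ∑ _v ∈ WW D, (2 : ℝ) :=
    Finset.sum_le_sum fun v _ => by exact_mod_cast h v
  rw [Finset.sum_const, nsmul_eq_mul] at h4
  rw [hD] at h2
  have h5 : 2 * (CR G : ℝ) ≤ (WW D).card := by linarith
  rcases Nat.eq_zero_or_pos (CR G) with h0 | h0
  · rw [h0] at h1 ⊢
    push_cast at h1 ⊢
    linarith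
  have hCR : (0 : ℝ) < CR G := by exact_mod_cast h0
  have h6 : (4 : ℝ) * CR G ^ 2 ≤ ((WW D).card : ℝ) ^ 2 := by nlinarith
  have h7 : 3 / 32 ≤ 3 * ((WW D).card : ℝ) ^ 2 / (128 * (CR G : ℝ) ^ 2) := by
    rw [div_le_div_iff₀ (by norm_num) (by positivity)]
    nlinarith
  have h8 : (3 / 8 - 3 * ((WW D).card : ℝ) ^ 2 / (128 * (CR G : ℝ) ^ 2)) * CR G ≤
      (3 / 8 - 3 / 32) * CR G := mul_le_mul_of_nonneg_right (by linarith) hCR.le
  linarith

theorem sixteen {V : Type} [Finite V] (G : SimpleGraph V) (h : CR G ≤ 16) :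
    24 * CR2 G ≤ 7 * CR G := by
  cases nonempty_fintype V
  obtain ⟨D, hD⟩ := exists_opt G
  have hsum := sum_cv D
  rw [hD] at hsum
  rcases Nat.eq_zero_or_pos (CR G) with h0 | h0
  · have h1 := root_gain G
    rw [h0] at h1 ⊢
    have h2 : (0 : ℝ) ≤ √(3 * ((0 : ℕ) : ℝ)) := Real.sqrt_nonneg _
    have h3 : (8 * (CR2 G : ℝ)) ≤ 0 := by
      push_cast at h1 h2
      linarith
    have h4 : (CR2 G : ℝ) ≤ 0 := by linarith
    have h5 : CR2 G ≤ 0 := by exact_mod_cast h4
    omega
  have hCR : (0 : ℝ) < CR G := by exact_mod_cast h0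
  have hne : Nonempty V := by
    by_contra hne
    rw [not_nonempty_iff] at hne
    rw [Finset.univ_eq_empty, Finset.sum_empty] at hsum
    linarith
  obtain ⟨v, -, hv⟩ := Finset.exists_max_image Finset.univ (cv D) Finset.univ_nonempty
  have hmax : ∀ u, cv D u ≤ cv D v := fun u => hv u (Finset.mem_univ _)
  have hc1 : 1 ≤ cv D v := by
    by_contra hc
    have h1 : ∀ u, (cv D u : ℝ) = 0 := by
      intro u
      have := hmax u
      have h2 : cv D u = 0 := by omega
      rw [h2, Nat.cast_zero]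
    rw [Finset.sum_congr rfl fun u _ => h1 u, Finset.sum_const_zero] at hsum
    linarith
  have hb : 8 * CR2 G + cv D v ≤ 3 * CR G := by
    have h1 := baby D hD v
    have h2 : (8 * (CR2 G : ℝ)) + cv D v ≤ 3 * CR G := by
      unfold cv
      push_cast
      linarith
    exact_mod_cast h2
  have h3 : cv D v < CR G → 8 * CR2 G + cv D v + 3 ≤ 3 * CR G := fun hh => by
    have h1 := gain_plus3 D hD v hh
    exact_mod_cast h1
  have h6 : 3 * cv D v ≤ CR G → 8 * CR2 G + cv D v + 6 ≤ 3 * CR G := fun hh => by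
    have h1 := gain_plus6 D hD v hmax hh h0
    exact_mod_cast h1
  have h2 : cv D v ≤ 2 → 32 * CR2 G ≤ 9 * CR G := fun hh => by
    have h1 := two_crossings D hD fun u => (hmax u).trans hh
    exact_mod_cast h1
  generalize CR G = C at *
  generalize CR2 G = c2 at *
  generalize cv D v = c at *
  clear hsum hCR hv hmax hD
  interval_cases C <;> omega

end H90.BX
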