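import Pool.Agent.H90.BX.PieceV
import Pool.Agent.H90.BX.Cnt3

/-!
# [H90 BX Two] graphs which have a homomorphism to an odd cycle after deleting two vertices

`v`, `w` are the deleted vertices. All edges at `v` are drawn in the first plane, the other edges at `w` in the second
plane, all other edges as in `H29/BP/OcG.lean`. The two classes of the first plane are glued at `v`, those of the second plane
at `w` (`pieceV`).
-/

set_option autoImplicit false

open Set
open scoped Classical

noncomputable section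

namespace H90.BX

open H29.BP H29.BT

section

variable {V : Type} {m : ℕ} (G : SimpleGraph V) (v w : V) (h : V → ZMod m) (i : ZMod m)
  (a : V → Bool)

/-- the edges without a deleted end -/
def Gz : SimpleGraph V where
  Adj x y := G.Adj x y ∧ x ≠ v ∧ x ≠ w ∧ y ≠ v ∧ y ≠ w
  symm := ⟨fun _ _ ⟨h1, h2, h3, h4, h5⟩ => ⟨h1.symm, h4, h5, h2, h3⟩⟩
  loopless := ⟨fun u hu => G.loopless.irrefl u hu.1⟩

/-- the edge is drawn in the first plane -/
def inF (x y : V) : Prop := x = v ∨ y = v ∨ (x ≠ w ∧ y ≠ w ∧ first h i a x y)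

theorem first_symm {x y : V} (hf : first h i a x y) : first h i a y x := by
  unfold first at hf ⊢
  simpa only [and_comm, eq_comm] using hf

theorem inF_symm {x y : V} (hf : inF v w h i a x y) : inF v w h i a y x := by
  rcases hf with hf | hf | ⟨h1, h2, h3⟩
  · exact Or.inr (Or.inl hf)
  · exact Or.inl hf
  · exact Or.inr (Or.inr ⟨h2, h1, first_symm h i a h3⟩)

/-- the graph of the first plane -/
def Ga : SimpleGraph V where
  Adj x y := G.Adj x y ∧ inF v w h i a x y
  symm := ⟨fun _ _ ⟨h1, h2⟩ => ⟨h1.symm, inF_symm v w h i a h2⟩⟩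
  loopless := ⟨fun u hu => G.loopless.irrefl u hu.1⟩

/-- the graph of the second plane -/
def Gb : SimpleGraph V where
  Adj x y := G.Adj x y ∧ ¬ inF v w h i a x y
  symm := ⟨fun _ _ ⟨h1, h2⟩ => ⟨h1.symm, fun h3 => h2 (inF_symm v w h i a h3)⟩⟩
  loopless := ⟨fun u hu => G.loopless.irrefl u hu.1⟩

/-- the class of a vertex in the first plane -/
def k1 (u : V) : Bool := if u = w then false else decide (c1 h i a u = 1)

/-- the class of a vertex in the second plane -/
def k2 (u : V) : Bool := decide (c2 h i a u = 1)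

/-- the edges `e`, `f` are in the same piece -/
def ev (e f : Sym2 V) : Prop :=
  (e ∈ (Ga G v w h i a).edgeSet ∧ f ∈ (Ga G v w h i a).edgeSet ∧
    ∃ u ∈ e, ∃ u' ∈ f, u ≠ v ∧ u' ≠ v ∧ k1 w h i a u = k1 w h i a u') ∨
  (e ∈ (Gb G v w h i a).edgeSet ∧ f ∈ (Gb G v w h i a).edgeSet ∧
    ∃ u ∈ e, ∃ u' ∈ f, u ≠ w ∧ u' ≠ w ∧ k2 h i a u = k2 h i a u')

theorem ev_symm (e f : Sym2 V) : ev G v w h i a e f ↔ ev G v w h i a f e := by
  unfold ev
  constructor
  · rintro (⟨h1, h2, u, hu, u', hu', h3, h4, h5⟩ | ⟨h1, h2, u, hu, u', hu', h3, h4, h5⟩)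
    · exact Or.inl ⟨h2, h1, u', hu', u, hu, h4, h3, h5.symm⟩
    · exact Or.inr ⟨h2, h1, u', hu', u, hu, h4, h3, h5.symm⟩
  · rintro (⟨h1, h2, u, hu, u', hu', h3, h4, h5⟩ | ⟨h1, h2, u, hu, u', hu', h3, h4, h5⟩)
    · exact Or.inl ⟨h2, h1, u', hu', u, hu, h4, h3, h5.symm⟩
    · exact Or.inr ⟨h2, h1, u', hu', u, hu, h4, h3, h5.symm⟩

theorem first_c1 {x y : V} (hf : first h i a x y) : c1 h i a x = c1 h i a y := by
  unfold first at hf
  split_ifs at hf with h2
  · unfold c1
    rw [if_pos h2.1, if_pos h2.2]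
  · exact hf

theorem c1_cases (u : V) : c1 h i a u = 0 ∨ c1 h i a u = 1 := by
  unfold c1
  split_ifs
  · exact Or.inl rfl
  · exact Or.inr rfl
  · exact Or.inl rfl

theorem c2_cases (u : V) : c2 h i a u = 0 ∨ c2 h i a u = 1 := by
  unfold c2
  split_ifs <;> simp

theorem notfirst_c2 (hm : Odd m) (hm3 : 3 ≤ m) {x y : V} (hxy : h y = h x + 1 ∨ h x = h y + 1)
    (hf : ¬ first h i a x y) : c2 h i a x = c2 h i a y := by
  have hCB := CB_edge hm hm3 h i hxy
  unfold first at hf
  unfold c1 at hf
  unfold c2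
  by_cases hx : sp h i x <;> by_cases hy : sp h i y <;> by_cases kx : Even (ps h i x) <;>
    by_cases ky : Even (ps h i y) <;> cases hau : a x <;> cases hav : a y <;>
    simp [CB, hx, hy, kx, ky, hau, hav] at hCB hf ⊢

theorem c1_of_k1 {x y : V} (hx : x ≠ w) (hy : y ≠ w) (hk : k1 w h i a x = k1 w h i a y) :
    c1 h i a x = c1 h i a y := by
  unfold k1 at hk
  rw [if_neg hx, if_neg hy, decide_eq_decide] at hk
  rcases c1_cases h i a x with h1 | h1 <;> rcases c1_cases h i a y with h2 | h2
  · rw [h1, h2]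
  · exact absurd (hk.2 h2) (by rw [h1]; norm_num)
  · exact absurd (hk.1 h1) (by rw [h2]; norm_num)
  · rw [h1, h2]

theorem c2_of_k2 {x y : V} (hk : k2 h i a x = k2 h i a y) : c2 h i a x = c2 h i a y := by
  unfold k2 at hk
  rw [decide_eq_decide] at hk
  rcases c2_cases h i a x with h1 | h1 <;> rcases c2_cases h i a y with h2 | h2
  · rw [h1, h2]
  · exact absurd (hk.2 h2) (by rw [h1]; norm_num)
  · exact absurd (hk.1 h1) (by rw [h2]; norm_num)
  · rw [h1, h2]

end

variable {V : Type} [Finite V] {G : SimpleGraph V} {m : ℕ}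

theorem two_bound (hm : Odd m) (hm3 : 3 ≤ m) (v w : V) (h : V → ZMod m)
    (hh : ∀ x y, (Gz G v w).Adj x y → h y = h x + 1 ∨ h x = h y + 1) (i : ZMod m) (a : V → Bool)
    (D : Drawing G) :
    2 * CR2 G ≤ ∑ e ∈ ES G, ∑ f ∈ ES G, if ev G v w h i a e f then D.x e f else 0 := by
  have hd : Disjoint (Ga G v w h i a) (Gb G v w h i a) := by
    rw [disjoint_iff]
    ext x y
    simp only [SimpleGraph.inf_adj, Ga, Gb, SimpleGraph.bot_adj, iff_false]
    rintro ⟨⟨_, h1⟩, ⟨_, h2⟩⟩
    exact h2 h1
  have hs : Ga G v w h i a ⊔ Gb G v w h i a = G := by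
    ext x y
    simp only [SimpleGraph.sup_adj, Ga, Gb]
    tauto
  have hle1 : Ga G v w h i a ≤ G := fun x y hxy => hxy.1
  have hle2 : Gb G v w h i a ≤ G := fun x y hxy => hxy.1
  have h1 := pieceV D (Ga G v w h i a) hle1 v (k1 w h i a) (by
    rintro x y ⟨_, hf⟩ hx hy
    rcases hf with hf | hf | ⟨hxw, hyw, hf⟩
    · exact absurd hf hx
    · exact absurd hf hy
    · unfold k1
      rw [if_neg hxw, if_neg hyw, first_c1 h i a hf])
  have h2 := pieceV D (Gb G v w h i a) hle2 w (k2 h i a) (by
    rintro x y ⟨hG, hf⟩ hx hy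
    have hxv : x ≠ v := fun h' => hf (Or.inl h')
    have hyv : y ≠ v := fun h' => hf (Or.inr (Or.inl h'))
    have hf' : ¬ first h i a x y := fun h' => hf (Or.inr (Or.inr ⟨hx, hy, h'⟩))
    unfold k2
    rw [notfirst_c2 h i a hm hm3 (hh x y ⟨hG, hxv, hx, hyv, hy⟩) hf'])
  have h5 : CR2 G ≤ CR (Ga G v w h i a) + CR (Gb G v w h i a) :=
    Nat.sInf_le ⟨_, _, hd, hs, rfl⟩
  have hES1 : ES (Ga G v w h i a) ⊆ ES G := by
    intro e he
    rw [mem_ES] at he ⊢
    exact SimpleGraph.edgeSet_mono hle1 he
  have hES2 : ES (Gb G v w h i a) ⊆ ES G := by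
    intro e he
    rw [mem_ES] at he ⊢
    exact SimpleGraph.edgeSet_mono hle2 he
  have hA : ∑ e ∈ ES (Ga G v w h i a), ∑ f ∈ ES (Ga G v w h i a),
        (if ∃ u ∈ e, ∃ u' ∈ f, u ≠ v ∧ u' ≠ v ∧ k1 w h i a u = k1 w h i a u'
          then D.x e f else 0) ≤
      ∑ e ∈ ES (Ga G v w h i a), ∑ f ∈ ES G, if ev G v w h i a e f then D.x e f else 0 := by
    refine Finset.sum_le_sum fun e he => ?_
    refine le_trans (Finset.sum_le_sum fun f hf => ?_) (Finset.sum_le_sum_of_subset hES1)
    by_cases hc : ∃ u ∈ e, ∃ u' ∈ f, u ≠ v ∧ u' ≠ v ∧ k1 w h i a u = k1 w h i a u'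
    · have hev : ev G v w h i a e f := Or.inl ⟨mem_ES.1 he, mem_ES.1 hf, hc⟩
      rw [if_pos hc, if_pos hev]
    · rw [if_neg hc]
      exact Nat.zero_le _
  have hB : ∑ e ∈ ES (Gb G v w h i a), ∑ f ∈ ES (Gb G v w h i a),
        (if ∃ u ∈ e, ∃ u' ∈ f, u ≠ w ∧ u' ≠ w ∧ k2 h i a u = k2 h i a u'
          then D.x e f else 0) ≤
      ∑ e ∈ ES (Gb G v w h i a), ∑ f ∈ ES G, if ev G v w h i a e f then D.x e f else 0 := by
    refine Finset.sum_le_sum fun e he => ?_
    refine le_trans (Finset.sum_le_sum fun f hf => ?_) (Finset.sum_le_sum_of_subset hES2)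
    by_cases hc : ∃ u ∈ e, ∃ u' ∈ f, u ≠ w ∧ u' ≠ w ∧ k2 h i a u = k2 h i a u'
    · have hev : ev G v w h i a e f := Or.inr ⟨mem_ES.1 he, mem_ES.1 hf, hc⟩
      rw [if_pos hc, if_pos hev]
    · rw [if_neg hc]
      exact Nat.zero_le _
  have hdisj : Disjoint (ES (Ga G v w h i a)) (ES (Gb G v w h i a)) := by
    rw [Finset.disjoint_left]
    intro e he he'
    rw [mem_ES] at he he'
    induction e using Sym2.ind with
    | _ x y =>
      exact he'.2 he.2
  calc 2 * CR2 G ≤ 2 * CR (Ga G v w h i a) + 2 * CR (Gb G v w h i a) := by omega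
    _ ≤ _ := Nat.add_le_add (h1.trans hA) (h2.trans hB)
    _ = ∑ e ∈ ES (Ga G v w h i a) ∪ ES (Gb G v w h i a), ∑ f ∈ ES G,
        (if ev G v w h i a e f then D.x e f else 0) := (Finset.sum_union hdisj).symm
    _ ≤ _ := Finset.sum_le_sum_of_subset (Finset.union_subset hES1 hES2)

omit [Finite V] in
theorem edge_at {e : Sym2 V} {u : V} (hu : u ∈ e) (he : e ∈ G.edgeSet) :
    ∃ x, e = s(u, x) ∧ x ≠ u ∧ G.Adj u x := by
  obtain ⟨x, rfl⟩ := Sym2.mem_iff_exists.1 hu
  rw [SimpleGraph.mem_edgeSet] at he
  exact ⟨x, rfl, he.ne.symm, he⟩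

omit [Finite V] in
theorem mem_Gz {v w : V} {e : Sym2 V} (he : e ∈ G.edgeSet) (hv : v ∉ e) (hw : w ∉ e) :
    e ∈ (Gz G v w).edgeSet := by
  induction e using Sym2.ind with
  | _ x y =>
    rw [SimpleGraph.mem_edgeSet] at he ⊢
    refine ⟨he, ?_, ?_, ?_, ?_⟩
    · rintro rfl
      exact hv (by simp)
    · rintro rfl
      exact hw (by simp)
    · rintro rfl
      exact hv (by simp)
    · rintro rfl
      exact hw (by simp)

/-- pairs of edges one of which has no deleted end -/
theorem bnd1 [Fintype V] (hm : Odd m) (hm3 : 3 ≤ m) (v w : V) (h : V → ZMod m)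
    (hh : ∀ x y, (Gz G v w).Adj x y → h y = h x + 1 ∨ h x = h y + 1) (i : ZMod m)
    (e f : Sym2 V) (he : e ∈ G.edgeSet) (hf : f ∈ (Gz G v w).edgeSet)
    (hef : ∀ u, u ∈ e → u ∉ f) :
    ∑ a : V → Bool, (if ev G v w h i a e f then (1 : ℝ) else 0) ≤
      (1 / 4 + if ∃ u ∈ f, sp h i u then 1 / 4 else 0) * Fintype.card (V → Bool) := by
  have hN : (0 : ℝ) ≤ Fintype.card (V → Bool) := Nat.cast_nonneg _
  induction f using Sym2.ind with
  | _ y z =>
    rw [SimpleGraph.mem_edgeSet] at hf
    have hyz := hh y z hf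
    obtain ⟨hG, hyv, hyw, hzv, hzw⟩ := hf
    have hfa : ∀ a, s(y, z) ∈ (Ga G v w h i a).edgeSet → first h i a y z := by
      intro a ha
      rcases ha.2 with h1 | h1 | h1
      · exact absurd h1 hyv
      · exact absurd h1 hzv
      · exact h1.2.2
    have hfb : ∀ a, s(y, z) ∈ (Gb G v w h i a).edgeSet → ¬ first h i a y z := by
      intro a ha h1
      exact ha.2 (Or.inr (Or.inr ⟨hyw, hzw, h1⟩))
    have hsp : (∃ u ∈ s(y, z), sp h i u) ↔ sp h i y ∨ sp h i z := by
      constructor
      · rintro ⟨u, hu, h1⟩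
        rcases Sym2.mem_iff.1 hu with rfl | rfl
        · exact Or.inl h1
        · exact Or.inr h1
      · rintro (h1 | h1)
        · exact ⟨y, by simp, h1⟩
        · exact ⟨z, by simp, h1⟩
    by_cases hv : v ∈ e
    · obtain ⟨x, rfl, hxv, hvx⟩ := edge_at hv he
      have hxy : x ≠ y := by
        rintro rfl
        exact hef x (by simp) (by simp)
      have hxz : x ≠ z := by
        rintro rfl
        exact hef x (by simp) (by simp)
      have hnb : ∀ a, s(v, x) ∉ (Gb G v w h i a).edgeSet := fun a ha => ha.2 (Or.inl rfl)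
      simp only [hsp]
      by_cases hxw : x = w
      · refine le_trans (Finset.sum_le_sum fun a _ => ?_) (cnt0 hm hm3 h i y z hyz hG.ne)
        by_cases hev : ev G v w h i a s(v, x) s(y, z)
        · rw [if_pos hev, if_pos]
          rcases hev with ⟨_, h2, u, hu, u', hu', h3, h4, h5⟩ | ⟨h1, _⟩
          · refine ⟨hfa a h2, ?_⟩
            have h6 : u = w := by
              rcases Sym2.mem_iff.1 hu with h7 | h7
              · exact absurd h7 h3
              · rw [h7, hxw]
            have h8 : k1 w h i a u = false := by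
              unfold k1
              rw [if_pos h6]
            rw [h8] at h5
            have h9 : ∀ t, t ≠ w → false = k1 w h i a t → c1 h i a t = 0 := by
              intro t ht h10
              unfold k1 at h10
              rw [if_neg ht] at h10
              have h11 : ¬ c1 h i a t = 1 := of_decide_eq_false h10.symm
              rcases c1_cases h i a t with h12 | h12
              · exact h12
              · exact absurd h12 h11
            rcases Sym2.mem_iff.1 hu' with rfl | rfl
            · exact Or.inl (h9 _ hyw h5)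
            · exact Or.inr (h9 _ hzw h5)
          · exact absurd h1 (hnb a)
        · rw [if_neg hev]
          split_ifs <;> norm_num
      · refine le_trans (Finset.sum_le_sum fun a _ => ?_)
          (cnt1 hm hm3 h i x y z hyz hG.ne hxy hxz)
        by_cases hev : ev G v w h i a s(v, x) s(y, z)
        · rw [if_pos hev, if_pos]
          rcases hev with ⟨_, h2, u, hu, u', hu', h3, h4, h5⟩ | ⟨h1, _⟩
          · refine ⟨hfa a h2, ?_⟩
            have h6 : u = x := by
              rcases Sym2.mem_iff.1 hu with h7 | h7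
              · exact absurd h7 h3
              · exact h7
            rw [h6] at h5
            rcases Sym2.mem_iff.1 hu' with rfl | rfl
            · exact Or.inl (c1_of_k1 w h i a hxw hyw h5)
            · exact Or.inr (c1_of_k1 w h i a hxw hzw h5)
          · exact absurd h1 (hnb a)
        · rw [if_neg hev]
          split_ifs <;> norm_num
    · by_cases hw : w ∈ e
      · obtain ⟨x, rfl, hxw, hwx⟩ := edge_at hw he
        have hxy : x ≠ y := by
          rintro rfl
          exact hef x (by simp) (by simp)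
        have hxz : x ≠ z := by
          rintro rfl
          exact hef x (by simp) (by simp)
        have hxv : x ≠ v := by
          rintro rfl
          exact hv (by simp)
        have hwv : w ≠ v := by
          rintro rfl
          exact hv (by simp)
        have hna : ∀ a, s(w, x) ∉ (Ga G v w h i a).edgeSet := by
          intro a ha
          rcases ha.2 with h1 | h1 | h1
          · exact hwv h1
          · exact hxv h1
          · exact h1.1 rfl
        simp only [hsp]
        refine le_trans (Finset.sum_le_sum fun a _ => ?_)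
          (cnt2 hm hm3 h i x y z hyz hG.ne hxy hxz)
        by_cases hev : ev G v w h i a s(w, x) s(y, z)
        · rw [if_pos hev, if_pos]
          rcases hev with ⟨h1, _⟩ | ⟨_, h2, u, hu, u', hu', h3, h4, h5⟩
          · exact absurd h1 (hna a)
          · refine ⟨hfb a h2, ?_⟩
            have h6 : u = x := by
              rcases Sym2.mem_iff.1 hu with h7 | h7
              · exact absurd h7 h3
              · exact h7
            rw [h6] at h5
            rcases Sym2.mem_iff.1 hu' with rfl | rfl
            · exact Or.inl (c2_of_k2 h i a h5)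
            · exact Or.inr (c2_of_k2 h i a h5)
        · rw [if_neg hev]
          split_ifs <;> norm_num
      · have heZ := mem_Gz he hv hw
        have hfZ : s(y, z) ∈ (Gz G v w).edgeSet := ⟨hG, hyv, hyw, hzv, hzw⟩
        have h1 := oca hm hm3 h hh i e s(y, z) heZ hfZ hef
        refine le_trans (Finset.sum_le_sum fun a _ => ?_) (h1.trans ?_)
        · by_cases hev : ev G v w h i a e s(y, z)
          · rw [if_pos hev, if_pos]
            induction e using Sym2.ind with
            | _ x t =>
              obtain ⟨hG', hxv, hxw, htv, htw⟩ := heZ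
              have e1 : pc h i a s(x, t) = if first h i a x t then
                  (1, max (c1 h i a x) (c1 h i a t)) else
                  (2, max (c2 h i a x) (c2 h i a t)) := rfl
              have e2 : pc h i a s(y, z) = if first h i a y z then
                  (1, max (c1 h i a y) (c1 h i a z)) else
                  (2, max (c2 h i a y) (c2 h i a z)) := rfl
              rcases hev with ⟨h2, h3, u, hu, u', hu', h4, h5, h6⟩ |
                ⟨h2, h3, u, hu, u', hu', h4, h5, h6⟩
              · have g1 : first h i a x t := by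
                  rcases h2.2 with h7 | h7 | h7
                  · exact absurd h7 hxv
                  · exact absurd h7 htv
                  · exact h7.2.2
                have g2 := hfa a h3
                have g3 := first_c1 h i a g1
                have g4 := first_c1 h i a g2
                rw [e1, e2, if_pos g1, if_pos g2, ← g3, ← g4, max_self, max_self]
                have g5 : u ≠ w := by
                  rcases Sym2.mem_iff.1 hu with rfl | rfl
                  · exact hxw
                  · exact htw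
                have g6 : u' ≠ w := by
                  rcases Sym2.mem_iff.1 hu' with rfl | rfl
                  · exact hyw
                  · exact hzw
                have g7 := c1_of_k1 w h i a g5 g6 h6
                have g8 : c1 h i a u = c1 h i a x := by
                  rcases Sym2.mem_iff.1 hu with rfl | rfl
                  · rfl
                  · exact g3.symm
                have g9 : c1 h i a u' = c1 h i a y := by
                  rcases Sym2.mem_iff.1 hu' with rfl | rfl
                  · rfl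
                  · exact g4.symm
                rw [← g8, ← g9, g7]
              · have g1 : ¬ first h i a x t := fun h7 => h2.2 (Or.inr (Or.inr ⟨hxw, htw, h7⟩))
                have g2 := hfb a h3
                have g3 := notfirst_c2 h i a hm hm3 (hh x t ⟨hG', hxv, hxw, htv, htw⟩) g1
                have g4 := notfirst_c2 h i a hm hm3 hyz g2
                rw [e1, e2, if_neg g1, if_neg g2, ← g3, ← g4, max_self, max_self]
                have g7 := c2_of_k2 h i a h6
                have g8 : c2 h i a u = c2 h i a x := by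
                  rcases Sym2.mem_iff.1 hu with rfl | rfl
                  · rfl
                  · exact g3.symm
                have g9 : c2 h i a u' = c2 h i a y := by
                  rcases Sym2.mem_iff.1 hu' with rfl | rfl
                  · rfl
                  · exact g4.symm
                rw [← g8, ← g9, g7]
          · rw [if_neg hev]
            split_ifs <;> norm_num
        · refine mul_le_mul_of_nonneg_right ?_ hN
          by_cases h12 : ∃ u ∈ s(y, z), sp h i u
          · rw [if_pos h12]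
            split_ifs <;> norm_num
          · rw [if_neg h12, if_neg (fun h13 => h12 h13.2)]

/-- the sum over the rotations for pairs of edges one of which has no deleted end -/
theorem bnd2 [Fintype V] [NeZero m] (hm : Odd m) (hm3 : 3 ≤ m) (v w : V) (h : V → ZMod m)
    (hh : ∀ x y, (Gz G v w).Adj x y → h y = h x + 1 ∨ h x = h y + 1)
    (e f : Sym2 V) (he : e ∈ G.edgeSet) (hf : f ∈ (Gz G v w).edgeSet)
    (hef : ∀ u, u ∈ e → u ∉ f) :
    ∑ i : ZMod m, ∑ a : V → Bool, (if ev G v w h i a e f then (1 : ℝ) else 0) ≤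
      ((m : ℝ) / 4 + 3 / 4) * Fintype.card (V → Bool) := by
  refine (Finset.sum_le_sum fun i _ => bnd1 hm hm3 v w h hh i e f he hf hef).trans ?_
  rw [← Finset.sum_mul]
  refine mul_le_mul_of_nonneg_right ?_ (Nat.cast_nonneg _)
  rw [Finset.sum_add_distrib, Finset.sum_const, nsmul_eq_mul, Finset.card_univ, ZMod.card,
    ← Finset.sum_filter, Finset.sum_const, nsmul_eq_mul]
  have h14 := card_sp h hm3 hh f hf
  have h15 : ((((Finset.univ : Finset (ZMod m)).filter fun i => ∃ u ∈ f, sp h i u).card : ℕ)
      : ℝ) ≤ 3 := by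
    have h14' : ((Finset.univ : Finset (ZMod m)).filter fun i => ∃ u ∈ f, sp h i u).card ≤ 3 := by
      convert h14
    exact_mod_cast h14'
  linarith

theorem bnd [Fintype V] [NeZero m] (hm : Odd m) (hm3 : 3 ≤ m) (v w : V) (h : V → ZMod m)
    (hh : ∀ x y, (Gz G v w).Adj x y → h y = h x + 1 ∨ h x = h y + 1)
    (e f : Sym2 V) (he : e ∈ G.edgeSet) (hf : f ∈ G.edgeSet) (hef : ∀ u, u ∈ e → u ∉ f) :
    ∑ i : ZMod m, ∑ a : V → Bool, (if ev G v w h i a e f then (1 : ℝ) else 0) ≤
      ((m : ℝ) / 4 + 3 / 4) * Fintype.card (V → Bool) := by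
  by_cases h1 : v ∉ f ∧ w ∉ f
  · exact bnd2 hm hm3 v w h hh e f he (mem_Gz hf h1.1 h1.2) hef
  · by_cases h2 : v ∉ e ∧ w ∉ e
    · refine le_trans (le_of_eq ?_)
        (bnd2 hm hm3 v w h hh f e hf (mem_Gz he h2.1 h2.2) fun u hu hu' => hef u hu' hu)
      refine Finset.sum_congr rfl fun i _ => Finset.sum_congr rfl fun a _ => ?_
      simp only [ev_symm G v w h i a e f]
    · have h3 : ∀ i a, ¬ ev G v w h i a e f := by
        intro i a hev
        -- an edge at `v` is not in the second plane; an edge at `w`, not at `v`, not in the first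
        have k1 : ∀ g, v ∈ g → g ∉ (Gb G v w h i a).edgeSet := by
          intro g hg hg'
          obtain ⟨x, rfl⟩ := Sym2.mem_iff_exists.1 hg
          exact hg'.2 (Or.inl rfl)
        have k2 : ∀ g, w ∈ g → v ∉ g → g ∉ (Ga G v w h i a).edgeSet := by
          intro g hg hgv hg'
          obtain ⟨x, rfl⟩ := Sym2.mem_iff_exists.1 hg
          rcases hg'.2 with h5 | h5 | h5
          · have h6 : w = v := h5
            exact hgv (by rw [h6]; simp)
          · have h6 : x = v := h5
            exact hgv (by rw [h6]; simp)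
          · exact h5.1 rfl
        by_cases ve : v ∈ e
        · have vf : v ∉ f := hef v ve
          have wf : w ∈ f := by
            by_contra h4
            exact h1 ⟨vf, h4⟩
          rcases hev with ⟨_, h5, _⟩ | ⟨h5, _⟩
          · exact k2 f wf vf h5
          · exact k1 e ve h5
        · have we : w ∈ e := by
            by_contra h4
            exact h2 ⟨ve, h4⟩
          have wf : w ∉ f := hef w we
          have vf : v ∈ f := by
            by_contra h4
            exact h1 ⟨h4, wf⟩
          rcases hev with ⟨h5, _⟩ | ⟨_, h5, _⟩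
          · exact k2 e we ve h5
          · exact k1 f vf h5
      have h4 : ∑ i : ZMod m, ∑ a : V → Bool, (if ev G v w h i a e f then (1 : ℝ) else 0) = 0 := by
        refine Finset.sum_eq_zero fun i _ => Finset.sum_eq_zero fun a _ => ?_
        rw [if_neg (h3 i a)]
      rw [h4]
      positivity

theorem two (hm : Odd m) (hm3 : 3 ≤ m) (v w : V) (h : V → ZMod m)
    (hh : ∀ x y, (Gz G v w).Adj x y → h y = h x + 1 ∨ h x = h y + 1) :
    (CR2 G : ℝ) ≤ (1 / 4 + 3 / (4 * (m : ℝ))) * CR G := by
  obtain ⟨D, hD⟩ := exists_opt G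
  cases nonempty_fintype V
  have : NeZero m := ⟨by omega⟩
  set N : ℝ := (Fintype.card (V → Bool) : ℝ) with hN
  have hN0 : 0 < N := by
    rw [hN]
    exact_mod_cast Fintype.card_pos
  have hm0 : (0 : ℝ) < m := by
    have : 0 < m := by omega
    exact_mod_cast this
  have h1 : (m : ℝ) * N * (2 * (CR2 G : ℝ)) ≤ ∑ i : ZMod m, ∑ a : V → Bool,
      ∑ e ∈ ES G, ∑ f ∈ ES G, (D.x e f : ℝ) * (if ev G v w h i a e f then 1 else 0) := by
    have h2 : ∀ i : ZMod m, ∀ a : V → Bool, (2 * (CR2 G : ℝ)) ≤
        ∑ e ∈ ES G, ∑ f ∈ ES G, (D.x e f : ℝ) * (if ev G v w h i a e f then 1 else 0) := by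
      intro i a
      have h3 := two_bound hm hm3 v w h hh i a D
      have h4 : (2 * (CR2 G : ℝ)) ≤
          ((∑ e ∈ ES G, ∑ f ∈ ES G, if ev G v w h i a e f then D.x e f else 0 : ℕ) : ℝ) := by
        exact_mod_cast h3
      refine h4.trans (le_of_eq ?_)
      push_cast
      refine Finset.sum_congr rfl fun e _ => Finset.sum_congr rfl fun f _ => ?_
      rw [mul_ite, mul_one, mul_zero]
    have h5 : ∀ i : ZMod m, N * (2 * (CR2 G : ℝ)) ≤ ∑ a : V → Bool,
        ∑ e ∈ ES G, ∑ f ∈ ES G,
          (D.x e f : ℝ) * (if ev G v w h i a e f then 1 else 0) := by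
      intro i
      have h6 := Finset.card_nsmul_le_sum (Finset.univ : Finset (V → Bool)) _ _
        (fun a _ => h2 i a)
      rw [nsmul_eq_mul, Finset.card_univ] at h6
      exact h6
    have h7 := Finset.card_nsmul_le_sum (Finset.univ : Finset (ZMod m)) _ _
        (fun i _ => h5 i)
    rw [nsmul_eq_mul, Finset.card_univ, ZMod.card] at h7
    rw [mul_assoc]
    exact h7
  have h8 : ∑ i : ZMod m, ∑ a : V → Bool,
      ∑ e ∈ ES G, ∑ f ∈ ES G, (D.x e f : ℝ) * (if ev G v w h i a e f then 1 else 0) =
      ∑ e ∈ ES G, ∑ f ∈ ES G, (D.x e f : ℝ) *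
        ∑ i : ZMod m, ∑ a : V → Bool, (if ev G v w h i a e f then 1 else 0) := by
    have h9 : ∀ i : ZMod m, ∑ a : V → Bool, ∑ e ∈ ES G, ∑ f ∈ ES G,
        (D.x e f : ℝ) * (if ev G v w h i a e f then 1 else 0) =
        ∑ e ∈ ES G, ∑ f ∈ ES G, ∑ a : V → Bool,
          (D.x e f : ℝ) * (if ev G v w h i a e f then 1 else 0) := by
      intro i
      rw [Finset.sum_comm]
      refine Finset.sum_congr rfl fun e _ => ?_
      rw [Finset.sum_comm]
    rw [Finset.sum_congr rfl fun i _ => h9 i, Finset.sum_comm]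
    refine Finset.sum_congr rfl fun e _ => ?_
    rw [Finset.sum_comm]
    refine Finset.sum_congr rfl fun f _ => ?_
    rw [Finset.mul_sum]
    refine Finset.sum_congr rfl fun i _ => ?_
    rw [Finset.mul_sum]
  have h10 : ∑ e ∈ ES G, ∑ f ∈ ES G, (D.x e f : ℝ) *
        ∑ i : ZMod m, ∑ a : V → Bool, (if ev G v w h i a e f then 1 else 0) ≤
      ∑ e ∈ ES G, ∑ f ∈ ES G, (D.x e f : ℝ) * (((m : ℝ) / 4 + 3 / 4) * N) := by
    refine Finset.sum_le_sum fun e he => Finset.sum_le_sum fun f hf => ?_
    by_cases hx : D.x e f = 0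
    · rw [hx]
      simp
    · refine mul_le_mul_of_nonneg_left ?_ (Nat.cast_nonneg _)
      have hef : ∀ v, v ∈ e → v ∉ f := fun v hv hv' => hx (opt_x D hD he hf hv hv')
      exact bnd hm hm3 v w h hh e f (mem_ES.1 he) (mem_ES.1 hf) hef
  have h16 : ∑ e ∈ ES G, ∑ f ∈ ES G, (D.x e f : ℝ) * (((m : ℝ) / 4 + 3 / 4) * N) =
      2 * (CR G : ℝ) * (((m : ℝ) / 4 + 3 / 4) * N) := by
    have h17 : (2 * (CR G : ℝ)) = ∑ e ∈ ES G, ∑ f ∈ ES G, (D.x e f : ℝ) := by
      have h18 := D.two_mul_cr
      rw [hD] at h18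
      exact_mod_cast h18
    rw [h17, Finset.sum_mul]
    refine Finset.sum_congr rfl fun e _ => ?_
    rw [Finset.sum_mul]
  rw [h8] at h1
  have h19 := (h1.trans h10).trans (le_of_eq h16)
  have h20 : (m : ℝ) * (CR2 G : ℝ) ≤ ((m : ℝ) / 4 + 3 / 4) * CR G := by
    have h21 : (2 * N) * ((m : ℝ) * (CR2 G : ℝ)) ≤
        (2 * N) * (((m : ℝ) / 4 + 3 / 4) * CR G) := by
      linarith
    exact le_of_mul_le_mul_left h21 (by positivity)
  have h22 : (1 / 4 + 3 / (4 * (m : ℝ))) * (CR G : ℝ) =
      (((m : ℝ) / 4 + 3 / 4) * CR G) / m := by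
    field_simp
  rw [h22, le_div_iff₀ hm0]
  linarith

end H90.BX
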