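import Pool.Agent.H90.BX.Two

/-!
# [H90 BX TwoFin] the two final forms
-/

set_option autoImplicit false

open Set
open scoped Classical

noncomputable section

namespace H90.BX

open H29.BP H29.BT

variable {V : Type} [Finite V]

theorem two_hom (G : SimpleGraph V) (v w : V) (m : ℕ) (hm : Odd m) (hm3 : 3 ≤ m)
    (h : Nonempty (G.induce {u | u ≠ v ∧ u ≠ w} →g SimpleGraph.cycleGraph m)) :
    (CR2 G : ℝ) ≤ (1 / 4 + 3 / (4 * (m : ℝ))) * CR G := by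
  obtain ⟨φ⟩ := h
  obtain ⟨n, rfl⟩ : ∃ n, m = n + 2 := ⟨m - 2, by omega⟩
  refine two hm hm3 v w
    (fun u => if hu : u ≠ v ∧ u ≠ w then (φ ⟨u, hu⟩ : Fin (n + 2)) else (0 : Fin (n + 2))) ?_
  rintro x y ⟨hG, hxv, hxw, hyv, hyw⟩
  have hx : x ≠ v ∧ x ≠ w := ⟨hxv, hxw⟩
  have hy : y ≠ v ∧ y ≠ w := ⟨hyv, hyw⟩
  have h0 : (G.induce {u | u ≠ v ∧ u ≠ w}).Adj ⟨x, hx⟩ ⟨y, hy⟩ := hG
  have h1 := φ.map_adj h0
  rw [SimpleGraph.cycleGraph_adj] at h1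
  simp only [dif_pos hx, dif_pos hy]
  rcases h1 with h1 | h1
  · right
    have h2 : (φ ⟨x, hx⟩ : Fin (n + 2)) = φ ⟨y, hy⟩ + 1 := (sub_eq_iff_eq_add'.1 h1)
    exact h2
  · left
    have h2 : (φ ⟨y, hy⟩ : Fin (n + 2)) = φ ⟨x, hx⟩ + 1 := (sub_eq_iff_eq_add'.1 h1)
    exact h2

theorem two_bip (G : SimpleGraph V) (v w : V)
    (h : (G.induce {u | u ≠ v ∧ u ≠ w}).Colorable 2) : 4 * CR2 G ≤ CR G := by
  obtain ⟨c⟩ := h
  by_contra hcon
  push Not at hcon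
  set m : ℕ := 2 * (3 * CR G) + 3 with hm
  have hmo : Odd m := ⟨3 * CR G + 1, by omega⟩
  have h1 := two (G := G) (m := m) hmo (by omega) v w
    (fun u => if hu : u ≠ v ∧ u ≠ w then (if c ⟨u, hu⟩ = 0 then 0 else 1) else 0) (by
    rintro x y ⟨hG, hxv, hxw, hyv, hyw⟩
    have hx : x ≠ v ∧ x ≠ w := ⟨hxv, hxw⟩
    have hy : y ≠ v ∧ y ≠ w := ⟨hyv, hyw⟩
    have h0 : (G.induce {u | u ≠ v ∧ u ≠ w}).Adj ⟨x, hx⟩ ⟨y, hy⟩ := hG
    have h2 : c ⟨x, hx⟩ ≠ c ⟨y, hy⟩ := c.valid h0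
    simp only [dif_pos hx, dif_pos hy]
    by_cases h3 : c ⟨x, hx⟩ = 0
    · have h4 : c ⟨y, hy⟩ ≠ 0 := fun h5 => h2 (h3.trans h5.symm)
      left
      rw [if_pos h3, if_neg h4]
      ring
    · have h4 : c ⟨y, hy⟩ = 0 := by
        by_contra h5
        apply h2
        have h6 : ∀ t : Fin 2, t ≠ 0 → t = 1 := by decide
        rw [h6 _ h3, h6 _ h5]
      right
      rw [if_neg h3, if_pos h4]
      ring)
  have hm0 : (0 : ℝ) < m := by
    have : 0 < m := by omega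
    exact_mod_cast this
  have h2 : (4 * (m : ℝ)) * CR2 G ≤ (m + 3) * CR G := by
    have h3 : (4 * (m : ℝ)) * ((1 / 4 + 3 / (4 * (m : ℝ))) * CR G) = (m + 3) * CR G := by
      field_simp
    rw [← h3]
    exact mul_le_mul_of_nonneg_left h1 (by positivity)
  have h4 : 4 * m * CR2 G ≤ (m + 3) * CR G := by exact_mod_cast h2
  have h5 : m * (CR G + 1) ≤ m * (4 * CR2 G) := Nat.mul_le_mul_left _ (by omega)
  have h6 : m * (4 * CR2 G) = 4 * m * CR2 G := by ring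
  have h7 : m * (CR G + 1) = m * CR G + m := by ring
  have h8 : (m + 3) * CR G = m * CR G + 3 * CR G := by ring
  omega

end H90.BX
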